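import Pool.Agent.Lib.P1346e8.Defs

/-!
# Uniformly definable relations on a family of structures

`Fam ι β υ`: a family of structures indexed by `ι`, with binary symbols `β` and unary symbols `υ`.
`F.Def Q`: the family `Q` of `n`-ary relations is defined by one formula. Closure properties.
-/

set_option autoImplicit false

namespace P1346e8

universe u

/-- A family of structures. -/
structure Fam (ι : Type u) (β υ : Type) where
  X : ι → Type
  R : (i : ι) → β → X i → X i → Prop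
  U : (i : ι) → υ → X i → Prop

variable {ι : Type u} {β υ : Type}

/-- The family `Q` of `n`-ary relations is defined by one formula. -/
def Fam.Def (F : Fam ι β υ) {n : ℕ} (Q : (i : ι) → (Fin n → F.X i) → Prop) : Prop :=
  ∃ φ : Fml β υ n, ∀ i v, Q i v ↔ φ.Sat (F.R i) (F.U i) v

/-- Uniformly definable unary relations. -/
def Fam.Def1 (F : Fam ι β υ) (Q : (i : ι) → F.X i → Prop) : Prop :=
  F.Def (n := 1) (fun i v => Q i (v 0))

/-- Uniformly definable binary relations. -/
def Fam.Def2 (F : Fam ι β υ) (Q : (i : ι) → F.X i → F.X i → Prop) : Prop :=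
  F.Def (n := 2) (fun i v => Q i (v 0) (v 1))

/-- Uniformly definable ternary relations. -/
def Fam.Def3 (F : Fam ι β υ) (Q : (i : ι) → F.X i → F.X i → F.X i → Prop) : Prop :=
  F.Def (n := 3) (fun i v => Q i (v 0) (v 1) (v 2))

/-- Renaming of variables. -/
def Fml.map {β υ : Type} : {n m : ℕ} → (Fin n → Fin m) → Fml β υ n → Fml β υ m
  | _, _, f, .eq i j => .eq (f i) (f j)
  | _, _, f, .bin b i j => .bin b (f i) (f j)
  | _, _, f, .un u i => .un u (f i)
  | _, _, f, .neg φ => .neg (φ.map f)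
  | _, _, f, .and φ ψ => .and (φ.map f) (ψ.map f)
  | _, _, f, .ex φ => .ex (φ.map (Fin.snoc (fun j => (f j).castSucc) (Fin.last _)))

theorem Fml.sat_map {X : Type} (R : β → X → X → Prop) (U : υ → X → Prop) :
    ∀ {n : ℕ} (φ : Fml β υ n) {m : ℕ} (f : Fin n → Fin m) (v : Fin m → X),
      (φ.map f).Sat R U v ↔ φ.Sat R U (fun j => v (f j))
  | _, .eq i j, _, f, v => Iff.rfl
  | _, .bin b i j, _, f, v => Iff.rfl
  | _, .un u i, _, f, v => Iff.rfl
  | _, .neg φ, _, f, v => not_congr (Fml.sat_map R U φ f v)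
  | _, .and φ ψ, _, f, v => and_congr (Fml.sat_map R U φ f v) (Fml.sat_map R U ψ f v)
  | _, .ex φ, _, f, v => by
      refine exists_congr fun a => ?_
      rw [Fml.sat_map R U φ]
      have : (fun j => (Fin.snoc (α := fun _ => X) v a)
          ((Fin.snoc (α := fun _ => Fin _) (fun j => (f j).castSucc) (Fin.last _)) j)) =
          Fin.snoc (α := fun _ => X) (fun j => v (f j)) a := by
        funext j
        refine Fin.lastCases ?_ (fun j => ?_) j
        · simp
        · simp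
      exact iff_of_eq (congrArg _ this)

namespace Fam

variable (F : Fam ι β υ) {n : ℕ}

theorem Def.congr {F : Fam ι β υ} {n : ℕ} {Q Q' : (i : ι) → (Fin n → F.X i) → Prop} (h : F.Def Q)
    (hQ : ∀ i v, Q' i v ↔ Q i v) : F.Def Q' := by
  obtain ⟨φ, hφ⟩ := h
  exact ⟨φ, fun i v => (hQ i v).trans (hφ i v)⟩

theorem Def.eq (j k : Fin n) : F.Def (fun _ (v : Fin n → F.X _) => v j = v k) :=
  ⟨.eq j k, fun _ _ => Iff.rfl⟩

theorem Def.bin (b : β) (j k : Fin n) : F.Def (fun i (v : Fin n → F.X i) => F.R i b (v j) (v k)) :=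
  ⟨.bin b j k, fun _ _ => Iff.rfl⟩

theorem Def.un (u : υ) (j : Fin n) : F.Def (fun i (v : Fin n → F.X i) => F.U i u (v j)) :=
  ⟨.un u j, fun _ _ => Iff.rfl⟩

variable {F}

theorem Def.not {Q : (i : ι) → (Fin n → F.X i) → Prop} (h : F.Def Q) :
    F.Def (fun i v => ¬ Q i v) := by
  obtain ⟨φ, hφ⟩ := h
  exact ⟨.neg φ, fun i v => not_congr (hφ i v)⟩

theorem Def.and {Q Q' : (i : ι) → (Fin n → F.X i) → Prop} (h : F.Def Q) (h' : F.Def Q') :
    F.Def (fun i v => Q i v ∧ Q' i v) := by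
  obtain ⟨φ, hφ⟩ := h
  obtain ⟨ψ, hψ⟩ := h'
  exact ⟨.and φ ψ, fun i v => and_congr (hφ i v) (hψ i v)⟩

theorem Def.or {Q Q' : (i : ι) → (Fin n → F.X i) → Prop} (h : F.Def Q) (h' : F.Def Q') :
    F.Def (fun i v => Q i v ∨ Q' i v) :=
  ((h.not.and h'.not).not).congr fun i v => by tauto

theorem Def.imp {Q Q' : (i : ι) → (Fin n → F.X i) → Prop} (h : F.Def Q) (h' : F.Def Q') :
    F.Def (fun i v => Q i v → Q' i v) :=
  (h.not.or h').congr fun i v => by tauto

theorem Def.iff {Q Q' : (i : ι) → (Fin n → F.X i) → Prop} (h : F.Def Q) (h' : F.Def Q') :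
    F.Def (fun i v => Q i v ↔ Q' i v) :=
  ((h.imp h').and (h'.imp h)).congr fun i v => by tauto

/-- Existential quantification; the quantified variable is the last one. -/
theorem Def.ex {Q : (i : ι) → (Fin n → F.X i) → F.X i → Prop}
    (h : F.Def (n := n + 1) (fun i v => Q i (fun j => v j.castSucc) (v (Fin.last n)))) :
    F.Def (fun i v => ∃ a, Q i v a) := by
  obtain ⟨φ, hφ⟩ := h
  refine ⟨.ex φ, fun i v => exists_congr fun a => ?_⟩
  rw [← hφ i]
  simp

/-- Universal quantification; the quantified variable is the last one. -/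
theorem Def.all {Q : (i : ι) → (Fin n → F.X i) → F.X i → Prop}
    (h : F.Def (n := n + 1) (fun i v => Q i (fun j => v j.castSucc) (v (Fin.last n)))) :
    F.Def (fun i v => ∀ a, Q i v a) :=
  (Def.ex (Q := fun i v a => ¬ Q i v a) h.not).not.congr fun i v => by simp

theorem Def.subst {m : ℕ} {Q : (i : ι) → (Fin n → F.X i) → Prop} (h : F.Def Q) (f : Fin n → Fin m) :
    F.Def (fun i (v : Fin m → F.X i) => Q i (fun j => v (f j))) := by
  obtain ⟨φ, hφ⟩ := h
  exact ⟨φ.map f, fun i v => by rw [Fml.sat_map, ← hφ]⟩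

theorem Def1.at {Q : (i : ι) → F.X i → Prop} (h : F.Def1 Q) (j : Fin n) :
    F.Def (fun i (v : Fin n → F.X i) => Q i (v j)) :=
  Def.subst h (fun _ => j)

theorem Def2.at {Q : (i : ι) → F.X i → F.X i → Prop} (h : F.Def2 Q) (j k : Fin n) :
    F.Def (fun i (v : Fin n → F.X i) => Q i (v j) (v k)) :=
  Def.subst h ![j, k]

theorem Def3.at {Q : (i : ι) → F.X i → F.X i → F.X i → Prop} (h : F.Def3 Q) (j k l : Fin n) :
    F.Def (fun i (v : Fin n → F.X i) => Q i (v j) (v k) (v l)) :=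
  Def.subst h ![j, k, l]

variable (F)

/-- The empty conjunction and disjunction: a constant relation. -/
theorem Def.const (p : Prop) (h0 : 0 < n) : F.Def (fun _ (_ : Fin n → F.X _) => p) := by
  by_cases hp : p
  · exact (Def.eq F (⟨0, h0⟩ : Fin n) ⟨0, h0⟩).congr fun i v => by simp [hp]
  · exact (Def.eq F (⟨0, h0⟩ : Fin n) ⟨0, h0⟩).not.congr fun i v => by simp [hp]

variable {F}

/-- Finite disjunctions. -/
theorem Def.exFin {α : Type} [Finite α] {Q : α → (i : ι) → (Fin n → F.X i) → Prop} (h0 : 0 < n)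
    (h : ∀ a, F.Def (Q a)) : F.Def (fun i v => ∃ a, Q a i v) := by
  classical
  have := Fintype.ofFinite α
  have key : ∀ s : Finset α, F.Def (fun i v => ∃ a ∈ s, Q a i v) := by
    intro s
    induction s using Finset.induction_on with
    | empty => exact (Def.const F False h0).congr fun i v => by simp
    | insert a s _ ih => exact ((h a).or ih).congr fun i v => by simp
  exact (key Finset.univ).congr fun i v => by simp

/-- Finite conjunctions. -/
theorem Def.allFin {α : Type} [Finite α] {Q : α → (i : ι) → (Fin n → F.X i) → Prop} (h0 : 0 < n)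
    (h : ∀ a, F.Def (Q a)) : F.Def (fun i v => ∀ a, Q a i v) :=
  (Def.exFin h0 fun a => (h a).not).not.congr fun i v => by simp

theorem Def1.not {Q : (i : ι) → F.X i → Prop} (h : F.Def1 Q) : F.Def1 (fun i x => ¬ Q i x) :=
  Def.not h

theorem Def1.congr {Q Q' : (i : ι) → F.X i → Prop} (h : F.Def1 Q) (hQ : ∀ i x, Q' i x ↔ Q i x) :
    F.Def1 Q' := Def.congr h fun i _ => hQ i _

theorem Def2.congr {Q Q' : (i : ι) → F.X i → F.X i → Prop} (h : F.Def2 Q)
    (hQ : ∀ i x y, Q' i x y ↔ Q i x y) : F.Def2 Q' := Def.congr h fun i _ => hQ i _ _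

/-- A definable unary relation is given by a formula, evaluated at `![x]`. -/
theorem Def1.fml {Q : (i : ι) → F.X i → Prop} (h : F.Def1 Q) :
    ∃ φ : Fml β υ 1, ∀ i x, Q i x ↔ φ.Sat (F.R i) (F.U i) ![x] := by
  obtain ⟨φ, hφ⟩ := h
  exact ⟨φ, fun i x => by simpa using hφ i ![x]⟩

/-- A definable binary relation is given by a formula, evaluated at `![x, y]`. -/
theorem Def2.fml {Q : (i : ι) → F.X i → F.X i → Prop} (h : F.Def2 Q) :
    ∃ φ : Fml β υ 2, ∀ i x y, Q i x y ↔ φ.Sat (F.R i) (F.U i) ![x, y] := by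
  obtain ⟨φ, hφ⟩ := h
  exact ⟨φ, fun i x y => by simpa using hφ i ![x, y]⟩

theorem def1_of_fml (φ : Fml β υ 1) : F.Def1 (fun i x => φ.Sat (F.R i) (F.U i) ![x]) := by
  refine ⟨φ, fun i v => ?_⟩
  have : ![v 0] = v := by funext j; fin_cases j; rfl
  change Fml.Sat (F.R i) (F.U i) φ ![v 0] ↔ _
  rw [this]

theorem def2_of_fml (φ : Fml β υ 2) : F.Def2 (fun i x y => φ.Sat (F.R i) (F.U i) ![x, y]) := by
  refine ⟨φ, fun i v => ?_⟩
  have : ![v 0, v 1] = v := by funext j; fin_cases j <;> rfl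
  change Fml.Sat (F.R i) (F.U i) φ ![v 0, v 1] ↔ _
  rw [this]

/-- **Interpretation lemma.** `G` is interpreted in `F` by an injective map `g` with definable range,
such that the basic relations of `G` are definable in `F` (on the range of `g`). Then all definable
relations of `G` are definable in `F` (on the range of `g`). -/
theorem interp {β' υ' : Type} {G : Fam ι β' υ'} (g : (i : ι) → G.X i → F.X i)
    (hinj : ∀ i, Function.Injective (g i)) (hran : F.Def1 (fun i x => ∃ a, g i a = x))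
    (hR : ∀ b, ∃ Q : (i : ι) → F.X i → F.X i → Prop, F.Def2 Q ∧
      ∀ i x y, Q i (g i x) (g i y) ↔ G.R i b x y)
    (hU : ∀ u, ∃ Q : (i : ι) → F.X i → Prop, F.Def1 Q ∧ ∀ i x, Q i (g i x) ↔ G.U i u x)
    {n : ℕ} {Q : (i : ι) → (Fin n → G.X i) → Prop} (h : G.Def Q) :
    ∃ Q' : (i : ι) → (Fin n → F.X i) → Prop, F.Def Q' ∧ ∀ i v, Q' i (fun j => g i (v j)) ↔ Q i v := by
  obtain ⟨φ, hφ⟩ := h
  suffices H : ∀ {n : ℕ} (φ : Fml β' υ' n), ∃ Q' : (i : ι) → (Fin n → F.X i) → Prop, F.Def Q' ∧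
      ∀ i v, Q' i (fun j => g i (v j)) ↔ φ.Sat (G.R i) (G.U i) v by
    obtain ⟨Q', h1, h2⟩ := H φ
    exact ⟨Q', h1, fun i v => (h2 i v).trans (hφ i v).symm⟩
  intro n φ
  induction φ with
  | eq j k => exact ⟨_, Def.eq F j k, fun i v => (hinj i).eq_iff⟩
  | bin b j k =>
    obtain ⟨Q, h1, h2⟩ := hR b
    exact ⟨_, Def2.at h1 j k, fun i v => h2 i _ _⟩
  | un u j =>
    obtain ⟨Q, h1, h2⟩ := hU u
    exact ⟨_, Def1.at h1 j, fun i v => h2 i _⟩
  | neg φ ih =>
    obtain ⟨Q, h1, h2⟩ := ih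
    exact ⟨_, h1.not, fun i v => not_congr (h2 i v)⟩
  | and φ ψ ih ih' =>
    obtain ⟨Q, h1, h2⟩ := ih
    obtain ⟨Q', h1', h2'⟩ := ih'
    exact ⟨_, h1.and h1', fun i v => and_congr (h2 i v) (h2' i v)⟩
  | @ex m φ ih =>
    obtain ⟨Q, h1, h2⟩ := ih
    refine ⟨fun i v => ∃ a, (∃ b, g i b = a) ∧ Q i (Fin.snoc v a), Def.ex ?_, fun i v => ?_⟩
    · refine Def.and (Def1.at hran (Fin.last m)) (h1.congr fun i v => ?_)
      have : (Fin.snoc (α := fun _ => F.X i) (fun j => v j.castSucc) (v (Fin.last m))) = v := by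
        exact Fin.snoc_init_self v
      rw [this]
    · constructor
      · rintro ⟨_, ⟨b, rfl⟩, hQ⟩
        refine ⟨b, (h2 i _).1 ?_⟩
        convert hQ using 1
        funext j
        refine Fin.lastCases ?_ (fun j => ?_) j <;> simp
      · rintro ⟨b, hb⟩
        refine ⟨g i b, ⟨b, rfl⟩, ?_⟩
        convert (h2 i _).2 hb using 1
        funext j
        refine Fin.lastCases ?_ (fun j => ?_) j <;> simp

end Fam

end P1346e8
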