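import Pool.Agent.Lib.P1346e8.Copy

/-!
# MODULE AllPerm: the class of all permutations (about 1.5 h)

STATEMENTS. The class of all permutations is a permutation class, and every class of ordered graphs is
a transduction of it.

PROOF. First: a structure embedded in a permutation is a permutation.
Second: for `A ∈ C` let `X = A.V ⊕ {e : A.V × A.V // A.r 0 e.1 e.2}` (elements: the vertices `v`, and the
ordered edges `(a, b)`), with two strict linear orders.  `<₁`: by the first endpoint, `v` itself first: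
key of `v` is `(v, bottom)`, key of `(a, b)` is `(a, b)` (lexicographic, `bottom` below everything, the
order `A.r 1` on vertices); `<₂`: key of `v` is `(v, bottom)`, key of `(a, b)` is `(b, a)`.  Keys are
different, so both are strict linear orders.  Let `Q A` be this permutation (a `Str`).
`trans_of_def` with `ι := C` (the subtype), `A i := Q i.1`, `B i := i.1`, `κ := Unit`, `υ := Unit`,
`W i () x := x.1` is a vertex, `f i v := (inl v, ())`.  The range is the unary symbol `inr ()`.
Relation `1`: `<₁`, that is the binary symbol `some 0` (on vertices it is `A.r 1`).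
Relation `0`: `E v w` iff there is a non-vertex `z` such that `v` is the last vertex with `v <₁ z` and `w`
is the last vertex with `w <₂ z`:
`∃ z, ¬ vert z ∧ (v <₁ z ∧ ∀ v', vert v' → ¬ (v <₁ v' ∧ v' <₁ z)) ∧ (w <₂ z ∧ ∀ w', vert w' → ¬ (w <₂ w' ∧ w' <₂ z))`.
For `z = (a, b)` the first condition says `v = a`, the second `w = b`.
-/

set_option autoImplicit false

namespace P1346e8

namespace AllPermAux

/-- Lexicographic order with bottom in the second coordinate. -/
def keyLt {V : Type} (r : V → V → Prop) (p q : V × Option V) : Prop :=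
  r p.1 q.1 ∨ (p.1 = q.1 ∧ ((p.2 = none ∧ q.2 ≠ none) ∨
    ∃ b b', p.2 = some b ∧ q.2 = some b' ∧ r b b'))

theorem keyLt_lin {V : Type} {r : V → V → Prop} (hr : StrictLin (fun _ => True) r) :
    StrictLin (fun _ => True) (keyLt r) := by
  obtain ⟨h1, h2, h3⟩ := hr
  refine ⟨?_, ?_, ?_⟩
  · rintro ⟨a, o⟩ - (h | ⟨-, (⟨h, h'⟩ | ⟨b, b', hb, hb', h⟩)⟩)
    · exact h1 a trivial h
    · exact h' h
    · simp only at hb hb'
      rw [hb] at hb'
      obtain rfl := Option.some.inj hb'
      exact h1 b trivial h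
  · rintro ⟨a, o⟩ ⟨a', o'⟩ ⟨a'', o''⟩ - - - h h'
    simp only [keyLt] at h h' ⊢
    rcases h with h | ⟨rfl, h⟩
    · rcases h' with h' | ⟨rfl, h'⟩
      · exact Or.inl (h2 _ _ _ trivial trivial trivial h h')
      · exact Or.inl h
    · rcases h' with h' | ⟨rfl, h'⟩
      · exact Or.inl h'
      · refine Or.inr ⟨rfl, ?_⟩
        rcases h with ⟨ho, ho'⟩ | ⟨b, b', hb, hb', h⟩
        · rcases h' with ⟨h1', h2'⟩ | ⟨c, c', hc, hc', h'⟩
          · exact absurd h1' ho'
          · exact Or.inl ⟨ho, by rw [hc']; exact Option.some_ne_none _⟩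
        · rcases h' with ⟨h1', h2'⟩ | ⟨c, c', hc, hc', h'⟩
          · rw [h1'] at hb'
            exact absurd hb' (by simp)
          · rw [hb'] at hc
            obtain rfl := Option.some.inj hc
            exact Or.inr ⟨b, c', hb, hc', h2 _ _ _ trivial trivial trivial h h'⟩
  · rintro ⟨a, o⟩ ⟨a', o'⟩ - - hne
    simp only [keyLt]
    by_cases haa : a = a'
    · subst haa
      have hoo : o ≠ o' := fun h => hne (by rw [h])
      rcases o with _ | b <;> rcases o' with _ | b'
      · exact absurd rfl hoo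
      · exact Or.inl (Or.inr ⟨rfl, Or.inl ⟨rfl, Option.some_ne_none _⟩⟩)
      · exact Or.inr (Or.inr ⟨rfl, Or.inl ⟨rfl, Option.some_ne_none _⟩⟩)
      · rcases h3 b b' trivial trivial (fun h => hoo (by rw [h])) with h | h
        · exact Or.inl (Or.inr ⟨rfl, Or.inr ⟨b, b', rfl, rfl, h⟩⟩)
        · exact Or.inr (Or.inr ⟨rfl, Or.inr ⟨b', b, rfl, rfl, h⟩⟩)
    · rcases h3 a a' trivial trivial haa with h | h
      · exact Or.inl (Or.inl h)
      · exact Or.inr (Or.inl h)

theorem lin_comap {V W : Type} {r : V → V → Prop} (hr : StrictLin (fun _ => True) r) (f : W → V)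
    (hf : Function.Injective f) : StrictLin (fun _ => True) (fun x y => r (f x) (f y)) := by
  obtain ⟨h1, h2, h3⟩ := hr
  exact ⟨fun x _ => h1 _ trivial, fun x y z _ _ _ => h2 _ _ _ trivial trivial trivial,
    fun x y _ _ hne => h3 _ _ trivial trivial (fun h => hne (hf h))⟩

/-- The elements: vertices and ordered edges. -/
abbrev El (A : Str) : Type := A.V ⊕ {e : A.V × A.V // A.r 0 e.1 e.2}

def key1 (A : Str) : El A → A.V × Option A.V
  | .inl v => (v, none)
  | .inr e => (e.1.1, some e.1.2)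

def key2 (A : Str) : El A → A.V × Option A.V
  | .inl v => (v, none)
  | .inr e => (e.1.2, some e.1.1)

theorem key1_inj (A : Str) : Function.Injective (key1 A) := by
  rintro (v | ⟨⟨a, b⟩, h⟩) (w | ⟨⟨c, d⟩, h'⟩) hvw
  · simp [key1] at hvw; rw [hvw]
  · simp [key1] at hvw
  · simp [key1] at hvw
  · simp [key1] at hvw
    obtain ⟨rfl, rfl⟩ := hvw
    rfl

theorem key2_inj (A : Str) : Function.Injective (key2 A) := by
  rintro (v | ⟨⟨a, b⟩, h⟩) (w | ⟨⟨c, d⟩, h'⟩) hvw
  · simp [key2] at hvw; rw [hvw]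
  · simp [key2] at hvw
  · simp [key2] at hvw
  · simp [key2] at hvw
    obtain ⟨rfl, rfl⟩ := hvw
    rfl

/-- The permutation that encodes `A`. -/
def QA (A : Str) : Str where
  V := El A
  fin := by
    have := A.fin
    infer_instance
  r := fun i x y => if i = 0 then keyLt (A.r 1) (key1 A x) (key1 A y)
    else keyLt (A.r 1) (key2 A x) (key2 A y)

theorem QA_r0 (A : Str) (x y : El A) :
    (QA A).r 0 x y ↔ keyLt (A.r 1) (key1 A x) (key1 A y) := by
  simp [QA]

theorem QA_r1 (A : Str) (x y : El A) :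
    (QA A).r 1 x y ↔ keyLt (A.r 1) (key2 A x) (key2 A y) := by
  simp [QA]

theorem QA_isPerm (A : Str) (h : A.IsOrderedGraph) : (QA A).IsPerm := by
  intro i
  fin_cases i
  · have := lin_comap (keyLt_lin h.2.2) (key1 A) (key1_inj A)
    have e : (fun x y => keyLt (A.r 1) (key1 A x) (key1 A y)) = (QA A).r 0 := by
      funext x y
      exact (propext (QA_r0 A x y)).symm
    rw [e] at this
    exact this
  · have := lin_comap (keyLt_lin h.2.2) (key2 A) (key2_inj A)
    have e : (fun x y => keyLt (A.r 1) (key2 A x) (key2 A y)) = (QA A).r 1 := by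
      funext x y
      exact (propext (QA_r1 A x y)).symm
    rw [e] at this
    exact this

/-- The last vertex before an edge, for an abstract key. -/
theorem last_vertex {V W : Type} {r : V → V → Prop} (hr : StrictLin (fun _ => True) r)
    (key : V ⊕ W → V × Option V) (hk : ∀ v, key (.inl v) = (v, none)) (z : W) (a b : V)
    (hz : key (.inr z) = (a, some b)) (v : V) :
    (keyLt r (key (.inl v)) (key (.inr z)) ∧ ∀ v', ¬ (keyLt r (key (.inl v)) (key (.inl v')) ∧
      keyLt r (key (.inl v')) (key (.inr z)))) ↔ v = a := by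
  obtain ⟨h1, h2, h3⟩ := hr
  have e1 : ∀ v, keyLt r (key (.inl v)) (key (.inr z)) ↔ (r v a ∨ v = a) := by
    intro v
    rw [hk, hz]
    simp [keyLt]
  have e2 : ∀ v v', keyLt r (key (.inl v)) (key (.inl v')) ↔ r v v' := by
    intro v v'
    rw [hk, hk]
    simp [keyLt]
  simp only [e1, e2]
  constructor
  · rintro ⟨h, h'⟩
    rcases h with h | h
    · exact absurd ⟨h, Or.inr rfl⟩ (h' a)
    · exact h
  · rintro rfl
    refine ⟨Or.inr rfl, ?_⟩
    rintro v' ⟨h, h' | rfl⟩
    · exact h1 v trivial (h2 _ _ _ trivial trivial trivial h h')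
    · exact h1 _ trivial h

end AllPermAux

theorem isPermClass_all : IsPermClass {B : Str | B.IsPerm} := by
  refine ⟨fun A hA => hA, ?_⟩
  rintro A hA B ⟨f, hf, hr⟩ i
  have := AllPermAux.lin_comap (hA i) f hf
  have e : (fun x y => A.r i (f x) (f y)) = B.r i := by
    funext x y
    exact (propext (hr i x y)).symm
  rw [e] at this
  exact this

open AllPermAux in
theorem trans_all_perm (C : Set Str) (hC : ∀ A ∈ C, A.IsOrderedGraph) :
    IsTransductionOf C {B : Str | B.IsPerm} := by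
  classical
  let F := copyFam (fun i : C => QA i.1) Unit (fun (i : C) (_ : Unit) (x : (QA i.1).V × Unit) =>
    ∃ v : i.1.V, x.1 = (Sum.inl v : El i.1))
  refine trans_of_def (ι := C) C _ (fun i => QA i.1) (fun i => i.1)
    (fun i => QA_isPerm i.1 (hC i.1 i.2)) (fun X hX => ⟨⟨X, hX⟩, rfl⟩) Unit Unit
    (fun i _ x => ∃ v : i.1.V, x.1 = (Sum.inl v : El i.1))
    (fun i v => ((Sum.inl v : El i.1), ())) ?_ ?_ ?_
  · intro i v w hvw
    exact Sum.inl.inj (Prod.mk.inj hvw).1
  · refine (Fam.Def.un F (Sum.inr ()) 0).congr fun i v => ?_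
    constructor
    · rintro ⟨b, hb⟩
      exact ⟨b, (congrArg Prod.fst hb).symm⟩
    · rintro ⟨b, hb⟩
      exact ⟨b, Prod.ext hb.symm rfl⟩
  · intro j
    fin_cases j
    · refine ⟨fun i x y => ∃ z, (¬ F.U i (Sum.inr ()) z ∧
        (F.R i (some 0) x z ∧ ∀ v', F.U i (Sum.inr ()) v' →
          ¬ (F.R i (some 0) x v' ∧ F.R i (some 0) v' z))) ∧
        (F.R i (some 1) y z ∧ ∀ v', F.U i (Sum.inr ()) v' →
          ¬ (F.R i (some 1) y v' ∧ F.R i (some 1) v' z)), ?_, ?_⟩
      · refine Fam.Def.ex (F := F) (n := 2) (Q := fun i v z => (¬ F.U i (Sum.inr ()) z ∧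
          (F.R i (some 0) (v 0) z ∧ ∀ v', F.U i (Sum.inr ()) v' →
            ¬ (F.R i (some 0) (v 0) v' ∧ F.R i (some 0) v' z))) ∧
          (F.R i (some 1) (v 1) z ∧ ∀ v', F.U i (Sum.inr ()) v' →
            ¬ (F.R i (some 1) (v 1) v' ∧ F.R i (some 1) v' z))) ?_
        refine Fam.Def.and (Fam.Def.and (Fam.Def.not (Fam.Def.un F _ _)) (Fam.Def.and
          (Fam.Def.bin F _ _ _) ?_)) (Fam.Def.and (Fam.Def.bin F _ _ _) ?_)
        · refine Fam.Def.all (F := F) (n := 3) (Q := fun i v v' => F.U i (Sum.inr ()) v' →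
            ¬ (F.R i (some 0) (v 0) v' ∧ F.R i (some 0) v' (v 2))) ?_
          exact Fam.Def.imp (Fam.Def.un F _ _) (Fam.Def.not (Fam.Def.and (Fam.Def.bin F _ _ _)
            (Fam.Def.bin F _ _ _)))
        · refine Fam.Def.all (F := F) (n := 3) (Q := fun i v v' => F.U i (Sum.inr ()) v' →
            ¬ (F.R i (some 1) (v 1) v' ∧ F.R i (some 1) v' (v 2))) ?_
          exact Fam.Def.imp (Fam.Def.un F _ _) (Fam.Def.not (Fam.Def.and (Fam.Def.bin F _ _ _)
            (Fam.Def.bin F _ _ _)))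
      · intro i v w
        have hlin := (hC i.1 i.2).2.2
        have eR0 : ∀ x y : El i.1, F.R i (some 0) (x, ()) (y, ()) ↔
            keyLt (i.1.r 1) (key1 i.1 x) (key1 i.1 y) := by
          intro x y
          refine Iff.trans ?_ (QA_r0 i.1 x y)
          change (() = () ∧ (QA i.1).r 0 x y) ↔ _
          simp
        have eR1 : ∀ x y : El i.1, F.R i (some 1) (x, ()) (y, ()) ↔
            keyLt (i.1.r 1) (key2 i.1 x) (key2 i.1 y) := by
          intro x y
          refine Iff.trans ?_ (QA_r1 i.1 x y)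
          change (() = () ∧ (QA i.1).r 1 x y) ↔ _
          simp
        have eU : ∀ x : El i.1, F.U i (Sum.inr ()) (x, ()) ↔ ∃ v : i.1.V, x = Sum.inl v :=
          fun x => Iff.rfl
        constructor
        · rintro ⟨⟨z, ⟨⟩⟩, ⟨hz, h1, h1'⟩, h2, h2'⟩
          rw [eU] at hz
          rcases z with z | z
          · exact absurd ⟨z, rfl⟩ hz
          · obtain ⟨⟨a, b⟩, hab⟩ := z
            have hv := (last_vertex hlin (key1 i.1) (fun _ => rfl) ⟨(a, b), hab⟩ a b rfl v).1
              ⟨(eR0 _ _).1 h1, fun v' hv' => h1' (Sum.inl v', ()) ⟨v', rfl⟩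
                ⟨(eR0 _ _).2 hv'.1, (eR0 _ _).2 hv'.2⟩⟩
            have hw := (last_vertex hlin (key2 i.1) (fun _ => rfl) ⟨(a, b), hab⟩ b a rfl w).1
              ⟨(eR1 _ _).1 h2, fun v' hv' => h2' (Sum.inl v', ()) ⟨v', rfl⟩
                ⟨(eR1 _ _).2 hv'.1, (eR1 _ _).2 hv'.2⟩⟩
            subst hv hw
            exact hab
        · intro hvw
          have hv := (last_vertex hlin (key1 i.1) (fun _ => rfl) ⟨(v, w), hvw⟩ v w rfl v).2 rfl
          have hw := (last_vertex hlin (key2 i.1) (fun _ => rfl) ⟨(v, w), hvw⟩ w v rfl w).2 rfl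
          refine ⟨((Sum.inr ⟨(v, w), hvw⟩ : El i.1), ()), ⟨?_, (eR0 _ _).2 hv.1, ?_⟩,
            (eR1 _ _).2 hw.1, ?_⟩
          · rw [eU]
            rintro ⟨u, hu⟩
            exact absurd hu (by simp)
          · rintro ⟨x, ⟨⟩⟩ ⟨u, rfl⟩ ⟨ha, hb⟩
            exact hv.2 u ⟨(eR0 _ _).1 ha, (eR0 _ _).1 hb⟩
          · rintro ⟨x, ⟨⟩⟩ ⟨u, rfl⟩ ⟨ha, hb⟩
            exact hw.2 u ⟨(eR1 _ _).1 ha, (eR1 _ _).1 hb⟩
    · refine ⟨fun i x y => F.R i (some 0) x y, Fam.Def.bin F (some 0) 0 1, fun i v w => ?_⟩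
      have e : F.R i (some 0) ((Sum.inl v : El i.1), ()) ((Sum.inl w : El i.1), ()) ↔
          keyLt (i.1.r 1) (key1 i.1 (Sum.inl v)) (key1 i.1 (Sum.inl w)) := by
        refine Iff.trans ?_ (QA_r0 i.1 _ _)
        change (() = () ∧ (QA i.1).r 0 (Sum.inl v) (Sum.inl w)) ↔ _
        simp
      refine e.trans ?_
      simp [keyLt, key1]

end P1346e8
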