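import Pool.Agent.Lib.P7f6430.Ramsey

/-!
# MODULE RamQ: finite Ramsey theorem for quadruples (about 1 h)

STATEMENT. For a finite set `C` of colours and `L` there is `K` such that for every colouring `f` of
quadruples there is an increasing sequence `h` of length `L` below `K` such that all increasing
quadruples of its members have the same colour.

PROOF. Suppose not: for every `K` there is a bad `f_K` (choose one).  `C` is non-empty.  With the
ultrafilter `Filter.hyperfilter ℕ` define `g i j k l :=` the colour `c` with `f_K i j k l = c` for
hyperfilter-almost all `K` (it exists because `C` is finite: `Ultrafilter.eventually_exists..`, or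
`Filter.Tendsto`/compactness; e.g. `(Filter.hyperfilter ℕ).finite_biUnion_mem_iff`).  Apply the infinite
theorem `Pool.Agent.Lib.P7f6430.ramsey_nat 4` to `F : Finset ℕ → C`, `F s :=` `g` at the four smallest
elements of `s` in increasing order (for instance via `s.sort (· ≤ ·)` and `getD`, or
`s.orderEmbOfFin`), and `A = Set.univ`: an infinite homogeneous set `H`; take the first `L` elements
`h 0 < ... < h (L - 1)` of `H` (`Nat.nth` or `Set.Infinite.natEmbedding`, `Nat.orderEmbeddingOfSet`).
For each of the finitely many increasing quadruples of indices, `f_K (h i) (h j) (h k) (h l) = c` for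
almost all `K`; so there is `K` larger than all `h i` for which all these equalities hold: `f_K` is not
bad, a contradiction.  (A direct finite proof is also possible.)
-/

set_option autoImplicit false

namespace P1346e8

theorem ramsey_quad (C : Type) [Finite C] (L : ℕ) : ∃ K : ℕ, ∀ f : ℕ → ℕ → ℕ → ℕ → C,
    ∃ h : Fin L → ℕ, StrictMono h ∧ (∀ i, h i < K) ∧ ∃ c, ∀ i j k l : Fin L, i < j → j < k → k < l →
      f (h i) (h j) (h k) (h l) = c := by
  classical
  by_contra hcon
  push Not at hcon
  choose F hF using hcon
  have c0 : C := F 0 0 0 0 0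
  have : Nonempty C := ⟨c0⟩
  have hg : ∀ i j k l : ℕ, ∃ c, ∀ᶠ K in (Filter.hyperfilter ℕ : Filter ℕ), F K i j k l = c := by
    intro i j k l
    rw [← Ultrafilter.eventually_exists_iff]
    exact Filter.Eventually.of_forall fun K => ⟨F K i j k l, rfl⟩
  choose g hg using hg
  set Fs : Finset ℕ → C := fun s => if h : s.card = 4 then
    g (s.orderEmbOfFin h 0) (s.orderEmbOfFin h 1) (s.orderEmbOfFin h 2) (s.orderEmbOfFin h 3)
    else c0 with hFs
  obtain ⟨H, -, hH, c, hc⟩ := Pool.Agent.Lib.P7f6430.ramsey_nat 4 Fs Set.univ Set.infinite_univ
  haveI : Infinite H := hH.to_subtype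
  set e : ℕ ↪o ℕ := Nat.orderEmbeddingOfSet H with he
  have heH : ∀ n, e n ∈ H := by
    intro n
    have h1 : e n ∈ Set.range e := ⟨n, rfl⟩
    rw [he, Nat.orderEmbeddingOfSet_range H] at h1
    exact h1
  have hquad : ∀ i j k l : ℕ, i < j → j < k → k < l → g (e i) (e j) (e k) (e l) = c := by
    intro i j k l hij hjk hkl
    set u : Fin 4 → ℕ := ![e i, e j, e k, e l] with hu
    have humono : StrictMono u := by
      rw [Fin.strictMono_iff_lt_succ]
      intro a
      fin_cases a
      · exact e.strictMono hij
      · exact e.strictMono hjk
      · exact e.strictMono hkl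
    have hcard : (Finset.univ.image u).card = 4 := by
      rw [Finset.card_image_of_injective _ humono.injective]
      rfl
    have h1 := hc (Finset.univ.image u) (by
      intro x hx
      rw [Finset.mem_coe, Finset.mem_image] at hx
      obtain ⟨a, -, rfl⟩ := hx
      fin_cases a
      · exact heH i
      · exact heH j
      · exact heH k
      · exact heH l) hcard
    have h2 := Finset.orderEmbOfFin_unique hcard
      (fun x => Finset.mem_image_of_mem u (Finset.mem_univ x)) humono
    rw [hFs] at h1
    simp only [dif_pos hcard, ← h2] at h1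
    exact h1
  have hev : ∀ᶠ K in (Filter.hyperfilter ℕ : Filter ℕ),
      (∀ i : Fin L, e i < K) ∧ ∀ i j k l : Fin L, i < j → j < k → k < l →
        F K (e i) (e j) (e k) (e l) = c := by
    refine Filter.Eventually.and ?_ ?_
    · rw [Filter.eventually_all]
      intro i
      have h1 : ∀ᶠ K in Filter.cofinite, e i < K := by
        rw [Nat.cofinite_eq_atTop]
        exact Filter.eventually_gt_atTop _
      exact Filter.hyperfilter_le_cofinite h1
    · simp only [Filter.eventually_all]
      intro i j k l hij hjk hkl
      have h1 := hg (e i) (e j) (e k) (e l)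
      rw [hquad i j k l hij hjk hkl] at h1
      exact h1
  obtain ⟨K, hK1, hK2⟩ := hev.exists
  obtain ⟨i, j, k, l, hij, hjk, hkl, hne⟩ := hF K (fun i => e i)
    (fun a b hab => e.strictMono hab) hK1 c
  exact hne (hK2 i j k l hij hjk hkl)

end P1346e8
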