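import Pool.Agent.Lib.P1346e8.Grid
import Pool.Agent.Lib.P1346e8.RamQ

/-!
# MODULE Clean: a large grid of a biclique-free relation contains all permutation matrices (about 1.5 h)

STATEMENT. For `t`, `m` there is `K`: if `P` has a `K`-grid and no `K_{t,t}` then for every permutation
`σ` of `Fin m` there are rows `x 0 < ... < x (m-1)` and columns `y i`, ordered like the `σ i`, with
`P (x i) (y j) ↔ i = j`.

PROOF. Let `N = max (t, m)`, `L = 4 N + 4` and `K` from `ramsey_quad (Bool × Bool × Bool × Bool) L`.  Let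
`(X s t, Y s t)` be the `K`-grid.  Colour a quadruple `i < j < k < l` by the truth values of
`P (X i k) (Y j l)`, `P (X j l) (Y i k)`, `P (X i l) (Y j k)`, `P (X j k) (Y i l)`; let `h` be homogeneous
(write `i` for `h i`).  First half `I = {0, ..., 2N+1}`, second half `J = {2N+2, ..., 4N+3}`.
Claim: all four values are false.  E.g. if `P (X i k) (Y j l)` for all `i < j` in `I`, `k < l` in `J`, take
rows `X i (2N+2+i)`, `i < N`, and columns `Y (N+j) (3N+2+j)`, `j < N`: the rows are different (they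
increase with the first index), the columns are different (they increase with the second index), and all
pairs are in `P`: a `K_{N,N}`, which contains `K_{t,t}`: contradiction.  The other three are similar
(`X (N+j) (3N+2+j)` with `Y i (2N+2+i)`; `X i (3N+2+i)` with `Y (N+j) (2N+2+j)`;
`X (N+j) (2N+2+j)` with `Y i (3N+2+i)`).
Now `x i := X i (2N+2+σ i)`, `y i := Y i (2N+2+σ i)` for `i < m`: `P (x i) (y i)`; for `i ≠ j` the first
indices are different and the second indices are different, so `P (x i) (y j)` is one of the four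
types, false.  `x` increases with `i`, `y i < y j` if `σ i < σ j`.
-/

set_option autoImplicit false

namespace P1346e8

namespace CleanAux

theorem core {α β : Type} [LinearOrder α] [LinearOrder β] (N : ℕ) (P : α → β → Prop)
    (X : ℕ → ℕ → α) (Y : ℕ → ℕ → β)
    (hX : ∀ i k i' k', i < i' → i' < 4 * N + 4 → k < 4 * N + 4 → k' < 4 * N + 4 → X i k < X i' k')
    (hY : ∀ i k i' k', k < k' → k' < 4 * N + 4 → i < 4 * N + 4 → i' < 4 * N + 4 → Y i k < Y i' k')
    (hno : ¬ ∃ (f : Fin N → α) (g : Fin N → β), Function.Injective f ∧ Function.Injective g ∧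
      ∀ i j, P (f i) (g j))
    (c1 c2 c3 c4 : Prop)
    (h1 : ∀ i j k l, i < j → j < k → k < l → l < 4 * N + 4 → (P (X i k) (Y j l) ↔ c1))
    (h2 : ∀ i j k l, i < j → j < k → k < l → l < 4 * N + 4 → (P (X j l) (Y i k) ↔ c2))
    (h3 : ∀ i j k l, i < j → j < k → k < l → l < 4 * N + 4 → (P (X i l) (Y j k) ↔ c3))
    (h4 : ∀ i j k l, i < j → j < k → k < l → l < 4 * N + 4 → (P (X j k) (Y i l) ↔ c4)) :
    ¬ c1 ∧ ¬ c2 ∧ ¬ c3 ∧ ¬ c4 := by
  have injX : ∀ (a : Fin N → ℕ) (b : Fin N → ℕ), (∀ i j, i < j → a i < a j) →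
      (∀ i, a i < 4 * N + 4) → (∀ i, b i < 4 * N + 4) →
      Function.Injective (fun i => X (a i) (b i)) := by
    intro a b ha ha' hb'
    have : StrictMono (fun i => X (a i) (b i)) := fun i j hij =>
      hX _ _ _ _ (ha i j hij) (ha' j) (hb' i) (hb' j)
    exact this.injective
  have injY : ∀ (a : Fin N → ℕ) (b : Fin N → ℕ), (∀ i j, i < j → b i < b j) →
      (∀ i, a i < 4 * N + 4) → (∀ i, b i < 4 * N + 4) →
      Function.Injective (fun i => Y (a i) (b i)) := by
    intro a b ha ha' hb'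
    have : StrictMono (fun i => Y (a i) (b i)) := fun i j hij =>
      hY _ _ _ _ (ha i j hij) (hb' j) (ha' i) (ha' j)
    exact this.injective
  refine ⟨fun hc => hno ?_, fun hc => hno ?_, fun hc => hno ?_, fun hc => hno ?_⟩
  · refine ⟨fun i => X i (2 * N + 2 + i), fun j => Y (N + j) (3 * N + 2 + j),
      injX _ _ ?_ ?_ ?_, injY _ _ ?_ ?_ ?_, fun i j => (h1 _ _ _ _ ?_ ?_ ?_ ?_).2 hc⟩ <;> intros <;> omega
  · refine ⟨fun j => X (N + j) (3 * N + 2 + j), fun i => Y i (2 * N + 2 + i),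
      injX _ _ ?_ ?_ ?_, injY _ _ ?_ ?_ ?_, fun j i => (h2 _ _ _ _ ?_ ?_ ?_ ?_).2 hc⟩ <;> intros <;> omega
  · refine ⟨fun i => X i (3 * N + 2 + i), fun j => Y (N + j) (2 * N + 2 + j),
      injX _ _ ?_ ?_ ?_, injY _ _ ?_ ?_ ?_, fun i j => (h3 _ _ _ _ ?_ ?_ ?_ ?_).2 hc⟩ <;> intros <;> omega
  · refine ⟨fun j => X (N + j) (2 * N + 2 + j), fun i => Y i (3 * N + 2 + i),
      injX _ _ ?_ ?_ ?_, injY _ _ ?_ ?_ ?_, fun j i => (h4 _ _ _ _ ?_ ?_ ?_ ?_).2 hc⟩ <;> intros <;> omega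

end CleanAux

theorem clean (t m : ℕ) : ∃ K : ℕ, ∀ (α β : Type) [LinearOrder α] [LinearOrder β]
    (P : α → β → Prop), Grid K P →
    (¬ ∃ (f : Fin t → α) (g : Fin t → β), Function.Injective f ∧ Function.Injective g ∧
      ∀ i j, P (f i) (g j)) →
    ∀ σ : Equiv.Perm (Fin m), ∃ (x : Fin m → α) (y : Fin m → β), StrictMono x ∧
      (∀ i j, σ i < σ j → y i < y j) ∧ ∀ i j, P (x i) (y j) ↔ i = j := by
  classical
  obtain ⟨N, hN⟩ : ∃ N, N = max t m := ⟨_, rfl⟩
  have htN : t ≤ N := hN ▸ le_max_left _ _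
  have hmN : m ≤ N := hN ▸ le_max_right _ _
  obtain ⟨K, hK⟩ := ramsey_quad (Prop × Prop × Prop × Prop) (4 * N + 4)
  refine ⟨K, ?_⟩
  intro α β _ _ P hgrid hno σ
  obtain ⟨x, y, hP, hx, hy⟩ := hgrid
  obtain ⟨h0, -, hlt0, -⟩ := hK (fun _ _ _ _ => (True, True, True, True))
  have hK0 : 0 < K := lt_of_le_of_lt (Nat.zero_le _) (hlt0 ⟨0, by omega⟩)
  let e : ℕ → Fin K := fun n => if h : n < K then ⟨n, h⟩ else ⟨0, hK0⟩
  have he : ∀ n, n < K → ((e n : Fin K) : ℕ) = n := by
    intro n hn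
    simp [e, hn]
  obtain ⟨h, hmono, hlt, ⟨c1, c2, c3, c4⟩, hc⟩ := hK (fun i j k l =>
    (P (x (e i) (e k)) (y (e j) (e l)), P (x (e j) (e l)) (y (e i) (e k)),
      P (x (e i) (e l)) (y (e j) (e k)), P (x (e j) (e k)) (y (e i) (e l))))
  let h' : ℕ → Fin K := fun n => if hn : n < 4 * N + 4 then e (h ⟨n, hn⟩) else ⟨0, hK0⟩
  have hh : ∀ n (hn : n < 4 * N + 4), h' n = e (h ⟨n, hn⟩) := by
    intro n hn
    simp [h', hn]
  have hhm : ∀ a b, a < b → b < 4 * N + 4 → h' a < h' b := by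
    intro a b hab hb
    rw [hh a (by omega), hh b hb, Fin.lt_def, he _ (hlt _), he _ (hlt _)]
    exact hmono (by simpa [Fin.lt_def] using hab)
  let X : ℕ → ℕ → α := fun i k => x (h' i) (h' k)
  let Y : ℕ → ℕ → β := fun i k => y (h' i) (h' k)
  have hX : ∀ i k i' k', i < i' → i' < 4 * N + 4 → k < 4 * N + 4 → k' < 4 * N + 4 →
      X i k < X i' k' := fun i k i' k' h1 h2 _ _ => hx _ _ _ _ (hhm _ _ h1 h2)
  have hY : ∀ i k i' k', k < k' → k' < 4 * N + 4 → i < 4 * N + 4 → i' < 4 * N + 4 →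
      Y i k < Y i' k' := fun i k i' k' h1 h2 _ _ => hy _ _ _ _ (hhm _ _ h1 h2)
  have hcol : ∀ i j k l, i < j → j < k → k < l → l < 4 * N + 4 →
      ((P (X i k) (Y j l), P (X j l) (Y i k), P (X i l) (Y j k), P (X j k) (Y i l)) :
        Prop × Prop × Prop × Prop) = (c1, c2, c3, c4) := by
    intro i j k l hij hjk hkl hl
    have := hc ⟨i, by omega⟩ ⟨j, by omega⟩ ⟨k, by omega⟩ ⟨l, hl⟩ (by simpa [Fin.lt_def] using hij)
      (by simpa [Fin.lt_def] using hjk) (by simpa [Fin.lt_def] using hkl)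
    simp only [X, Y]
    rw [hh i (by omega), hh j (by omega), hh k (by omega), hh l hl]
    exact this
  have hno' : ¬ ∃ (f : Fin N → α) (g : Fin N → β), Function.Injective f ∧ Function.Injective g ∧
      ∀ i j, P (f i) (g j) := by
    rintro ⟨f, g, hf, hg, hfg⟩
    exact hno ⟨fun i => f (Fin.castLE htN i), fun i => g (Fin.castLE htN i),
      hf.comp (Fin.castLE_injective htN), hg.comp (Fin.castLE_injective htN),
      fun i j => hfg _ _⟩
  have h1 : ∀ i j k l, i < j → j < k → k < l → l < 4 * N + 4 → (P (X i k) (Y j l) ↔ c1) :=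
    fun i j k l a b c d => iff_of_eq (Prod.ext_iff.1 (hcol i j k l a b c d)).1
  have h2 : ∀ i j k l, i < j → j < k → k < l → l < 4 * N + 4 → (P (X j l) (Y i k) ↔ c2) :=
    fun i j k l a b c d => iff_of_eq (Prod.ext_iff.1 (Prod.ext_iff.1 (hcol i j k l a b c d)).2).1
  have h3 : ∀ i j k l, i < j → j < k → k < l → l < 4 * N + 4 → (P (X i l) (Y j k) ↔ c3) :=
    fun i j k l a b c d => iff_of_eq (Prod.ext_iff.1 (Prod.ext_iff.1
      (Prod.ext_iff.1 (hcol i j k l a b c d)).2).2).1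
  have h4 : ∀ i j k l, i < j → j < k → k < l → l < 4 * N + 4 → (P (X j k) (Y i l) ↔ c4) :=
    fun i j k l a b c d => iff_of_eq (Prod.ext_iff.1 (Prod.ext_iff.1
      (Prod.ext_iff.1 (hcol i j k l a b c d)).2).2).2
  obtain ⟨n1, n2, n3, n4⟩ := CleanAux.core N P X Y hX hY hno' c1 c2 c3 c4 h1 h2 h3 h4
  refine ⟨fun i => X i (2 * N + 2 + σ i), fun i => Y i (2 * N + 2 + σ i), ?_, ?_, ?_⟩
  · intro i j hij
    have hij' : (i : ℕ) < j := hij
    exact hX _ _ _ _ hij' (by omega) (by omega) (by omega)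
  · intro i j hij
    have hij' : ((σ i : Fin m) : ℕ) < σ j := hij
    exact hY _ _ _ _ (by omega) (by omega) (by omega) (by omega)
  · intro i j
    constructor
    · intro hp
      by_contra hne
      have hv : (i : ℕ) ≠ j := fun h => hne (Fin.ext h)
      have hs : ((σ i : Fin m) : ℕ) ≠ σ j := fun h => hne (σ.injective (Fin.ext h))
      rcases lt_or_gt_of_ne hv with hij | hij <;> rcases lt_or_gt_of_ne hs with hs' | hs'
      · exact n1 ((h1 i j (2 * N + 2 + σ i) (2 * N + 2 + σ j) (by omega) (by omega) (by omega)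
          (by omega)).1 hp)
      · exact n3 ((h3 i j (2 * N + 2 + σ j) (2 * N + 2 + σ i) (by omega) (by omega) (by omega)
          (by omega)).1 hp)
      · exact n4 ((h4 j i (2 * N + 2 + σ i) (2 * N + 2 + σ j) (by omega) (by omega) (by omega)
          (by omega)).1 hp)
      · exact n2 ((h2 j i (2 * N + 2 + σ j) (2 * N + 2 + σ i) (by omega) (by omega) (by omega)
          (by omega)).1 hp)
    · rintro rfl
      exact hP _ _

end P1346e8
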