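import Mathlib

/-!
# MODULE Degen: degenerate graphs: colouring and orientation (about 1.2 h)

STATEMENT. `G` a symmetric irreflexive relation on a finite type; for every finite set `W` there are at
most `d |W|` ordered pairs of adjacent elements of `W`.  Then `G` has a proper colouring with `d + 1`
colours, and an orientation with out-degrees at most `d`.

PROOF. The sum over `v ∈ W` of the degree of `v` in `W` is the number of ordered pairs, so if `W` is
non-empty then some `v ∈ W` has at most `d` neighbours in `W` (`Finset.exists_le_of_sum_le`).  By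
induction on the finset `W` (strong induction on the cardinality: remove such a `v`): there is a
colouring proper on `W`: colour `W \ {v}`, then give `v` a colour different from those of its at most
`d` neighbours in `W`.  In the same way there is a relation `O` such that for adjacent `x, y ∈ W` exactly
one of `O x y`, `O y x` holds, `O x y` implies `G x y`, and every `x ∈ W` has at most `d` out-neighbours in
`W`: take the one for `W \ {v}` and orient the edges at `v` from `v` to the others (the out-degree of `v`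
is at most `d`, the other out-degrees do not change).  Alternatively: first show that there is an
injective `r : V → ℕ` such that every `v` has at most `d` neighbours `w` with `r w < r v`; orient from the
larger to the smaller and colour greedily.
-/

set_option autoImplicit false

namespace P1346e8

namespace DegenAux

open Classical in
theorem low {V : Type} (G : V → V → Prop) (d : ℕ)
    (h : ∀ (W : Finset V) (F : Finset (V × V)), (∀ e ∈ F, e.1 ∈ W ∧ e.2 ∈ W ∧ G e.1 e.2) →
      F.card ≤ d * W.card) (W : Finset V) (hW : W.Nonempty) :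
    ∃ v ∈ W, (W.filter (fun w => G v w)).card ≤ d := by
  by_contra hc
  push Not at hc
  have hF : ((W ×ˢ W).filter (fun e => G e.1 e.2)).card ≤ d * W.card := by
    refine h W _ ?_
    intro e he
    rw [Finset.mem_filter, Finset.mem_product] at he
    exact ⟨he.1.1, he.1.2, he.2⟩
  have hsum : ((W ×ˢ W).filter (fun e => G e.1 e.2)).card
      = ∑ v ∈ W, (W.filter (fun w => G v w)).card := by
    rw [Finset.card_filter, Finset.sum_product]
    refine Finset.sum_congr rfl ?_
    intro v _
    rw [Finset.card_filter]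
  have hlt : ∑ v ∈ W, d < ∑ v ∈ W, (W.filter (fun w => G v w)).card :=
    Finset.sum_lt_sum_of_nonempty hW hc
  rw [Finset.sum_const, smul_eq_mul, mul_comm, ← hsum] at hlt
  exact absurd hF (not_le.mpr hlt)

open Classical in
theorem color_on {V : Type} (G : V → V → Prop) (hs : ∀ x y, G x y → G y x)
    (hi : ∀ x, ¬ G x x) (d : ℕ)
    (h : ∀ (W : Finset V) (F : Finset (V × V)), (∀ e ∈ F, e.1 ∈ W ∧ e.2 ∈ W ∧ G e.1 e.2) →
      F.card ≤ d * W.card) : ∀ (n : ℕ) (W : Finset V), W.card = n →
    ∃ c : V → Fin (d + 1), ∀ x ∈ W, ∀ y ∈ W, G x y → c x ≠ c y := by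
  intro n
  induction n with
  | zero =>
    intro W hW
    rw [Finset.card_eq_zero] at hW
    subst hW
    exact ⟨fun _ => 0, fun x hx => absurd hx (Finset.notMem_empty x)⟩
  | succ n ih =>
    intro W hW
    have hne : W.Nonempty := by
      rw [← Finset.card_pos]; omega
    obtain ⟨v, hv, hd⟩ := low G d h W hne
    obtain ⟨c, hc⟩ := ih (W.erase v) (by rw [Finset.card_erase_of_mem hv]; omega)
    have hex : ∃ a : Fin (d + 1), a ∉ (W.filter (fun w => G v w)).image c := by
      by_contra hcon
      push Not at hcon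
      have h1 : (Finset.univ : Finset (Fin (d + 1))).card
          ≤ ((W.filter (fun w => G v w)).image c).card :=
        Finset.card_le_card (fun a _ => hcon a)
      have h2 := Finset.card_image_le (s := W.filter (fun w => G v w)) (f := c)
      rw [Finset.card_univ, Fintype.card_fin] at h1
      omega
    obtain ⟨a, ha⟩ := hex
    have hav : ∀ w ∈ W, G v w → c w ≠ a := by
      intro w hw hg he
      exact ha (Finset.mem_image.mpr ⟨w, Finset.mem_filter.mpr ⟨hw, hg⟩, he⟩)
    refine ⟨fun x => if x = v then a else c x, ?_⟩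
    intro x hx y hy hg
    by_cases hxv : x = v
    · by_cases hyv : y = v
      · subst hxv; subst hyv; exact absurd hg (hi _)
      · simp only [if_pos hxv, if_neg hyv]
        rw [hxv] at hg
        exact fun he => hav y hy hg he.symm
    · by_cases hyv : y = v
      · simp only [if_neg hxv, if_pos hyv]
        rw [hyv] at hg
        exact hav x hx (hs _ _ hg)
      · simp only [if_neg hxv, if_neg hyv]
        exact hc x (Finset.mem_erase.mpr ⟨hxv, hx⟩) y (Finset.mem_erase.mpr ⟨hyv, hy⟩) hg

open Classical in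
theorem orient_on {V : Type} (G : V → V → Prop) (hs : ∀ x y, G x y → G y x)
    (hi : ∀ x, ¬ G x x) (d : ℕ)
    (h : ∀ (W : Finset V) (F : Finset (V × V)), (∀ e ∈ F, e.1 ∈ W ∧ e.2 ∈ W ∧ G e.1 e.2) →
      F.card ≤ d * W.card) : ∀ (n : ℕ) (W : Finset V), W.card = n →
    ∃ O : V → V → Prop, (∀ x ∈ W, ∀ y ∈ W, G x y → O x y ∨ O y x) ∧
      (∀ x y, O x y → x ∈ W ∧ y ∈ W ∧ G x y ∧ ¬ O y x) ∧
      ∀ x, ∀ s : Finset V, (∀ y ∈ s, O x y) → s.card ≤ d := by
  intro n
  induction n with
  | zero =>
    intro W hW
    rw [Finset.card_eq_zero] at hW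
    subst hW
    refine ⟨fun _ _ => False, fun x hx => absurd hx (Finset.notMem_empty x),
      fun x y hxy => hxy.elim, ?_⟩
    intro x s hsx
    have h0 : s = ∅ := Finset.eq_empty_of_forall_notMem (fun y hy => hsx y hy)
    rw [h0]
    exact Nat.zero_le _
  | succ n ih =>
    intro W hW
    have hne : W.Nonempty := by
      rw [← Finset.card_pos]; omega
    obtain ⟨v, hv, hd⟩ := low G d h W hne
    obtain ⟨O, h1, h2, h3⟩ := ih (W.erase v) (by rw [Finset.card_erase_of_mem hv]; omega)
    refine ⟨fun x y => O x y ∨ (x = v ∧ y ∈ W ∧ G v y), ?_, ?_, ?_⟩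
    · intro x hx y hy hg
      by_cases hxv : x = v
      · exact Or.inl (Or.inr ⟨hxv, hy, hxv ▸ hg⟩)
      · by_cases hyv : y = v
        · exact Or.inr (Or.inr ⟨hyv, hx, hyv ▸ hs _ _ hg⟩)
        · rcases h1 x (Finset.mem_erase.mpr ⟨hxv, hx⟩) y (Finset.mem_erase.mpr ⟨hyv, hy⟩) hg with
            h4 | h4
          · exact Or.inl (Or.inl h4)
          · exact Or.inr (Or.inl h4)
    · intro x y hxy
      rcases hxy with hxy | ⟨hxv, hyW, hg⟩
      · obtain ⟨hx, hy, hg, hn⟩ := h2 x y hxy
        refine ⟨Finset.mem_of_mem_erase hx, Finset.mem_of_mem_erase hy, hg, ?_⟩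
        rintro (h5 | ⟨h5, -, -⟩)
        · exact hn h5
        · exact (Finset.mem_erase.mp hy).1 h5
      · subst hxv
        refine ⟨hv, hyW, hg, ?_⟩
        rintro (h5 | ⟨h5, -, -⟩)
        · exact (Finset.mem_erase.mp (h2 _ _ h5).2.1).1 rfl
        · rw [h5] at hg
          exact hi _ hg
    · intro x s hsx
      by_cases hxv : x = v
      · refine le_trans (Finset.card_le_card ?_) hd
        intro y hy
        rw [Finset.mem_filter]
        rcases hsx y hy with h5 | ⟨-, h6, h5⟩
        · exact absurd hxv (Finset.mem_erase.mp (h2 _ _ h5).1).1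
        · exact ⟨h6, h5⟩
      · refine h3 x s ?_
        intro y hy
        rcases hsx y hy with h5 | ⟨h5, -, -⟩
        · exact h5
        · exact absurd h5 hxv

end DegenAux

theorem degen_color {V : Type} [Finite V] (G : V → V → Prop) (hs : ∀ x y, G x y → G y x)
    (hi : ∀ x, ¬ G x x) (d : ℕ)
    (h : ∀ (W : Finset V) (F : Finset (V × V)), (∀ e ∈ F, e.1 ∈ W ∧ e.2 ∈ W ∧ G e.1 e.2) →
      F.card ≤ d * W.card) :
    ∃ c : V → Fin (d + 1), ∀ x y, G x y → c x ≠ c y := by
  classical
  have := Fintype.ofFinite V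
  obtain ⟨c, hc⟩ := DegenAux.color_on G hs hi d h _ (Finset.univ : Finset V) rfl
  exact ⟨c, fun x y => hc x (Finset.mem_univ x) y (Finset.mem_univ y)⟩

theorem degen_orient {V : Type} [Finite V] (G : V → V → Prop) (hs : ∀ x y, G x y → G y x)
    (hi : ∀ x, ¬ G x x) (d : ℕ)
    (h : ∀ (W : Finset V) (F : Finset (V × V)), (∀ e ∈ F, e.1 ∈ W ∧ e.2 ∈ W ∧ G e.1 e.2) →
      F.card ≤ d * W.card) :
    ∃ O : V → V → Prop, (∀ x y, G x y → O x y ∨ O y x) ∧ (∀ x y, O x y → G x y ∧ ¬ O y x) ∧
      ∀ x, ∀ s : Finset V, (∀ y ∈ s, O x y) → s.card ≤ d := by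
  classical
  have := Fintype.ofFinite V
  obtain ⟨O, h1, h2, h3⟩ := DegenAux.orient_on G hs hi d h _ (Finset.univ : Finset V) rfl
  exact ⟨O, fun x y => h1 x (Finset.mem_univ x) y (Finset.mem_univ y),
    fun x y hxy => (h2 x y hxy).2.2, h3⟩

end P1346e8
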