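import Pool.Agent.Lib.P1346e8.Frat
import Pool.Agent.Lib.P1346e8.Degen

/-!
# MODULE Star: star colouring of a relation without k-grid (about 2 h)

STATEMENT. For every `k` there is `K` such that for every relation `P` without `k`-grid between two
finite linear orders there are colourings of the rows and of the columns with `K` colours such that
every element `(x, y)` of `P` is the only one of its row with the column colour of `y`, or the only one
of its column with the row colour of `x`.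

PROOF. Let `V = α ⊕ β` and `G` the symmetric relation on `V` given by `P` (`G (inl x) (inr y) ↔ P x y`,
`G (inr y) (inl x) ↔ P x y`, the others false).  Let `c` be from `mt_general k`.  For `W ⊆ V` a set `F` of
ordered pairs of `G` in `W` has at most `2 c |W|` elements: those of the form `(inl x, inr y)` form a
subset of `P`, without `k`-grid, with at most `|W_α|` non-empty rows and `|W_β|` non-empty columns; the
same for `(inr y, inl x)`.  So `degen_orient` gives an orientation `O` with out-degrees at most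
`d = 2 c`.  Let `C` be from `frat_density k d`.  Conflict relation `H` on `V`: `u ≠ w` and
(1) `O u v`, `O v w` for some `v`, or (1') `O w v`, `O v u` for some `v`, or (2) `O v u`, `O v w` for some `v`.
For `W ⊆ V` the number of ordered pairs `(u, w)` in `W` of type (1) is at most `d ^ 2 |W|` (for each `u`
at most `d` elements `v`, for each `v` at most `d` elements `w`), the same for (1').  Type (2): `u, w` are
both in `β` and `v = inl x` (as `O ⊆ G`), or both in `α`; the number of unordered pairs in `W_β` is at most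
`C |W_β|` by `frat_density` (applied to `O (inl x) (inr y)`), and for `α` the same with the roles of
`α`, `β` exchanged (`Grid.swap`, `O (inr y) (inl x)`); so at most `2 C |W|` ordered pairs.  Altogether
`D = 2 d ^ 2 + 2 C`, and `degen_color` gives a proper colouring `κ` of `H` with `K = D + 1` colours.  Put
`c x := κ (inl x)`, `d y := κ (inr y)`.  Let `P x y`.  If `O (inl x) (inr y)`: suppose `P x y'`,
`κ (inr y') = κ (inr y)`, `y' ≠ y`.  If `O (inl x) (inr y')` then `inr y`, `inr y'` are in conflict by (2); if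
`O (inr y') (inl x)` then `O (inr y') (inl x)`, `O (inl x) (inr y)`: conflict (1): a contradiction.
If `O (inr y) (inl x)`: symmetric.
-/

set_option autoImplicit false

namespace P1346e8


namespace StarAux

/-- the symmetric relation on `α ⊕ β` -/
def GG {α β : Type} (P : α → β → Prop) : α ⊕ β → α ⊕ β → Prop
  | Sum.inl x, Sum.inr y => P x y
  | Sum.inr y, Sum.inl x => P x y
  | _, _ => False

theorem GG_symm {α β : Type} (P : α → β → Prop) (u v : α ⊕ β) (h : GG P u v) : GG P v u := by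
  rcases u with x | y <;> rcases v with x' | y' <;> exact h

theorem GG_irr {α β : Type} (P : α → β → Prop) (u : α ⊕ β) : ¬ GG P u u := by
  rcases u with x | y <;> exact fun h => h

open Classical in
theorem GG_density {k c : ℕ} (hc : ∀ (α β : Type) [LinearOrder α] [LinearOrder β]
    (P : Finset (α × β)), ¬ Grid k (fun x y => (x, y) ∈ P) →
      P.card ≤ c * ((P.image Prod.fst).card + (P.image Prod.snd).card))
    {α β : Type} [Fintype α] [Fintype β] [LinearOrder α] [LinearOrder β] (P : α → β → Prop)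
    (hP : ¬ Grid k P) (W : Finset (α ⊕ β)) (F : Finset ((α ⊕ β) × (α ⊕ β)))
    (hF : ∀ e ∈ F, e.1 ∈ W ∧ e.2 ∈ W ∧ GG P e.1 e.2) : F.card ≤ (4 * c) * W.card := by
  set P1 : Finset (α × β) := Finset.univ.filter (fun p => (Sum.inl p.1, Sum.inr p.2) ∈ F) with hP1
  set P2 : Finset (α × β) := Finset.univ.filter (fun p => (Sum.inr p.2, Sum.inl p.1) ∈ F) with hP2
  have m1 : ∀ p, p ∈ P1 ↔ (Sum.inl p.1, Sum.inr p.2) ∈ F := by
    intro p
    rw [hP1, Finset.mem_filter]
    exact ⟨fun h => h.2, fun h => ⟨Finset.mem_univ _, h⟩⟩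
  have m2 : ∀ p, p ∈ P2 ↔ (Sum.inr p.2, Sum.inl p.1) ∈ F := by
    intro p
    rw [hP2, Finset.mem_filter]
    exact ⟨fun h => h.2, fun h => ⟨Finset.mem_univ _, h⟩⟩
  have hsub : F ⊆ P1.image (fun p => (Sum.inl p.1, Sum.inr p.2)) ∪
      P2.image (fun p => (Sum.inr p.2, Sum.inl p.1)) := by
    rintro ⟨u, v⟩ he
    have hG := (hF _ he).2.2
    rcases u with x | y <;> rcases v with x' | y'
    · exact absurd hG (fun h => h)
    · refine Finset.mem_union_left _ (Finset.mem_image.2 ⟨(x, y'), (m1 _).2 he, rfl⟩)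
    · refine Finset.mem_union_right _ (Finset.mem_image.2 ⟨(x', y), (m2 _).2 he, rfl⟩)
    · exact absurd hG (fun h => h)
  have hg1 : ¬ Grid k (fun x y => (x, y) ∈ P1) := by
    intro h
    refine hP (h.mono ?_)
    intro x y hxy
    exact (hF _ ((m1 _).1 hxy)).2.2
  have hg2 : ¬ Grid k (fun x y => (x, y) ∈ P2) := by
    intro h
    refine hP (h.mono ?_)
    intro x y hxy
    exact (hF _ ((m2 _).1 hxy)).2.2
  have a1 := hc α β P1 hg1
  have a2 := hc α β P2 hg2
  have b1 : (P1.image Prod.fst).card ≤ W.card := by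
    refine Finset.card_le_card_of_injOn (fun x => (Sum.inl x : α ⊕ β)) ?_ ?_
    · intro x hx
      obtain ⟨p, hp, rfl⟩ := Finset.mem_image.1 hx
      exact (hF _ ((m1 _).1 hp)).1
    · intro x _ y _ h
      exact Sum.inl_injective h
  have b2 : (P1.image Prod.snd).card ≤ W.card := by
    refine Finset.card_le_card_of_injOn (fun x => (Sum.inr x : α ⊕ β)) ?_ ?_
    · intro x hx
      obtain ⟨p, hp, rfl⟩ := Finset.mem_image.1 hx
      exact (hF _ ((m1 _).1 hp)).2.1
    · intro x _ y _ h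
      exact Sum.inr_injective h
  have b3 : (P2.image Prod.fst).card ≤ W.card := by
    refine Finset.card_le_card_of_injOn (fun x => (Sum.inl x : α ⊕ β)) ?_ ?_
    · intro x hx
      obtain ⟨p, hp, rfl⟩ := Finset.mem_image.1 hx
      exact (hF _ ((m2 _).1 hp)).2.1
    · intro x _ y _ h
      exact Sum.inl_injective h
  have b4 : (P2.image Prod.snd).card ≤ W.card := by
    refine Finset.card_le_card_of_injOn (fun x => (Sum.inr x : α ⊕ β)) ?_ ?_
    · intro x hx
      obtain ⟨p, hp, rfl⟩ := Finset.mem_image.1 hx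
      exact (hF _ ((m2 _).1 hp)).1
    · intro x _ y _ h
      exact Sum.inr_injective h
  have c1 : P1.card ≤ c * (W.card + W.card) :=
    a1.trans (Nat.mul_le_mul_left _ (Nat.add_le_add b1 b2))
  have c2 : P2.card ≤ c * (W.card + W.card) :=
    a2.trans (Nat.mul_le_mul_left _ (Nat.add_le_add b3 b4))
  calc F.card ≤ (P1.image (fun p => ((Sum.inl p.1 : α ⊕ β), (Sum.inr p.2 : α ⊕ β))) ∪
        P2.image (fun p => ((Sum.inr p.2 : α ⊕ β), (Sum.inl p.1 : α ⊕ β)))).card :=
        Finset.card_le_card hsub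
    _ ≤ (P1.image (fun p => ((Sum.inl p.1 : α ⊕ β), (Sum.inr p.2 : α ⊕ β)))).card +
        (P2.image (fun p => ((Sum.inr p.2 : α ⊕ β), (Sum.inl p.1 : α ⊕ β)))).card :=
        Finset.card_union_le _ _
    _ ≤ P1.card + P2.card := Nat.add_le_add Finset.card_image_le Finset.card_image_le
    _ ≤ c * (W.card + W.card) + c * (W.card + W.card) := Nat.add_le_add c1 c2
    _ = (4 * c) * W.card := by ring

/-- the conflict relation -/
def HH {V : Type} (O : V → V → Prop) (u w : V) : Prop :=
  u ≠ w ∧ ((∃ v, O u v ∧ O v w) ∨ (∃ v, O w v ∧ O v u) ∨ ∃ v, O v u ∧ O v w)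

theorem HH_symm {V : Type} (O : V → V → Prop) (u w : V) (h : HH O u w) : HH O w u := by
  obtain ⟨h1, h2⟩ := h
  refine ⟨h1.symm, ?_⟩
  rcases h2 with h | h | ⟨v, h3, h4⟩
  · exact Or.inr (Or.inl h)
  · exact Or.inl h
  · exact Or.inr (Or.inr ⟨v, h4, h3⟩)

open Classical in
theorem two_step {V : Type} [Fintype V] (O : V → V → Prop) (d : ℕ)
    (hO : ∀ x, ∀ s : Finset V, (∀ y ∈ s, O x y) → s.card ≤ d) (W : Finset V)
    (F : Finset (V × V)) (hF : ∀ e ∈ F, e.1 ∈ W ∧ ∃ v, O e.1 v ∧ O v e.2) :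
    F.card ≤ (d * d) * W.card := by
  have hN : ∀ x, (Finset.univ.filter (fun y => O x y)).card ≤ d := by
    intro x
    refine hO x _ ?_
    intro y hy
    exact (Finset.mem_filter.1 hy).2
  have hsub : F ⊆ W.biUnion (fun u => ((Finset.univ.filter (fun y => O u y)).biUnion
      (fun v => Finset.univ.filter (fun y => O v y))).image (fun w => (u, w))) := by
    rintro ⟨u, w⟩ he
    obtain ⟨hu, v, h1, h2⟩ := hF _ he
    refine Finset.mem_biUnion.2 ⟨u, hu, Finset.mem_image.2 ⟨w, ?_, rfl⟩⟩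
    refine Finset.mem_biUnion.2 ⟨v, ?_, ?_⟩
    · exact Finset.mem_filter.2 ⟨Finset.mem_univ _, h1⟩
    · exact Finset.mem_filter.2 ⟨Finset.mem_univ _, h2⟩
  refine (Finset.card_le_card hsub).trans ?_
  refine (Finset.card_biUnion_le_card_mul _ _ (d * d) ?_).trans (le_of_eq (by ring))
  intro u _
  refine Finset.card_image_le.trans ?_
  refine (Finset.card_biUnion_le_card_mul _ _ d (fun v _ => hN v)).trans ?_
  exact Nat.mul_le_mul_right _ (hN u)

open Classical in
theorem two_step' {V : Type} [Fintype V] (O : V → V → Prop) (d : ℕ)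
    (hO : ∀ x, ∀ s : Finset V, (∀ y ∈ s, O x y) → s.card ≤ d) (W : Finset V)
    (F : Finset (V × V)) (hF : ∀ e ∈ F, e.2 ∈ W ∧ ∃ v, O e.2 v ∧ O v e.1) :
    F.card ≤ (d * d) * W.card := by
  have h := two_step O d hO W (F.image Prod.swap) (by
    intro e he
    obtain ⟨e', he', rfl⟩ := Finset.mem_image.1 he
    exact hF e' he')
  rwa [Finset.card_image_of_injective _ Prod.swap_injective] at h

open Classical in
theorem half {V β : Type} [Fintype β] [LinearOrder β] (i : β → V) (hi : Function.Injective i)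
    (C : ℕ) (Q : β → β → Prop) (hQs : ∀ y y', Q y y' → Q y' y)
    (hC : ∀ (W : Finset β) (F : Finset (β × β)),
      (∀ e ∈ F, e.1 ∈ W ∧ e.2 ∈ W ∧ e.1 < e.2 ∧ Q e.1 e.2) → F.card ≤ C * W.card)
    (W : Finset V) (F : Finset (V × V))
    (hF : ∀ e ∈ F, e.1 ∈ W ∧ e.2 ∈ W ∧ e.1 ≠ e.2 ∧ ∃ y y', e.1 = i y ∧ e.2 = i y' ∧ Q y y') :
    F.card ≤ (2 * C) * W.card := by
  set W' : Finset β := Finset.univ.filter (fun y => i y ∈ W) with hW'
  set F' : Finset (β × β) := Finset.univ.filter
    (fun p => p.1 ∈ W' ∧ p.2 ∈ W' ∧ p.1 < p.2 ∧ Q p.1 p.2) with hF'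
  have h1 : F'.card ≤ C * W'.card := by
    refine hC W' F' ?_
    intro e he
    exact (Finset.mem_filter.1 he).2
  have h2 : W'.card ≤ W.card := by
    refine Finset.card_le_card_of_injOn i ?_ hi.injOn
    intro y hy
    exact (Finset.mem_filter.1 hy).2
  have h3 : F ⊆ F'.image (fun p => (i p.1, i p.2)) ∪ F'.image (fun p => (i p.2, i p.1)) := by
    rintro ⟨u, w⟩ he
    obtain ⟨a1, a2, a3, y, y', b1, b2, b3⟩ := hF _ he
    have b1' : u = i y := b1
    have b2' : w = i y' := b2
    subst b1'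
    subst b2'
    have hy : y ∈ W' := Finset.mem_filter.2 ⟨Finset.mem_univ _, a1⟩
    have hy' : y' ∈ W' := Finset.mem_filter.2 ⟨Finset.mem_univ _, a2⟩
    rcases lt_trichotomy y y' with h | h | h
    · refine Finset.mem_union_left _ (Finset.mem_image.2 ⟨(y, y'), ?_, rfl⟩)
      exact Finset.mem_filter.2 ⟨Finset.mem_univ _, hy, hy', h, b3⟩
    · exact absurd (congrArg i h) a3
    · refine Finset.mem_union_right _ (Finset.mem_image.2 ⟨(y', y), ?_, rfl⟩)
      exact Finset.mem_filter.2 ⟨Finset.mem_univ _, hy', hy, h, hQs _ _ b3⟩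
  calc F.card ≤ (F'.image (fun p => (i p.1, i p.2)) ∪ F'.image (fun p => (i p.2, i p.1))).card :=
        Finset.card_le_card h3
    _ ≤ (F'.image (fun p => (i p.1, i p.2))).card + (F'.image (fun p => (i p.2, i p.1))).card :=
        Finset.card_union_le _ _
    _ ≤ F'.card + F'.card := Nat.add_le_add Finset.card_image_le Finset.card_image_le
    _ ≤ C * W.card + C * W.card := Nat.add_le_add
        (h1.trans (Nat.mul_le_mul_left _ h2)) (h1.trans (Nat.mul_le_mul_left _ h2))
    _ = (2 * C) * W.card := by ring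

open Classical in
theorem HH_density {k d C : ℕ} (hC : ∀ (α β : Type) [LinearOrder α] [LinearOrder β]
    (P O : α → β → Prop), (∀ x y, O x y → P x y) → ¬ Grid k P →
    (∀ x, ∀ s : Finset β, (∀ y ∈ s, O x y) → s.card ≤ d) →
    ∀ (W : Finset β) (F : Finset (β × β)),
      (∀ e ∈ F, e.1 ∈ W ∧ e.2 ∈ W ∧ e.1 < e.2 ∧ ∃ x, O x e.1 ∧ O x e.2) → F.card ≤ C * W.card)
    {α β : Type} [Fintype α] [Fintype β] [LinearOrder α] [LinearOrder β] (P : α → β → Prop)
    (hP : ¬ Grid k P) (O : α ⊕ β → α ⊕ β → Prop) (hOG : ∀ u v, O u v → GG P u v)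
    (hO : ∀ x, ∀ s : Finset (α ⊕ β), (∀ y ∈ s, O x y) → s.card ≤ d)
    (W : Finset (α ⊕ β)) (F : Finset ((α ⊕ β) × (α ⊕ β)))
    (hF : ∀ e ∈ F, e.1 ∈ W ∧ e.2 ∈ W ∧ HH O e.1 e.2) :
    F.card ≤ (2 * (d * d) + 4 * C) * W.card := by
  set Fa := F.filter (fun e => ∃ v, O e.1 v ∧ O v e.2) with hFa
  set Fb := F.filter (fun e => ∃ v, O e.2 v ∧ O v e.1) with hFb
  set Fc := F.filter (fun e => ∃ x : α, O (Sum.inl x) e.1 ∧ O (Sum.inl x) e.2) with hFc
  set Fd := F.filter (fun e => ∃ y : β, O (Sum.inr y) e.1 ∧ O (Sum.inr y) e.2) with hFd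
  have ha : Fa.card ≤ (d * d) * W.card := by
    refine two_step O d hO W Fa ?_
    intro e he
    obtain ⟨h1, h2⟩ := Finset.mem_filter.1 he
    exact ⟨(hF e h1).1, h2⟩
  have hb : Fb.card ≤ (d * d) * W.card := by
    refine two_step' O d hO W Fb ?_
    intro e he
    obtain ⟨h1, h2⟩ := Finset.mem_filter.1 he
    exact ⟨(hF e h1).2.1, h2⟩
  have hcc : Fc.card ≤ (2 * C) * W.card := by
    refine half (Sum.inr : β → α ⊕ β) Sum.inr_injective C
      (fun y y' => ∃ x : α, O (Sum.inl x) (Sum.inr y) ∧ O (Sum.inl x) (Sum.inr y')) ?_ ?_ W Fc ?_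
    · rintro y y' ⟨x, h1, h2⟩
      exact ⟨x, h2, h1⟩
    · refine hC α β P (fun x y => O (Sum.inl x) (Sum.inr y)) ?_ hP ?_
      · intro x y h
        exact hOG _ _ h
      · intro x s hs
        have h1 := hO (Sum.inl x) (s.image Sum.inr) (by
          intro v hv
          obtain ⟨y, hy, rfl⟩ := Finset.mem_image.1 hv
          exact hs y hy)
        rwa [Finset.card_image_of_injective _ Sum.inr_injective] at h1
    · rintro ⟨u, w⟩ he
      obtain ⟨h1, x, h2, h3⟩ := Finset.mem_filter.1 he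
      obtain ⟨g1, g2, g3, -⟩ := hF _ h1
      refine ⟨g1, g2, g3, ?_⟩
      rcases u with x' | y
      · exact absurd (hOG _ _ h2) (fun h => h)
      rcases w with x' | y'
      · exact absurd (hOG _ _ h3) (fun h => h)
      exact ⟨y, y', rfl, rfl, x, h2, h3⟩
  have hdd : Fd.card ≤ (2 * C) * W.card := by
    refine half (Sum.inl : α → α ⊕ β) Sum.inl_injective C
      (fun x x' => ∃ y : β, O (Sum.inr y) (Sum.inl x) ∧ O (Sum.inr y) (Sum.inl x')) ?_ ?_ W Fd ?_
    · rintro y y' ⟨x, h1, h2⟩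
      exact ⟨x, h2, h1⟩
    · refine hC β α (fun y x => P x y) (fun y x => O (Sum.inr y) (Sum.inl x)) ?_ ?_ ?_
      · intro y x h
        exact hOG _ _ h
      · intro h
        exact hP h.swap
      · intro y s hs
        have h1 := hO (Sum.inr y) (s.image Sum.inl) (by
          intro v hv
          obtain ⟨x, hx, rfl⟩ := Finset.mem_image.1 hv
          exact hs x hx)
        rwa [Finset.card_image_of_injective _ Sum.inl_injective] at h1
    · rintro ⟨u, w⟩ he
      obtain ⟨h1, x, h2, h3⟩ := Finset.mem_filter.1 he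
      obtain ⟨g1, g2, g3, -⟩ := hF _ h1
      refine ⟨g1, g2, g3, ?_⟩
      rcases u with x' | y
      · rcases w with x'' | y'
        · exact ⟨x', x'', rfl, rfl, x, h2, h3⟩
        · exact absurd (hOG _ _ h3) (fun h => h)
      · exact absurd (hOG _ _ h2) (fun h => h)
  have hsub : F ⊆ ((Fa ∪ Fb) ∪ (Fc ∪ Fd)) := by
    intro e he
    obtain ⟨-, -, -, h⟩ := hF e he
    rcases h with h | h | ⟨v, h1, h2⟩
    · exact Finset.mem_union_left _ (Finset.mem_union_left _ (Finset.mem_filter.2 ⟨he, h⟩))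
    · exact Finset.mem_union_left _ (Finset.mem_union_right _ (Finset.mem_filter.2 ⟨he, h⟩))
    · rcases v with x | y
      · exact Finset.mem_union_right _
          (Finset.mem_union_left _ (Finset.mem_filter.2 ⟨he, x, h1, h2⟩))
      · exact Finset.mem_union_right _
          (Finset.mem_union_right _ (Finset.mem_filter.2 ⟨he, y, h1, h2⟩))
  calc F.card ≤ ((Fa ∪ Fb) ∪ (Fc ∪ Fd)).card := Finset.card_le_card hsub
    _ ≤ (Fa ∪ Fb).card + (Fc ∪ Fd).card := Finset.card_union_le _ _
    _ ≤ (Fa.card + Fb.card) + (Fc.card + Fd.card) :=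
        Nat.add_le_add (Finset.card_union_le _ _) (Finset.card_union_le _ _)
    _ ≤ ((d * d) * W.card + (d * d) * W.card) + ((2 * C) * W.card + (2 * C) * W.card) :=
        Nat.add_le_add (Nat.add_le_add ha hb) (Nat.add_le_add hcc hdd)
    _ = (2 * (d * d) + 4 * C) * W.card := by ring

end StarAux

theorem star (k : ℕ) : ∃ K : ℕ, ∀ (α β : Type) [Finite α] [Finite β] [LinearOrder α]
    [LinearOrder β] (P : α → β → Prop), ¬ Grid k P →
    ∃ (c : α → Fin K) (d : β → Fin K), ∀ x y, P x y →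
      (∀ y', P x y' → d y' = d y → y' = y) ∨ (∀ x', P x' y → c x' = c x → x' = x) := by
  obtain ⟨c, hc⟩ := mt_general k
  obtain ⟨C, hC⟩ := frat_density k (4 * c)
  refine ⟨(2 * ((4 * c) * (4 * c)) + 4 * C) + 1, ?_⟩
  intro α β _ _ _ _ P hP
  haveI := Fintype.ofFinite α
  haveI := Fintype.ofFinite β
  obtain ⟨O, hO1, hO2, hO3⟩ := degen_orient (StarAux.GG P) (StarAux.GG_symm P)
    (StarAux.GG_irr P) (4 * c) (by
      intro W F hF
      refine StarAux.GG_density ?_ P hP W F hF
      intro α' β' i1 i2 P' hP'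
      convert hc α' β' P' hP')
  obtain ⟨κ, hκ⟩ := degen_color (StarAux.HH O) (StarAux.HH_symm O) (fun x h => h.1 rfl)
    (2 * ((4 * c) * (4 * c)) + 4 * C)
    (StarAux.HH_density hC P hP O (fun u v h => (hO2 u v h).1) hO3)
  refine ⟨fun x => κ (Sum.inl x), fun y => κ (Sum.inr y), ?_⟩
  intro x y hxy
  have hG : StarAux.GG P (Sum.inl x) (Sum.inr y) := hxy
  rcases hO1 _ _ hG with h | h
  · left
    intro y' hy' heq
    by_contra hne
    have hne' : (Sum.inr y' : α ⊕ β) ≠ Sum.inr y := fun h => hne (Sum.inr_injective h)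
    have hG' : StarAux.GG P (Sum.inl x) (Sum.inr y') := hy'
    rcases hO1 _ _ hG' with h' | h'
    · exact hκ (Sum.inr y') (Sum.inr y) ⟨hne', Or.inr (Or.inr ⟨Sum.inl x, h', h⟩)⟩ heq
    · exact hκ (Sum.inr y') (Sum.inr y) ⟨hne', Or.inl ⟨Sum.inl x, h', h⟩⟩ heq
  · right
    intro x' hx' heq
    by_contra hne
    have hne' : (Sum.inl x' : α ⊕ β) ≠ Sum.inl x := fun h => hne (Sum.inl_injective h)
    have hG' : StarAux.GG P (Sum.inl x') (Sum.inr y) := hx'
    rcases hO1 _ _ hG' with h' | h'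
    · exact hκ (Sum.inl x') (Sum.inl x) ⟨hne', Or.inl ⟨Sum.inr y, h', h⟩⟩ heq
    · exact hκ (Sum.inl x') (Sum.inl x) ⟨hne', Or.inr (Or.inr ⟨Sum.inr y, h', h⟩)⟩ heq

end P1346e8
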