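import Pool.Agent.Lib.P1346e8.Defs
import Pool.Agent.Lib.P1346e8.Star
import Pool.Agent.Lib.P1346e8.Clean

/-!
# MODULE Bridge: the combinatorial theorems for relations on subsets (about 1 h)

STATEMENTS. `star` and `clean` for a type `V` with strict linear orders `ρ` on `S` (rows) and `γ` on `T`
(columns).

PROOF. If `StrictLin S ρ` then `{x // S x}` is a linear order with `a < b ↔ ρ a.1 b.1`
(`linearOrderOfSTO` for the relation `fun a b => ρ a.1 b.1`, which is a strict total order; `classical`).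
A `GridR` is a `Grid` of the relation `fun a b => P a.1 b.1` and conversely.  `star'`: if `K` is from
`star k`, take `K + 1` colours, colour `0` (or anything) outside `S` resp. `T`.  `clean'`: `BicliqueFree`
for `P` gives it for the restriction to the subtypes (compose with `Subtype.val`).
-/

set_option autoImplicit false

namespace P1346e8

/-- A `k`-grid of `P`, rows in `S` ordered by `ρ`, columns in `T` ordered by `γ`. -/
def GridR {V : Type} (k : ℕ) (S : V → Prop) (ρ : V → V → Prop) (T : V → Prop) (γ : V → V → Prop)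
    (P : V → V → Prop) : Prop :=
  ∃ x y : Fin k → Fin k → V, (∀ s t, S (x s t) ∧ T (y s t) ∧ P (x s t) (y s t)) ∧
    (∀ s t s' t', s < s' → ρ (x s t) (x s' t')) ∧ ∀ s t s' t', t < t' → γ (y s t) (y s' t')

/-- The linear order on the subtype given by a strict linear order on `S`. -/
@[reducible] private noncomputable def BridgeAux.lo {V : Type} {S : V → Prop} {ρ : V → V → Prop}
    (h : StrictLin S ρ) : LinearOrder {x // S x} where
  le a b := a = b ∨ ρ a.1 b.1
  lt a b := ρ a.1 b.1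
  le_refl a := Or.inl rfl
  le_trans a b c := by
    rintro (rfl | h1) (rfl | h2)
    · exact Or.inl rfl
    · exact Or.inr h2
    · exact Or.inr h1
    · exact Or.inr (h.2.1 _ _ _ a.2 b.2 c.2 h1 h2)
  lt_iff_le_not_ge a b := by
    constructor
    · intro h1
      refine ⟨Or.inr h1, ?_⟩
      rintro (rfl | h2)
      · exact h.1 _ b.2 h1
      · exact h.1 _ a.2 (h.2.1 _ _ _ a.2 b.2 a.2 h1 h2)
    · rintro ⟨rfl | h1, h2⟩
      · exact absurd (Or.inl rfl) h2
      · exact h1
  le_antisymm a b := by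
    rintro (rfl | h1) (h2 | h2)
    · rfl
    · rfl
    · exact h2.symm
    · exact absurd (h.2.1 _ _ _ a.2 b.2 a.2 h1 h2) (h.1 _ a.2)
  le_total a b := by
    by_cases hab : a = b
    · exact Or.inl (Or.inl hab)
    · rcases h.2.2 _ _ a.2 b.2 (fun h' => hab (Subtype.ext h')) with h1 | h1
      · exact Or.inl (Or.inr h1)
      · exact Or.inr (Or.inr h1)
  toDecidableLE := Classical.decRel _

private theorem BridgeAux.gridR_of {V : Type} {k : ℕ} {S : V → Prop} {ρ : V → V → Prop}
    {T : V → Prop} {γ : V → V → Prop} {P : V → V → Prop} (hS : StrictLin S ρ) (hT : StrictLin T γ)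
    (h : @Grid {x // S x} {x // T x} (BridgeAux.lo hS) (BridgeAux.lo hT) k
      (fun a b => P a.1 b.1)) : GridR k S ρ T γ P := by
  obtain ⟨x, y, h1, h2, h3⟩ := h
  exact ⟨fun s t => (x s t).1, fun s t => (y s t).1,
    fun s t => ⟨(x s t).2, (y s t).2, h1 s t⟩, fun s t s' t' h => h2 s t s' t' h,
    fun s t s' t' h => h3 s t s' t' h⟩

private theorem BridgeAux.grid_of {V : Type} {k : ℕ} {S : V → Prop} {ρ : V → V → Prop}
    {T : V → Prop} {γ : V → V → Prop} {P : V → V → Prop} (hS : StrictLin S ρ) (hT : StrictLin T γ)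
    (h : GridR k S ρ T γ P) : @Grid {x // S x} {x // T x} (BridgeAux.lo hS) (BridgeAux.lo hT) k
      (fun a b => P a.1 b.1) := by
  obtain ⟨x, y, h1, h2, h3⟩ := h
  exact ⟨fun s t => ⟨x s t, (h1 s t).1⟩, fun s t => ⟨y s t, (h1 s t).2.1⟩,
    fun s t => (h1 s t).2.2, fun s t s' t' h => h2 s t s' t' h,
    fun s t s' t' h => h3 s t s' t' h⟩

theorem GridR.le {V : Type} {k l : ℕ} {S : V → Prop} {ρ : V → V → Prop} {T : V → Prop}
    {γ : V → V → Prop} {P : V → V → Prop} (h : GridR l S ρ T γ P) (hkl : k ≤ l) :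
    GridR k S ρ T γ P := by
  obtain ⟨x, y, h1, h2, h3⟩ := h
  refine ⟨fun s t => x (Fin.castLE hkl s) (Fin.castLE hkl t),
    fun s t => y (Fin.castLE hkl s) (Fin.castLE hkl t), fun s t => h1 _ _, ?_, ?_⟩
  · intro s t s' t' h
    exact h2 _ _ _ _ h
  · intro s t s' t' h
    exact h3 _ _ _ _ h

theorem star' (k : ℕ) : ∃ K : ℕ, ∀ (V : Type) [Finite V] (S T : V → Prop) (ρ γ P : V → V → Prop),
    StrictLin S ρ → StrictLin T γ → ¬ GridR k S ρ T γ P →
    ∃ c d : V → Fin K, ∀ x y, S x → T y → P x y →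
      (∀ y', T y' → P x y' → d y' = d y → y' = y) ∨ (∀ x', S x' → P x' y → c x' = c x → x' = x) := by
  classical
  obtain ⟨K, hK⟩ := star k
  refine ⟨K + 1, ?_⟩
  intro V _ S T ρ γ P hS hT hG
  let _ : LinearOrder {x // S x} := BridgeAux.lo hS
  let _ : LinearOrder {x // T x} := BridgeAux.lo hT
  obtain ⟨c, d, hcd⟩ := hK {x // S x} {x // T x} (fun a b => P a.1 b.1)
    (fun h => hG (BridgeAux.gridR_of hS hT h))
  refine ⟨fun v => if h : S v then (c ⟨v, h⟩).castSucc else Fin.last K,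
    fun v => if h : T v then (d ⟨v, h⟩).castSucc else Fin.last K, ?_⟩
  intro x y hx hy hxy
  rcases hcd ⟨x, hx⟩ ⟨y, hy⟩ hxy with h | h
  · left
    intro y' hy' hxy' hd
    simp only [dif_pos hy', dif_pos hy] at hd
    exact congrArg Subtype.val (h ⟨y', hy'⟩ hxy' (Fin.castSucc_injective _ hd))
  · right
    intro x' hx' hxy' hd
    simp only [dif_pos hx', dif_pos hx] at hd
    exact congrArg Subtype.val (h ⟨x', hx'⟩ hxy' (Fin.castSucc_injective _ hd))

theorem clean' (t m : ℕ) : ∃ K : ℕ, ∀ (V : Type) (S T : V → Prop) (ρ γ P : V → V → Prop),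
    StrictLin S ρ → StrictLin T γ → GridR K S ρ T γ P → BicliqueFree t P →
    ∀ σ : Equiv.Perm (Fin m), ∃ x y : Fin m → V, (∀ i, S (x i) ∧ T (y i)) ∧
      (∀ i j, i < j → ρ (x i) (x j)) ∧ (∀ i j, σ i < σ j → γ (y i) (y j)) ∧
      ∀ i j, P (x i) (y j) ↔ i = j := by
  classical
  obtain ⟨K, hK⟩ := clean t m
  refine ⟨K, ?_⟩
  intro V S T ρ γ P hS hT hG hP σ
  let _ : LinearOrder {x // S x} := BridgeAux.lo hS
  let _ : LinearOrder {x // T x} := BridgeAux.lo hT
  obtain ⟨x, y, h1, h2, h3⟩ := hK {x // S x} {x // T x} (fun a b => P a.1 b.1)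
    (BridgeAux.grid_of hS hT hG) (by
      rintro ⟨f, g, hf, hg, hfg⟩
      exact hP ⟨fun i => (f i).1, fun i => (g i).1, Subtype.val_injective.comp hf,
        Subtype.val_injective.comp hg, hfg⟩) σ
  exact ⟨fun i => (x i).1, fun i => (y i).1, fun i => ⟨(x i).2, (y i).2⟩,
    fun i j hij => h1 hij, fun i j hij => h2 i j hij, h3⟩

end P1346e8
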