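import Pool.Agent.Lib.P1346e8.Enc

/-!
# MODULE Dec: decoding (about 1.5 h)

STATEMENT. In the family `encFam` of encodings (with unary predicates for the kinds and for `U`), the
range of `base`, and the relations `lt`, `f j`, `S l`, `lam l` on the base elements, are uniformly
definable.

PROOF.  `x` is a base element iff it has kind `none`.  `lt v w` iff `base v <₁ base w`.  For an element
`z` of the encoding: the base element `(v, none)` of `z = (v, c)` is the last element `x` of kind `none`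
with `x <₁ z` or `x = z`: call this `B1 z x`:
`kind x = none ∧ (x = z ∨ x <₁ z) ∧ ∀ x', kind x' = none → ¬ (x <₁ x' ∧ x' <₁ z)` (if `z` itself is not of
kind none).  Indeed `(x', none)` with `v < x'` is above `(v, c)` in `<₁`.  Similarly for `z = (v, inl j)`
the base element of `f j v` is the last element `y` of kind `none` with `y <₂ z`: call it `B2 z y`:
`kind y = none ∧ y <₂ z ∧ ∀ y', kind y' = none → ¬ (y <₂ y' ∧ y' <₂ z)`.  So
`f j v w` iff there is `z` of kind `inl j` with `B1 z (base v)` and `B2 z (base w)`.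
`S l v` iff there is `z` of kind `inr l` with `B1 z (base v)`.
`lam l v w` (for `v, w ∈ S l`) iff there are `z, z'` of kind `inr l` with `B1 z (base v)`,
`B1 z' (base w)` and `z <₂ z'`.
Definability: `Fam.Def.ex`, `Fam.Def.all`, `Fam.Def.un`, `Fam.Def.bin`, `Fam.Def.eq`.
Here `<₁` is `(encFam A U D).R i 0` and `<₂` is `(encFam A U D).R i 1`; the kind predicates are
`(encFam A U D).U i (Sum.inl c)`.
-/

set_option autoImplicit false

namespace P1346e8

universe u


variable {ι : Type u} {υ : Type} {p q : ℕ} (A : ι → Str)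
  (U : (i : ι) → υ → (A i).V → Prop) (D : (i : ι) → FDat (A i).V p q)

namespace DecAux

def B1 (i : ι) (z x : ((D i).str (A i).fin).V) : Prop :=
  (D i).lt1 x.1 z.1 ∧ ∀ x' : ((D i).str (A i).fin).V, x'.1.2 = none →
    ¬ ((D i).lt1 x.1 x'.1 ∧ (D i).lt1 x'.1 z.1)

def B2 (i : ι) (z y : ((D i).str (A i).fin).V) : Prop :=
  (D i).lt2 y.1 z.1 ∧ ∀ y' : ((D i).str (A i).fin).V, y'.1.2 = none →
    ¬ ((D i).lt2 y.1 y'.1 ∧ (D i).lt2 y'.1 z.1)

theorem B1_def : (encFam A U D).Def2 (B1 A D) := by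
  refine Fam.Def.and (F := encFam A U D) (n := 2)
    (Q := fun i v => (D i).lt1 (v 1).1 (v 0).1)
    (Q' := fun i v => ∀ x' : ((D i).str (A i).fin).V, x'.1.2 = none →
      ¬ ((D i).lt1 (v 1).1 x'.1 ∧ (D i).lt1 x'.1 (v 0).1))
    (Fam.Def.bin (encFam A U D) 0 1 0) ?_
  refine Fam.Def.all (F := encFam A U D) (n := 2)
    (Q := fun i v x' => x'.1.2 = none →
      ¬ ((D i).lt1 (v 1).1 x'.1 ∧ (D i).lt1 x'.1 (v 0).1)) ?_
  exact Fam.Def.imp (Fam.Def.un (encFam A U D) (Sum.inl none) (Fin.last 2))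
    (Fam.Def.not (Fam.Def.and (Fam.Def.bin (encFam A U D) 0 (1 : Fin 2).castSucc (Fin.last 2))
      (Fam.Def.bin (encFam A U D) 0 (Fin.last 2) (0 : Fin 2).castSucc)))

theorem B2_def : (encFam A U D).Def2 (B2 A D) := by
  refine Fam.Def.and (F := encFam A U D) (n := 2)
    (Q := fun i v => (D i).lt2 (v 1).1 (v 0).1)
    (Q' := fun i v => ∀ x' : ((D i).str (A i).fin).V, x'.1.2 = none →
      ¬ ((D i).lt2 (v 1).1 x'.1 ∧ (D i).lt2 x'.1 (v 0).1))
    (Fam.Def.bin (encFam A U D) 1 1 0) ?_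
  refine Fam.Def.all (F := encFam A U D) (n := 2)
    (Q := fun i v x' => x'.1.2 = none →
      ¬ ((D i).lt2 (v 1).1 x'.1 ∧ (D i).lt2 x'.1 (v 0).1)) ?_
  exact Fam.Def.imp (Fam.Def.un (encFam A U D) (Sum.inl none) (Fin.last 2))
    (Fam.Def.not (Fam.Def.and (Fam.Def.bin (encFam A U D) 1 (1 : Fin 2).castSucc (Fin.last 2))
      (Fam.Def.bin (encFam A U D) 1 (Fin.last 2) (0 : Fin 2).castSucc)))

variable {A} {D}

theorem B1_iff (hD : ∀ i, (D i).Good) (i : ι) (z : ((D i).str (A i).fin).V)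
    (hz : z.1.2 ≠ none) (x : (A i).V) :
    B1 A D i z ((D i).base (A i).fin x) ↔ x = z.1.1 := by
  obtain ⟨⟨z1, z2⟩, hzd⟩ := z
  cases z2 with
  | none => exact absurd rfl hz
  | some c =>
    constructor
    · rintro ⟨h1, h2⟩
      have h1' : (D i).lt x z1 ∨ (x = z1 ∧ True) := h1
      rcases h1' with h | h
      · exact (h2 ((D i).base (A i).fin z1) rfl ⟨Or.inl h, Or.inr ⟨rfl, trivial⟩⟩).elim
      · exact h.1
    · intro hx
      have hx' : x = z1 := hx
      subst hx'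
      refine ⟨Or.inr ⟨rfl, trivial⟩, ?_⟩
      rintro ⟨⟨u1, u2⟩, hu⟩ hk ⟨ha, hb⟩
      have hk' : u2 = none := hk
      subst hk'
      have ha' : (D i).lt x u1 ∨ (x = u1 ∧ False) := ha
      have hb' : (D i).lt u1 x ∨ (u1 = x ∧ True) := hb
      have hirr := (hD i).lt.1
      have htr := (hD i).lt.2.1
      rcases ha' with ha | ha
      · rcases hb' with hb | hb
        · exact hirr x trivial (htr x u1 x trivial trivial trivial ha hb)
        · rw [hb.1] at ha
          exact hirr x trivial ha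
      · exact ha.2

theorem B2_iff (hD : ∀ i, (D i).Good) (i : ι) (z : ((D i).str (A i).fin).V) (j : Fin p)
    (hz : z.1.2 = some (.inl j)) (y : (A i).V) :
    B2 A D i z ((D i).base (A i).fin y) ↔ (D i).f j z.1.1 y := by
  obtain ⟨⟨z1, z2⟩, hzd⟩ := z
  have hz' : z2 = some (.inl j) := hz
  subst hz'
  constructor
  · rintro ⟨h1, h2⟩
    have h1' : ∃ b, (D i).f j z1 b ∧ ((D i).lt y b ∨ y = b) := h1
    obtain ⟨b, hb, h | h⟩ := h1'
    · exact (h2 ((D i).base (A i).fin b) rfl ⟨h, b, hb, Or.inr rfl⟩).elim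
    · show (D i).f j z1 y
      rw [h]
      exact hb
  · intro hf
    have hf' : (D i).f j z1 y := hf
    refine ⟨⟨y, hf', Or.inr rfl⟩, ?_⟩
    rintro ⟨⟨u1, u2⟩, hu⟩ hk ⟨ha, hb⟩
    have hk' : u2 = none := hk
    subst hk'
    have ha' : (D i).lt y u1 := ha
    have hb' : ∃ b, (D i).f j z1 b ∧ ((D i).lt u1 b ∨ u1 = b) := hb
    obtain ⟨b, hb, h⟩ := hb'
    have hby : b = y := (hD i).f j z1 b y hb hf'
    subst hby
    have hirr := (hD i).lt.1
    have htr := (hD i).lt.2.1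
    rcases h with h | h
    · exact hirr b trivial (htr b u1 b trivial trivial trivial ha' h)
    · rw [h] at ha'
      exact hirr b trivial ha'

end DecAux

open DecAux

theorem dec_base : (encFam A U D).Def1 (fun i x => ∃ v, (D i).base (A i).fin v = x) := by
  refine (Fam.Def.un (encFam A U D) (Sum.inl none) (0 : Fin 1)).congr fun i v => ?_
  constructor
  · rintro ⟨w, hw⟩
    show (v 0).1.2 = none
    rw [← hw]
    rfl
  · intro h
    have h' : (v 0).1.2 = none := h
    refine ⟨(v 0).1.1, Subtype.ext (Prod.ext rfl h'.symm)⟩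

theorem dec_lt : ∃ Q : (i : ι) → ((D i).str (A i).fin).V → ((D i).str (A i).fin).V → Prop,
    (encFam A U D).Def2 Q ∧
      ∀ i x y, Q i ((D i).base (A i).fin x) ((D i).base (A i).fin y) ↔ (D i).lt x y := by
  refine ⟨fun i x y => (D i).lt1 x.1 y.1, Fam.Def.bin (encFam A U D) 0 0 1, fun i x y => ?_⟩
  show (D i).lt x y ∨ (x = y ∧ False) ↔ (D i).lt x y
  simp

theorem dec_f (hD : ∀ i, (D i).Good) (j : Fin p) :
    ∃ Q : (i : ι) → ((D i).str (A i).fin).V → ((D i).str (A i).fin).V → Prop,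
    (encFam A U D).Def2 Q ∧
      ∀ i x y, Q i ((D i).base (A i).fin x) ((D i).base (A i).fin y) ↔ (D i).f j x y := by
  refine ⟨fun i x y => ∃ z : ((D i).str (A i).fin).V, z.1.2 = some (.inl j) ∧
    (B1 A D i z x ∧ B2 A D i z y), ?_, fun i x y => ?_⟩
  · refine Fam.Def.ex (F := encFam A U D) (n := 2)
      (Q := fun i v z => z.1.2 = some (.inl j) ∧ (B1 A D i z (v 0) ∧ B2 A D i z (v 1))) ?_
    exact Fam.Def.and (Fam.Def.un (encFam A U D) (Sum.inl (some (.inl j))) (Fin.last 2))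
      (Fam.Def.and (Fam.Def2.at (B1_def A U D) (Fin.last 2) (0 : Fin 2).castSucc)
        (Fam.Def2.at (B2_def A U D) (Fin.last 2) (1 : Fin 2).castSucc))
  · constructor
    · rintro ⟨z, hz, h1, h2⟩
      have e1 := (B1_iff hD i z (by rw [hz]; simp) x).1 h1
      have e2 := (B2_iff hD i z j hz y).1 h2
      rw [e1]
      exact e2
    · intro hf
      exact ⟨⟨(x, some (.inl j)), ⟨y, hf⟩⟩, rfl, (B1_iff hD i _ (by simp) x).2 rfl,
        (B2_iff hD i _ j rfl y).2 hf⟩

theorem dec_S (hD : ∀ i, (D i).Good) (l : Fin q) :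
    ∃ Q : (i : ι) → ((D i).str (A i).fin).V → Prop,
    (encFam A U D).Def1 Q ∧
      ∀ i x, Q i ((D i).base (A i).fin x) ↔ (D i).S l x := by
  refine ⟨fun i x => ∃ z : ((D i).str (A i).fin).V, z.1.2 = some (.inr l) ∧ B1 A D i z x, ?_,
    fun i x => ?_⟩
  · refine Fam.Def.ex (F := encFam A U D) (n := 1)
      (Q := fun i v z => z.1.2 = some (.inr l) ∧ B1 A D i z (v 0)) ?_
    exact Fam.Def.and (Fam.Def.un (encFam A U D) (Sum.inl (some (.inr l))) (Fin.last 1))
      (Fam.Def2.at (B1_def A U D) (Fin.last 1) (0 : Fin 1).castSucc)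
  · constructor
    · rintro ⟨z, hz, h1⟩
      have e1 := (B1_iff hD i z (by rw [hz]; simp) x).1 h1
      obtain ⟨⟨z1, z2⟩, hzd⟩ := z
      have hz' : z2 = some (.inr l) := hz
      subst hz'
      rw [e1]
      exact hzd
    · intro hS
      exact ⟨⟨(x, some (.inr l)), hS⟩, rfl, (B1_iff hD i _ (by simp) x).2 rfl⟩

theorem dec_lam (hD : ∀ i, (D i).Good) (l : Fin q) :
    ∃ Q : (i : ι) → ((D i).str (A i).fin).V → ((D i).str (A i).fin).V → Prop,
    (encFam A U D).Def2 Q ∧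
      ∀ i x y, Q i ((D i).base (A i).fin x) ((D i).base (A i).fin y) ↔
        ((D i).S l x ∧ (D i).S l y ∧ (D i).lam l x y) := by
  refine ⟨fun i x y => ∃ z z' : ((D i).str (A i).fin).V, (z.1.2 = some (.inr l) ∧
    z'.1.2 = some (.inr l)) ∧ (B1 A D i z x ∧ B1 A D i z' y) ∧ (D i).lt2 z.1 z'.1, ?_,
    fun i x y => ?_⟩
  · refine Fam.Def.ex (F := encFam A U D) (n := 2)
      (Q := fun i v z => ∃ z' : ((D i).str (A i).fin).V, (z.1.2 = some (.inr l) ∧
        z'.1.2 = some (.inr l)) ∧ (B1 A D i z (v 0) ∧ B1 A D i z' (v 1)) ∧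
          (D i).lt2 z.1 z'.1) ?_
    refine Fam.Def.ex (F := encFam A U D) (n := 3)
      (Q := fun i v z' => ((v (Fin.last 2)).1.2 = some (.inr l) ∧
        z'.1.2 = some (.inr l)) ∧ (B1 A D i (v (Fin.last 2)) (v (0 : Fin 2).castSucc) ∧
          B1 A D i z' (v (1 : Fin 2).castSucc)) ∧
          (D i).lt2 (v (Fin.last 2)).1 z'.1) ?_
    exact Fam.Def.and (Fam.Def.and
      (Fam.Def.un (encFam A U D) (Sum.inl (some (.inr l))) (Fin.last 2).castSucc)
      (Fam.Def.un (encFam A U D) (Sum.inl (some (.inr l))) (Fin.last 3)))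
      (Fam.Def.and (Fam.Def.and
        (Fam.Def2.at (B1_def A U D) (Fin.last 2).castSucc (0 : Fin 2).castSucc.castSucc)
        (Fam.Def2.at (B1_def A U D) (Fin.last 3) (1 : Fin 2).castSucc.castSucc))
        (Fam.Def.bin (encFam A U D) 1 (Fin.last 2).castSucc (Fin.last 3)))
  · constructor
    · rintro ⟨z, z', ⟨hz, hz'⟩, ⟨h1, h2⟩, h3⟩
      have e1 := (B1_iff hD i z (by rw [hz]; simp) x).1 h1
      have e2 := (B1_iff hD i z' (by rw [hz']; simp) y).1 h2
      obtain ⟨⟨z1, z2⟩, hzd⟩ := z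
      obtain ⟨⟨w1, w2⟩, hwd⟩ := z'
      have hz1 : z2 = some (.inr l) := hz
      have hz2 : w2 = some (.inr l) := hz'
      subst hz1
      subst hz2
      have e1' : x = z1 := e1
      have e2' : y = w1 := e2
      subst e1'
      subst e2'
      have h3' : l < l ∨ (l = l ∧ (D i).lam l x y) := h3
      refine ⟨hzd, hwd, ?_⟩
      rcases h3' with h | h
      · exact absurd h (lt_irrefl l)
      · exact h.2
    · rintro ⟨hx, hy, hl⟩
      exact ⟨⟨(x, some (.inr l)), hx⟩, ⟨(y, some (.inr l)), hy⟩, ⟨rfl, rfl⟩,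
        ⟨(B1_iff hD i _ (by simp) x).2 rfl, (B1_iff hD i _ (by simp) y).2 rfl⟩,
        Or.inr ⟨rfl, hl⟩⟩

end P1346e8
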