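import Pool.Agent.Lib.P1346e8.Enc

/-!
# The encoding is definable in the copies

If `lt`, `f j`, `S l`, `lam l` are uniformly definable in the structures `A i` with unary
predicates `U i`, then the domain and the two orders of the encoding are uniformly definable in the
family of copies indexed by `Kind p q` (with unary predicates `W i` that contain the lifts of `U i`).
-/

set_option autoImplicit false

namespace P1346e8

universe u

variable {ι : Type u} {υ₀ υ : Type} {p q : ℕ} (A : ι → Str)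
  (U : (i : ι) → υ₀ → (A i).V → Prop) (D : (i : ι) → FDat (A i).V p q)
  (W : (i : ι) → υ → (A i).V × Kind p q → Prop) (e : υ₀ → υ)

namespace EncDefAux

theorem case1 (he : ∀ i u x, W i (e u) x ↔ U i u x.1)
    (Q : Kind p q → (i : ι) → (A i).V → Prop) (h : ∀ c, (baseFam A U).Def1 (Q c)) :
    (copyFam A (Kind p q) W).Def1 (fun i x => Q x.2 i x.1) := by
  have h1 : (copyFam A (Kind p q) W).Def (n := 1) (fun i v => ∃ c : Kind p q,
      (copyFam A (Kind p q) W).U i (Sum.inl c) (v 0) ∧ Q c i (v 0).1) := by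
    refine Fam.Def.exFin (by norm_num) fun c => ?_
    exact Fam.Def.and (Fam.Def.un _ _ _) (lift1 A U W e he (h c))
  refine h1.congr fun i v => ?_
  constructor
  · intro hq
    exact ⟨(v 0).2, rfl, hq⟩
  · rintro ⟨c, hc, hq⟩
    have hc' : (v 0).2 = c := hc
    show Q (v 0).2 i (v 0).1
    rw [hc']
    exact hq

theorem case2 (he : ∀ i u x, W i (e u) x ↔ U i u x.1)
    (Q : Kind p q → Kind p q → (i : ι) → (A i).V → (A i).V → Prop)
    (h : ∀ c d, (baseFam A U).Def2 (Q c d)) :
    (copyFam A (Kind p q) W).Def2 (fun i x y => Q x.2 y.2 i x.1 y.1) := by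
  have h1 : (copyFam A (Kind p q) W).Def (n := 2) (fun i v => ∃ c : Kind p q, ∃ d : Kind p q,
      ((copyFam A (Kind p q) W).U i (Sum.inl c) (v 0) ∧
        (copyFam A (Kind p q) W).U i (Sum.inl d) (v 1)) ∧ Q c d i (v 0).1 (v 1).1) := by
    refine Fam.Def.exFin (by norm_num) fun c => Fam.Def.exFin (by norm_num) fun d => ?_
    exact Fam.Def.and (Fam.Def.and (Fam.Def.un _ _ _) (Fam.Def.un _ _ _))
      (lift2 A U W e he (h c d))
  refine h1.congr fun i v => ?_
  constructor
  · intro hq
    exact ⟨(v 0).2, (v 1).2, ⟨rfl, rfl⟩, hq⟩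
  · rintro ⟨c, d, ⟨hc, hd⟩, hq⟩
    have hc' : (v 0).2 = c := hc
    have hd' : (v 1).2 = d := hd
    show Q (v 0).2 (v 1).2 i (v 0).1 (v 1).1
    rw [hc', hd']
    exact hq

end EncDefAux

open EncDefAux

theorem encDef_dom (he : ∀ i u x, W i (e u) x ↔ U i u x.1)
    (hf : ∀ j, (baseFam A U).Def2 (fun i => (D i).f j))
    (hS : ∀ l, (baseFam A U).Def1 (fun i => (D i).S l)) :
    (copyFam A (Kind p q) W).Def1 (fun i x => (D i).dom x) := by
  have h := case1 A U W e he (fun c i v => (D i).dom (v, c)) (by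
    intro c
    rcases c with _ | j | l
    · exact Fam.Def.const _ True (by norm_num)
    · exact Fam.Def.ex (F := baseFam A U) (n := 1)
        (Q := fun i (v : Fin 1 → (A i).V) (w : (A i).V) => (D i).f j (v 0) w)
        (Fam.Def2.at (F := baseFam A U) (hf j) (Fin.castSucc 0) (Fin.last 1))
    · exact hS l)
  exact h

theorem encDef_lt1 (he : ∀ i u x, W i (e u) x ↔ U i u x.1)
    (hlt : (baseFam A U).Def2 (fun i => (D i).lt)) :
    (copyFam A (Kind p q) W).Def2 (fun i x y => (D i).lt1 x y) := by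
  have h := case2 A U W e he (fun c d i v w => (D i).lt v w ∨ (v = w ∧ kindLt c d)) (by
    intro c d
    exact Fam.Def.or hlt (Fam.Def.and (Fam.Def.eq _ 0 1) (Fam.Def.const _ _ (by norm_num))))
  exact h

theorem encDef_lt2 (he : ∀ i u x, W i (e u) x ↔ U i u x.1)
    (hlt : (baseFam A U).Def2 (fun i => (D i).lt))
    (hf : ∀ j, (baseFam A U).Def2 (fun i => (D i).f j))
    (hl : ∀ l, (baseFam A U).Def2 (fun i => (D i).lam l)) :
    (copyFam A (Kind p q) W).Def2 (fun i x y => (D i).lt2 x y) := by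
  have h := case2 A U W e he (fun c d i v w => (D i).lt2k c d v w) (by
    intro c d
    rcases c with _ | j | l <;> rcases d with _ | j' | l'
    · exact hlt
    · refine Fam.Def.ex (F := baseFam A U) (n := 2)
        (Q := fun i (v : Fin 2 → (A i).V) (b : (A i).V) =>
          (D i).f j' (v 1) b ∧ ((D i).lt (v 0) b ∨ (v 0) = b)) ?_
      exact Fam.Def.and (Fam.Def2.at (hf j') _ _) (Fam.Def.or (Fam.Def2.at hlt _ _)
        (Fam.Def.eq _ _ _))
    · exact Fam.Def.const _ True (by norm_num)
    · refine Fam.Def.ex (F := baseFam A U) (n := 2)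
        (Q := fun i (v : Fin 2 → (A i).V) (a : (A i).V) =>
          (D i).f j (v 0) a ∧ (D i).lt a (v 1)) ?_
      exact Fam.Def.and (Fam.Def2.at (hf j) _ _) (Fam.Def2.at hlt _ _)
    · refine Fam.Def.ex (F := baseFam A U) (n := 2)
        (Q := fun i (v : Fin 2 → (A i).V) (a : (A i).V) =>
          (D i).f j (v 0) a ∧ ∃ b, (D i).f j' (v 1) b ∧
          ((D i).lt a b ∨ (a = b ∧ (j < j' ∨ (j = j' ∧ (D i).lt (v 0) (v 1)))))) ?_
      refine Fam.Def.and (Fam.Def2.at (hf j) _ _) ?_
      refine Fam.Def.ex (F := baseFam A U) (n := 3)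
        (Q := fun i (v : Fin 3 → (A i).V) (b : (A i).V) =>
          (D i).f j' (v (1 : Fin 2).castSucc) b ∧
        ((D i).lt (v (Fin.last 2)) b ∨ (v (Fin.last 2) = b ∧ (j < j' ∨ (j = j' ∧
          (D i).lt (v (0 : Fin 2).castSucc) (v (1 : Fin 2).castSucc)))))) ?_
      refine Fam.Def.and (Fam.Def2.at (hf j') _ _) (Fam.Def.or (Fam.Def2.at hlt _ _)
        (Fam.Def.and (Fam.Def.eq _ _ _) (Fam.Def.or (Fam.Def.const _ _ (by norm_num))
          (Fam.Def.and (Fam.Def.const _ _ (by norm_num)) (Fam.Def2.at hlt _ _)))))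
    · exact Fam.Def.const _ True (by norm_num)
    · exact Fam.Def.const _ False (by norm_num)
    · exact Fam.Def.const _ False (by norm_num)
    · exact Fam.Def.or (Fam.Def.const _ _ (by norm_num))
        (Fam.Def.and (Fam.Def.const _ _ (by norm_num)) (hl l)))
  exact h

end P1346e8
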