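import Pool.Agent.Lib.P1346e8.EncPerm
import Pool.Agent.Lib.P1346e8.EncDef
import Pool.Agent.Lib.P1346e8.Dec

/-!
# MODULE Principle: classes definable from definable functions and orders (about 1.5 h)

STATEMENT. A class `C` of ordered graphs with definable partial functions `f j` and linear orders
`lam l` on definable sets `S l`, such that the adjacency relation is definable from `lt`, `f j`, `lam l`,
`S l` and the unary predicates `U`, is transduction equivalent to a permutation class.

PROOF. Let `E i := (D i).str i.1.fin` be the encoding of the member `i` of `C`, and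
`P := {B | ∃ i : C, B.Embeds (E i)}`.
* `P` is a permutation class: `FDat.str_isPerm` (the `D i` are good by `hlt`, `hC`, `hf`, `hlam`), an
  embedded structure of a permutation is a permutation (pull back the strict linear orders along an
  injective map), and embeddings compose.
* `C` is a transduction of `P`: `trans_of_def` with `ι := C`, `A i := E i`, `B i := i.1`, `κ := Unit`,
  `υ := Kind p q ⊕ υ`, `W i b x :=` the unary predicate `(encFam ..).U i b x.1`,
  `f i v := ((D i).base _ v, ())`.  The range is definable by `dec_base` and `lift1` (with `e := id`; note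
  that `encFam` is by definition a `baseFam`).  Relation `1`: `dec_lt` with `hlt` and `lift2`.
  Relation `0`: by `Fam.interp` from `fdFam` to `encFam` with `g i := (D i).base _` (basic relations:
  `dec_lt`, `dec_f`, `dec_lam`; unary: the predicate `inr b` of `encFam` for `inl b`, and `dec_S`), applied
  to `hE`, we get a relation `Q'` of `encFam` with `Q' (base x) (base y) ↔ r 0 x y`; then `lift2`.
* `P` is a transduction of `C`: for `B ∈ P` choose `i = s B : C` and an embedding `h B` of `B` in `E i`.
  `trans_of_def` with `ι := P` (the subtype), `A B := (s B).1`, `B B := B.1`, `κ := Kind p q`,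
  `υ := υ ⊕ Unit`, `W B (inl u) x := U (s B) u x.1`, `W B (inr ()) x := x` is in the range of `f B`,
  `f B b := (h B b).1`.  The range is the unary symbol `inr (inr ())`; relation `0`: `encDef_lt1`,
  relation `1`: `encDef_lt2` for the families reindexed by `s` (definability is preserved by
  reindexing: the same formula; write a small lemma), with `e := Sum.inl`.
-/

set_option autoImplicit false

namespace P1346e8

namespace PrincipleAux

theorem strictLin_pull {V W : Type} {r : W → W → Prop} {r' : V → V → Prop} (g : V → W)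
    (hg : Function.Injective g) (hr : ∀ x y, r' x y ↔ r (g x) (g y))
    (h : StrictLin (fun _ => True) r) : StrictLin (fun _ => True) r' := by
  obtain ⟨h1, h2, h3⟩ := h
  refine ⟨fun x _ hx => h1 _ trivial ((hr _ _).1 hx), fun x y z _ _ _ hxy hyz => ?_,
    fun x y _ _ hxy => ?_⟩
  · exact (hr _ _).2 (h2 _ _ _ trivial trivial trivial ((hr _ _).1 hxy) ((hr _ _).1 hyz))
  · rcases h3 (g x) (g y) trivial trivial (fun e => hxy (hg e)) with h | h
    · exact Or.inl ((hr _ _).2 h)
    · exact Or.inr ((hr _ _).2 h)

end PrincipleAux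

theorem principle {υ : Type} [Finite υ] {p q : ℕ} (C : Set Str) (hC : ∀ A ∈ C, A.IsOrderedGraph)
    (U : (i : C) → υ → i.1.V → Prop) (D : (i : C) → FDat i.1.V p q)
    (hlt : ∀ i, (D i).lt = i.1.r 1)
    (hf : ∀ i j x y y', (D i).f j x y → (D i).f j x y' → y = y')
    (hlam : ∀ i l, StrictLin ((D i).S l) ((D i).lam l))
    (hfd : ∀ j, (baseFam (fun i : C => i.1) U).Def2 (fun i => (D i).f j))
    (hSd : ∀ l, (baseFam (fun i : C => i.1) U).Def1 (fun i => (D i).S l))
    (hld : ∀ l, (baseFam (fun i : C => i.1) U).Def2 (fun i => (D i).lam l))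
    (hE : (fdFam (fun i : C => i.1) U D).Def2 (fun i => i.1.r 0)) :
    ∃ P : Set Str, IsPermClass P ∧ IsTransductionOf C P ∧ IsTransductionOf P C := by
  have hgood : ∀ i : C, (D i).Good := fun i =>
    ⟨by rw [hlt i]; exact (hC i.1 i.2).2.2, hf i, hlam i⟩
  let E : C → Str := fun i => (D i).str i.1.fin
  let P : Set Str := {B | ∃ i : C, B.Embeds (E i)}
  refine ⟨P, ⟨?_, ?_⟩, ?_, ?_⟩
  · rintro B ⟨i, g, hg, hr⟩ k
    exact PrincipleAux.strictLin_pull g hg (hr k) (FDat.str_isPerm (D i) i.1.fin (hgood i) k)
  · rintro A ⟨i, g, hg, hr⟩ B ⟨g', hg', hr'⟩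
    exact ⟨i, g ∘ g', hg.comp hg', fun k x y => (hr' k x y).trans (hr k _ _)⟩
  · -- `C` is a transduction of `P`
    have hEP : ∀ i, E i ∈ P := fun i => ⟨i, id, Function.injective_id, fun _ _ _ => Iff.rfl⟩
    refine trans_of_def (ι := C) C P E (fun i => i.1) hEP (fun X hX => ⟨⟨X, hX⟩, rfl⟩) Unit
      (Kind p q ⊕ υ) (fun i b x => (encFam (fun i : C => i.1) U D).U i b x.1)
      (fun i v => ((D i).base i.1.fin v, ())) ?_ ?_ ?_
    · intro i v w h
      have h1 := congrArg Prod.fst h
      have h2 := congrArg (fun z : (E i).V => z.1.1) h1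
      exact h2
    · have h := lift1 (κ := Unit) E ((encFam (fun i : C => i.1) U D).U)
        (fun i b x => (encFam (fun i : C => i.1) U D).U i b x.1) id (fun _ _ _ => Iff.rfl)
        (dec_base (fun i : C => i.1) U D)
      refine h.congr fun i x => ?_
      constructor
      · rintro ⟨b, hb⟩
        exact ⟨b, congrArg Prod.fst hb⟩
      · rintro ⟨v, hv⟩
        exact ⟨v, Prod.ext hv rfl⟩
    · intro j
      suffices H : ∃ Q : (i : C) → (E i).V → (E i).V → Prop,
          (encFam (fun i : C => i.1) U D).Def2 Q ∧
          ∀ (i : C) (x y : i.1.V), Q i ((D i).base i.1.fin x) ((D i).base i.1.fin y) ↔ i.1.r j x y by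
        obtain ⟨Q, hQ, hQ'⟩ := H
        exact ⟨fun i x y => Q i x.1 y.1, lift2 (κ := Unit) E ((encFam (fun i : C => i.1) U D).U)
          (fun i b x => (encFam (fun i : C => i.1) U D).U i b x.1) id (fun _ _ _ => Iff.rfl) hQ,
          fun i b b' => hQ' i b b'⟩
      fin_cases j
      · obtain ⟨Q', hQ', hQ''⟩ := Fam.interp (F := encFam (fun i : C => i.1) U D)
          (G := fdFam (fun i : C => i.1) U D) (fun i v => (D i).base i.1.fin v)
          (fun i v w h => congrArg (fun z : (E i).V => z.1.1) h)
          (dec_base (fun i : C => i.1) U D)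
          (fun b => by
            rcases b with _ | j | l
            · exact dec_lt (fun i : C => i.1) U D
            · exact dec_f (fun i : C => i.1) U D hgood j
            · exact dec_lam (fun i : C => i.1) U D hgood l)
          (fun u => by
            rcases u with u | l
            · exact ⟨fun i x => (encFam (fun i : C => i.1) U D).U i (Sum.inr u) x,
                Fam.Def.un _ _ _, fun i x => Iff.rfl⟩
            · exact dec_S (fun i : C => i.1) U D hgood l) hE
        refine ⟨fun i x y => Q' i ![x, y], hQ'.congr fun i v => ?_, fun i x y => ?_⟩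
        · have : ![v 0, v 1] = v := by
            funext j
            fin_cases j <;> rfl
          exact iff_of_eq (congrArg (Q' i) this)
        · refine Iff.trans (iff_of_eq (congrArg _ ?_)) (hQ'' i ![x, y])
          funext j
          fin_cases j <;> rfl
      · obtain ⟨Q, hQ, hQ'⟩ := dec_lt (fun i : C => i.1) U D
        refine ⟨Q, hQ, fun i x y => (hQ' i x y).trans ?_⟩
        rw [hlt i]
        rfl
  · -- `P` is a transduction of `C`
    have hP : ∀ B : P, ∃ i : C, ∃ g : B.1.V → (E i).V, Function.Injective g ∧
      ∀ k x y, B.1.r k x y ↔ (E i).r k (g x) (g y) := fun B => B.2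
    choose s g hg hr using hP
    have hre2 : ∀ {R : (i : C) → i.1.V → i.1.V → Prop},
        (baseFam (fun i : C => i.1) U).Def2 R →
        (baseFam (fun B : P => (s B).1) (fun B => U (s B))).Def2 (fun B => R (s B)) := by
      rintro R ⟨φ, hφ⟩
      exact ⟨φ, fun B v => hφ (s B) v⟩
    have hre1 : ∀ {R : (i : C) → i.1.V → Prop},
        (baseFam (fun i : C => i.1) U).Def1 R →
        (baseFam (fun B : P => (s B).1) (fun B => U (s B))).Def1 (fun B => R (s B)) := by
      rintro R ⟨φ, hφ⟩
      exact ⟨φ, fun B v => hφ (s B) v⟩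
    have hltd : (baseFam (fun i : C => i.1) U).Def2 (fun i => (D i).lt) := by
      refine (Fam.Def.bin (baseFam (fun i : C => i.1) U) (1 : Fin 2) (0 : Fin 2) 1).congr
        fun i v => ?_
      exact iff_of_eq (congrFun (congrFun (hlt i) (v 0)) (v 1))
    refine trans_of_def (ι := P) P C (fun B => (s B).1) (fun B => B.1) (fun B => (s B).2)
      (fun X hX => ⟨⟨X, hX⟩, rfl⟩) (Kind p q) (υ ⊕ Unit)
      (fun B u x => match u with
        | .inl u => U (s B) u x.1
        | .inr _ => ∃ b, (g B b).1 = x)
      (fun B b => (g B b).1) (fun B => Subtype.val_injective.comp (hg B)) ?_ ?_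
    · exact (Fam.Def.un _ (Sum.inr (Sum.inr ())) 0).congr fun B v => Iff.rfl
    · intro j
      fin_cases j
      · exact ⟨fun B x y => (D (s B)).lt1 x y,
          encDef_lt1 (fun B : P => (s B).1) (fun B => U (s B)) (fun B => D (s B)) _ Sum.inl
            (fun _ _ _ => Iff.rfl) (hre2 hltd), fun B b b' => (hr B 0 b b').symm⟩
      · exact ⟨fun B x y => (D (s B)).lt2 x y,
          encDef_lt2 (fun B : P => (s B).1) (fun B => U (s B)) (fun B => D (s B)) _ Sum.inl
            (fun _ _ _ => Iff.rfl) (hre2 hltd) (fun j => hre2 (hfd j)) (fun l => hre2 (hld l)),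
          fun B b b' => (hr B 1 b b').symm⟩

end P1346e8
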