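import Pool.Agent.Lib.P1346e8.Copy
import Pool.Agent.Lib.P1346e8.Bridge

/-!
# MODULE Unb: unbounded grids give all permutations (about 1.8 h)

STATEMENT. If in the members of `C`, with unary predicates `U`, there is a definable relation `P`
without `K_{t,t}`, with arbitrarily large grids with respect to definable linear orders `ρ` (rows `S`) and
`γ` (columns `T`), then the class of all permutations is a transduction of `C`.
-/

set_option autoImplicit false

namespace P1346e8

namespace UnbAux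

theorem rank {V : Type} [Finite V] {r : V → V → Prop} (h : StrictLin (fun _ => True) r) :
    ∃ e : V ≃ Fin (Nat.card V), ∀ x y, r x y ↔ e x < e y := by
  classical
  have := Fintype.ofFinite V
  let _ : LinearOrder V :=
    { le := fun a b => a = b ∨ r a b
      lt := fun a b => r a b
      le_refl := fun a => Or.inl rfl
      le_trans := by
        rintro a b c (rfl | h1) (rfl | h2)
        · exact Or.inl rfl
        · exact Or.inr h2
        · exact Or.inr h1
        · exact Or.inr (h.2.1 _ _ _ trivial trivial trivial h1 h2)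
      lt_iff_le_not_ge := by
        intro a b
        constructor
        · intro h1
          refine ⟨Or.inr h1, ?_⟩
          rintro (rfl | h2)
          · exact h.1 _ trivial h1
          · exact h.1 _ trivial (h.2.1 _ _ _ trivial trivial trivial h1 h2)
        · rintro ⟨rfl | h1, h2⟩
          · exact absurd (Or.inl rfl) h2
          · exact h1
      le_antisymm := by
        rintro a b (rfl | h1) (h2 | h2)
        · rfl
        · rfl
        · exact h2.symm
        · exact absurd (h.2.1 _ _ _ trivial trivial trivial h1 h2) (h.1 _ trivial)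
      le_total := by
        intro a b
        by_cases hab : a = b
        · exact Or.inl (Or.inl hab)
        · rcases h.2.2 a b trivial trivial hab with h1 | h1
          · exact Or.inl (Or.inr h1)
          · exact Or.inr (Or.inr h1)
      toDecidableLE := Classical.decRel _ }
  let e := Fintype.orderIsoFinOfCardEq V (k := Nat.card V) (by rw [Nat.card_eq_fintype_card])
  exact ⟨e.symm.toEquiv, fun x y => (e.symm.lt_iff_lt (x := x) (y := y)).symm⟩

theorem pick (C : Set Str)
    (S T : (i : C) → i.1.V → Prop) (ρ γ P : (i : C) → i.1.V → i.1.V → Prop)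
    (hρ : ∀ i, StrictLin (S i) (ρ i)) (hγ : ∀ i, StrictLin (T i) (γ i))
    (t : ℕ) (hfree : ∀ i, BicliqueFree t (P i))
    (hgrid : ∀ K, ∃ i, GridR K (S i) (ρ i) (T i) (γ i) (P i)) (B : Str) (hB : B.IsPerm) :
    ∃ (c : C) (f g : B.V → c.1.V), (∀ b, S c (f b) ∧ T c (g b)) ∧
      (∀ b b', B.r 0 b b' → ρ c (f b) (f b')) ∧ (∀ b b', B.r 1 b b' → γ c (g b) (g b')) ∧
      ∀ b b', P c (f b) (g b') ↔ b = b' := by
  have := B.fin
  obtain ⟨e, he⟩ := rank (hB 0)
  obtain ⟨e', he'⟩ := rank (hB 1)
  obtain ⟨K, hK⟩ := clean' t (Nat.card B.V)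
  obtain ⟨c, hc⟩ := hgrid K
  obtain ⟨x, y, h1, h2, h3, h4⟩ := hK c.1.V (S c) (T c) (ρ c) (γ c) (P c) (hρ c) (hγ c) hc (hfree c)
    (e.symm.trans e')
  refine ⟨c, fun b => x (e b), fun b => y (e b), fun b => h1 _, ?_, ?_, ?_⟩
  · intro b b' h
    exact h2 _ _ ((he _ _).1 h)
  · intro b b' h
    refine h3 _ _ ?_
    simpa using (he' _ _).1 h
  · intro b b'
    rw [h4]
    exact e.injective.eq_iff

theorem iff_of_mono {V X : Type} {r : V → V → Prop} (hr : StrictLin (fun _ => True) r)
    {S : X → Prop} {ρ : X → X → Prop} (hρ : StrictLin S ρ) (f : V → X) (hS : ∀ b, S (f b))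
    (hf : ∀ b b', r b b' → ρ (f b) (f b')) (b b' : V) : ρ (f b) (f b') ↔ r b b' := by
  constructor
  · intro h
    by_cases hb : b = b'
    · subst hb
      exact absurd h (hρ.1 _ (hS b))
    · rcases hr.2.2 b b' trivial trivial hb with h1 | h1
      · exact h1
      · exact absurd (hρ.2.1 _ _ _ (hS _) (hS _) (hS _) h (hf _ _ h1)) (hρ.1 _ (hS b))
  · exact hf b b'

theorem inj_of_mono {V X : Type} {r : V → V → Prop} (hr : StrictLin (fun _ => True) r)
    {S : X → Prop} {ρ : X → X → Prop} (hρ : StrictLin S ρ) (f : V → X) (hS : ∀ b, S (f b))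
    (hf : ∀ b b', r b b' → ρ (f b) (f b')) : Function.Injective f := by
  intro b b' h
  by_contra hb
  rcases hr.2.2 b b' trivial trivial hb with h1 | h1
  · have := hf _ _ h1
    rw [h] at this
    exact hρ.1 _ (hS _) this
  · have := hf _ _ h1
    rw [h] at this
    exact hρ.1 _ (hS _) this

end UnbAux

theorem unb (C : Set Str) {υ : Type} [Finite υ] (U : (i : C) → υ → i.1.V → Prop)
    (S T : (i : C) → i.1.V → Prop) (ρ γ P : (i : C) → i.1.V → i.1.V → Prop)
    (hρ : ∀ i, StrictLin (S i) (ρ i)) (hγ : ∀ i, StrictLin (T i) (γ i))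
    (hρd : (baseFam (fun i : C => i.1) U).Def2 ρ) (hγd : (baseFam (fun i : C => i.1) U).Def2 γ)
    (hPd : (baseFam (fun i : C => i.1) U).Def2 P) (t : ℕ) (hfree : ∀ i, BicliqueFree t (P i))
    (hgrid : ∀ K, ∃ i, GridR K (S i) (ρ i) (T i) (γ i) (P i)) :
    IsTransductionOf {B : Str | B.IsPerm} C := by
  have hpick : ∀ B : {B : Str | B.IsPerm}, ∃ (c : C) (f g : B.1.V → c.1.V),
      (∀ b, S c (f b) ∧ T c (g b)) ∧
      (∀ b b', B.1.r 0 b b' → ρ c (f b) (f b')) ∧ (∀ b b', B.1.r 1 b b' → γ c (g b) (g b')) ∧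
      ∀ b b', P c (f b) (g b') ↔ b = b' :=
    fun B => UnbAux.pick C S T ρ γ P hρ hγ t hfree hgrid B.1 B.2
  choose s f g h1 h2 h3 h4 using hpick
  let A : {B : Str | B.IsPerm} → Str := fun B => (s B).1
  let U' : (i : {B : Str | B.IsPerm}) → υ → (A i).V → Prop := fun i => U (s i)
  let W : (i : {B : Str | B.IsPerm}) → (υ ⊕ Bool) → (A i).V × Unit → Prop := fun i a z =>
    match a with
    | .inl u => U (s i) u z.1
    | .inr true => ∃ b, f i b = z.1
    | .inr false => ∃ b, g i b = z.1
  have re : ∀ Q : (i : C) → i.1.V → i.1.V → Prop, (baseFam (fun i : C => i.1) U).Def2 Q →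
      (copyFam A Unit W).Def2 (fun i x y => Q (s i) x.1 y.1) := by
    intro Q hQ
    have : (baseFam A U').Def2 (fun i => Q (s i)) := by
      obtain ⟨φ, hφ⟩ := hQ
      exact ⟨φ, fun i v => hφ (s i) v⟩
    exact lift2 A U' W Sum.inl (fun i u x => Iff.rfl) this
  refine trans_of_def {B : Str | B.IsPerm} C A (fun B => B.1) (fun i => (s i).2)
    (fun X hX => ⟨⟨X, hX⟩, rfl⟩) Unit (υ ⊕ Bool) W (fun i b => (f i b, ())) ?_ ?_ ?_
  · intro i b b' h
    exact UnbAux.inj_of_mono (i.2 0) (hρ (s i)) (f i) (fun b => (h1 i b).1) (h2 i)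
      (congrArg Prod.fst h)
  · refine (Fam.Def.un (copyFam A Unit W) (Sum.inr (Sum.inr true)) 0).congr fun i v => ?_
    change (∃ b, (f i b, ()) = (v 0 : (A i).V × Unit)) ↔ ∃ b, f i b = (v 0 : (A i).V × Unit).1
    refine exists_congr fun b => ?_
    constructor
    · intro h
      exact congrArg Prod.fst h
    · intro h
      exact Prod.ext h rfl
  · intro j
    fin_cases j
    · refine ⟨fun i x y => ρ (s i) x.1 y.1, re ρ hρd, fun i b b' => ?_⟩
      exact UnbAux.iff_of_mono (i.2 0) (hρ (s i)) (f i) (fun b => (h1 i b).1) (h2 i) b b'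
    · refine ⟨fun i x y => ∃ w w' : (A i).V × Unit, (W i (Sum.inr false) w ∧ W i (Sum.inr false) w') ∧
        (P (s i) x.1 w.1 ∧ P (s i) y.1 w'.1) ∧ γ (s i) w.1 w'.1, ?_, fun i b b' => ?_⟩
      · refine Fam.Def.ex (Fam.Def.ex ?_)
        refine Fam.Def.and (Fam.Def.and ?_ ?_) (Fam.Def.and (Fam.Def.and ?_ ?_) ?_)
        · exact Fam.Def.un (copyFam A Unit W) (Sum.inr (Sum.inr false)) (2 : Fin 4)
        · exact Fam.Def.un (copyFam A Unit W) (Sum.inr (Sum.inr false)) (3 : Fin 4)
        · exact Fam.Def2.at (re P hPd) (0 : Fin 4) 2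
        · exact Fam.Def2.at (re P hPd) (1 : Fin 4) 3
        · exact Fam.Def2.at (re γ hγd) (2 : Fin 4) 3
      · have key := UnbAux.iff_of_mono (i.2 1) (hγ (s i)) (g i) (fun b => (h1 i b).2) (h3 i) b b'
        refine Iff.trans ?_ key
        constructor
        · rintro ⟨w, w', ⟨⟨a, ha⟩, ⟨a', ha'⟩⟩, ⟨hp, hp'⟩, hg⟩
          simp only at hp hp'
          rw [← ha, h4] at hp
          rw [← ha', h4] at hp'
          subst hp
          subst hp'
          rw [← ha, ← ha'] at hg
          exact hg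
        · intro h
          exact ⟨(g i b, ()), (g i b', ()), ⟨⟨b, rfl⟩, ⟨b', rfl⟩⟩,
            ⟨(h4 i b b).2 rfl, (h4 i b' b').2 rfl⟩, h⟩

end P1346e8
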