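import Pool.Agent.Lib.P1346e8.Comp
import Pool.Agent.Lib.P1346e8.Principle
import Pool.Agent.Lib.P1346e8.Bridge
import Pool.Agent.Lib.P1346e8.Unb
import Pool.Agent.Lib.P1346e8.AllPerm

/-!
# Assembly
-/

set_option autoImplicit false

namespace P1346e8

universe u

namespace Asm

variable {K N : ℕ} {υ : Type}

/-- The unary symbols of the expansion. -/
abbrev Ext (υ : Type) (N K : ℕ) : Type :=
  υ ⊕ ((Fin N × Fin K × Bool) ⊕ ((Fin N × Fin K × Fin K × Bool × Bool) ⊕ (Fin N × Fin 3)))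

variable (C : Set Str) (U : (i : C) → υ → i.1.V → Prop) (a b : Fin N → υ)
  (ρ γ M : Fin N → (i : C) → i.1.V → i.1.V → Prop) (c d : Fin N → (i : C) → i.1.V → Fin K)

/-- The corner relation of block `j`. -/
def Cn (j : Fin N) (i : C) : i.1.V → i.1.V → Prop :=
  Corner (U i (a j)) (ρ j i) (U i (b j)) (γ j i) (M j i)

/-- The expansion. -/
def UE (i : C) : Ext υ N K → i.1.V → Prop
  | .inl u, x => U i u x
  | .inr (.inl (j, α, s)), x => if s then c j i x = α else d j i x = α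
  | .inr (.inr (.inl (j, α, β, s, e))), x =>
      Zu (Cn C U a b ρ γ M j i) (c j i) (d j i)
        (Zd (U i (a j)) (ρ j i) (U i (b j)) (γ j i) (M j i) e) s α β x
  | .inr (.inr (.inr (j, e))), x =>
      Fst3 (U i (a j)) (ρ j i) (U i (b j)) (γ j i) (M j i) e x

abbrev FI (N K : ℕ) := Fin N × Bool × Fin K × Fin K

noncomputable def eF (N K : ℕ) : FI N K ≃ Fin (Fintype.card (FI N K)) := Fintype.equivFin _

noncomputable def eQ (N : ℕ) : (Fin N × Bool) ≃ Fin (Fintype.card (Fin N × Bool)) :=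
  Fintype.equivFin _

/-- The functions and orders. -/
noncomputable def DD (i : C) : FDat i.1.V (Fintype.card (FI N K)) (Fintype.card (Fin N × Bool)) where
  lt := i.1.r 1
  f k := Fn (Cn C U a b ρ γ M ((eF N K).symm k).1 i) (c ((eF N K).symm k).1 i)
    (d ((eF N K).symm k).1 i) ((eF N K).symm k).2.1 ((eF N K).symm k).2.2.1 ((eF N K).symm k).2.2.2
  S l := U i (if ((eQ N).symm l).2 then a ((eQ N).symm l).1 else b ((eQ N).symm l).1)
  lam l := if ((eQ N).symm l).2 then ρ ((eQ N).symm l).1 i else γ ((eQ N).symm l).1 i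

/-- The family of relations `M j`. -/
def relFam : Fam C (Option (Fin N)) υ where
  X i := i.1.V
  R i o := match o with
    | none => i.1.r 1
    | some j => M j i
  U i := U i

/-- The base family with the expansion. -/
abbrev bF : Fam C (Fin 2) (Ext υ N K) := baseFam (fun i : C => i.1) (UE C U a b ρ γ M c d)

/-- The family with functions and orders. -/
noncomputable abbrev fF : Fam C (Option (Fin (Fintype.card (FI N K)) ⊕ Fin (Fintype.card (Fin N × Bool))))
    (Ext υ N K ⊕ Fin (Fintype.card (Fin N × Bool))) :=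
  fdFam (fun i : C => i.1) (UE C U a b ρ γ M c d) (DD C U a b ρ γ M c d)

variable {C U a b ρ γ M c d}

theorem up {n : ℕ} {Q : (i : C) → (Fin n → i.1.V) → Prop}
    (h : (baseFam (fun i : C => i.1) U).Def Q) : (bF C U a b ρ γ M c d).Def Q :=
  Fam.comp (F := bF C U a b ρ γ M c d) (fun i => i.1.r) U
    (fun r => Fam.Def.bin (bF C U a b ρ γ M c d) r 0 1)
    (fun u => Fam.Def.un (bF C U a b ρ γ M c d) (Sum.inl u) 0) h

theorem def1_U (u : υ) : (bF C U a b ρ γ M c d).Def1 (fun i => U i u) :=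
  Fam.Def.un (bF C U a b ρ γ M c d) (Sum.inl u) 0

theorem def2_Cn (hρd : ∀ j, (baseFam (fun i : C => i.1) U).Def2 (ρ j))
    (hγd : ∀ j, (baseFam (fun i : C => i.1) U).Def2 (γ j))
    (hMd : ∀ j, (baseFam (fun i : C => i.1) U).Def2 (M j)) (j : Fin N) :
    (bF C U a b ρ γ M c d).Def2 (Cn C U a b ρ γ M j) :=
  def2_corner (def1_U (a j)) (def1_U (b j)) (up (hρd j)) (up (hγd j)) (up (hMd j))

theorem def1_c (j : Fin N) (α : Fin K) : (bF C U a b ρ γ M c d).Def1 (fun i x => c j i x = α) :=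
  (Fam.Def.un (bF C U a b ρ γ M c d) (Sum.inr (Sum.inl (j, α, true))) 0).congr fun i v => by
    change c j i (v 0) = α ↔ if true = true then c j i (v 0) = α else d j i (v 0) = α
    simp only [if_true]

theorem def1_d (j : Fin N) (α : Fin K) : (bF C U a b ρ γ M c d).Def1 (fun i x => d j i x = α) :=
  (Fam.Def.un (bF C U a b ρ γ M c d) (Sum.inr (Sum.inl (j, α, false))) 0).congr fun i v => by
    change d j i (v 0) = α ↔ if false = true then c j i (v 0) = α else d j i (v 0) = α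
    simp only [Bool.false_eq_true, if_false]

theorem def2_Fn (hρd : ∀ j, (baseFam (fun i : C => i.1) U).Def2 (ρ j))
    (hγd : ∀ j, (baseFam (fun i : C => i.1) U).Def2 (γ j))
    (hMd : ∀ j, (baseFam (fun i : C => i.1) U).Def2 (M j)) (j : Fin N) (s : Bool) (α β : Fin K) :
    (bF C U a b ρ γ M c d).Def2
      (fun i => Fn (Cn C U a b ρ γ M j i) (c j i) (d j i) s α β) := by
  have hC := def2_Cn (a := a) (b := b) (c := c) (d := d) hρd hγd hMd j
  cases s
  · have : (bF C U a b ρ γ M c d).Def2 (fun i y x => Cn C U a b ρ γ M j i x y ∧ c j i x = α ∧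
        d j i y = β ∧ ∀ z, Cn C U a b ρ γ M j i z y → c j i z = α → z = x) := by
      refine Fam.Def.and (Fam.Def2.at hC 1 0) (Fam.Def.and (Fam.Def1.at (def1_c j α) 1)
        (Fam.Def.and (Fam.Def1.at (def1_d j β) 0) (Fam.Def.all (Fam.Def.imp (Fam.Def2.at hC _ _)
          (Fam.Def.imp (Fam.Def1.at (def1_c j α) _) (Fam.Def.eq _ _ _))))))
    exact this.congr fun i y x => fn_false _ _ _ _ _ _ _
  · have : (bF C U a b ρ γ M c d).Def2 (fun i x y => Cn C U a b ρ γ M j i x y ∧ c j i x = α ∧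
        d j i y = β ∧ ∀ z, Cn C U a b ρ γ M j i x z → d j i z = β → z = y) := by
      refine Fam.Def.and (Fam.Def2.at hC 0 1) (Fam.Def.and (Fam.Def1.at (def1_c j α) 0)
        (Fam.Def.and (Fam.Def1.at (def1_d j β) 1) (Fam.Def.all (Fam.Def.imp (Fam.Def2.at hC _ _)
          (Fam.Def.imp (Fam.Def1.at (def1_d j β) _) (Fam.Def.eq _ _ _))))))
    exact this.congr fun i x y => fn_true _ _ _ _ _ _ _

theorem f2_Fn (j : Fin N) (s : Bool) (α β : Fin K) :
    (fF C U a b ρ γ M c d).Def2 (fun i => Fn (Cn C U a b ρ γ M j i) (c j i) (d j i) s α β) :=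
  (Fam.Def.bin (fF C U a b ρ γ M c d) (some (Sum.inl (eF N K (j, s, α, β)))) 0 1).congr
    fun i v => by
      have h : (eF N K).symm ((eF N K) (j, s, α, β)) = (j, s, α, β) := Equiv.symm_apply_apply _ _
      change _ ↔ (DD C U a b ρ γ M c d i).f (eF N K (j, s, α, β)) (v 0) (v 1)
      unfold DD
      dsimp only
      rw [h]
      exact Iff.rfl

theorem f1_un (u : Ext υ N K) :
    (fF C U a b ρ γ M c d).Def1 (fun i => UE C U a b ρ γ M c d i u) :=
  Fam.Def.un (fF C U a b ρ γ M c d) (Sum.inl u) 0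

theorem f2_ρ (hρS : ∀ j i x y, ρ j i x y → U i (a j) x ∧ U i (a j) y) (j : Fin N) :
    (fF C U a b ρ γ M c d).Def2 (ρ j) :=
  (Fam.Def.bin (fF C U a b ρ γ M c d) (some (Sum.inr (eQ N (j, true)))) 0 1).congr
    fun i v => by
      have h : (eQ N).symm ((eQ N) (j, true)) = (j, true) := Equiv.symm_apply_apply _ _
      change _ ↔ (DD C U a b ρ γ M c d i).S (eQ N (j, true)) (v 0) ∧
        (DD C U a b ρ γ M c d i).S (eQ N (j, true)) (v 1) ∧
        (DD C U a b ρ γ M c d i).lam (eQ N (j, true)) (v 0) (v 1)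
      unfold DD
      dsimp only
      rw [h]
      exact ⟨fun h => ⟨(hρS _ _ _ _ h).1, (hρS _ _ _ _ h).2, h⟩, fun h => h.2.2⟩

theorem f2_γ (hγT : ∀ j i x y, γ j i x y → U i (b j) x ∧ U i (b j) y) (j : Fin N) :
    (fF C U a b ρ γ M c d).Def2 (γ j) :=
  (Fam.Def.bin (fF C U a b ρ γ M c d) (some (Sum.inr (eQ N (j, false)))) 0 1).congr
    fun i v => by
      have h : (eQ N).symm ((eQ N) (j, false)) = (j, false) := Equiv.symm_apply_apply _ _
      change _ ↔ (DD C U a b ρ γ M c d i).S (eQ N (j, false)) (v 0) ∧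
        (DD C U a b ρ γ M c d i).S (eQ N (j, false)) (v 1) ∧
        (DD C U a b ρ γ M c d i).lam (eQ N (j, false)) (v 0) (v 1)
      unfold DD
      dsimp only
      rw [h]
      exact ⟨fun h => ⟨(hγT _ _ _ _ h).1, (hγT _ _ _ _ h).2, h⟩, fun h => h.2.2⟩

theorem f2_Cr (j : Fin N) :
    (fF C U a b ρ γ M c d).Def2 (fun i => Cr (Cn C U a b ρ γ M j i) (c j i) (d j i)) := by
  refine Fam.Def.exFin (by norm_num) fun α => Fam.Def.exFin (by norm_num) fun β => ?_
  exact Fam.Def.or (Fam.Def2.at (f2_Fn j true α β) 0 1) (Fam.Def2.at (f2_Fn j false α β) 1 0)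

theorem f2_Zr (j : Fin N) (e : Bool) :
    (fF C U a b ρ γ M c d).Def2 (fun i => Zr (Cn C U a b ρ γ M j i) (c j i) (d j i)
      (Zd (U i (a j)) (ρ j i) (U i (b j)) (γ j i) (M j i) e)) := by
  refine Fam.Def.exFin (by norm_num) fun α => Fam.Def.exFin (by norm_num) fun β => ?_
  refine Fam.Def.or (Fam.Def.and (Fam.Def2.at (f2_Fn j true α β) 0 1) ?_)
    (Fam.Def.and (Fam.Def2.at (f2_Fn j false α β) 1 0) ?_)
  · exact Fam.Def1.at (f1_un (Sum.inr (Sum.inr (Sum.inl (j, α, β, true, e))))) 0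
  · exact Fam.Def1.at (f1_un (Sum.inr (Sum.inr (Sum.inl (j, α, β, false, e))))) 1

theorem f2_M [∀ i : C, Finite i.1.V] (hρS : ∀ j i x y, ρ j i x y → U i (a j) x ∧ U i (a j) y)
    (hγT : ∀ j i x y, γ j i x y → U i (b j) x ∧ U i (b j) y)
    (hMS : ∀ j i x y, M j i x y → U i (a j) x ∧ U i (b j) y)
    (hρ : ∀ j i, StrictLin (U i (a j)) (ρ j i)) (hγ : ∀ j i, StrictLin (U i (b j)) (γ j i))
    (hst : ∀ j i x y, Cn C U a b ρ γ M j i x y →
      (∀ y', Cn C U a b ρ γ M j i x y' → d j i y' = d j i y → y' = y) ∨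
      (∀ x', Cn C U a b ρ γ M j i x' y → c j i x' = c j i x → x' = x)) (j : Fin N) :
    (fF C U a b ρ γ M c d).Def2 (M j) := by
  have hT : (fF C U a b ρ γ M c d).Def1 (fun i => U i (b j)) := f1_un (Sum.inl (b j))
  have hS : (fF C U a b ρ γ M c d).Def1 (fun i => U i (a j)) := f1_un (Sum.inl (a j))
  have h := Fam.Def.and (Fam.Def1.at hS 0) (Fam.Def.and (Fam.Def1.at hT 1) (def2_rd hT
    (f2_ρ (c := c) (d := d) (M := M) (γ := γ) (b := b) hρS j)
    (f2_γ (c := c) (d := d) (M := M) (ρ := ρ) (a := a) hγT j) (f2_Cr j) (f2_Zr j true)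
    (f2_Zr j false) (f1_un (Sum.inr (Sum.inr (Sum.inr (j, 0)))))
    (f1_un (Sum.inr (Sum.inr (Sum.inr (j, 1))))) (f1_un (Sum.inr (Sum.inr (Sum.inr (j, 2)))))))
  refine h.congr fun i v => ?_
  exact read_block _ _ _ _ _ (hρ j i) (hγ j i) (hMS j i) (c j i) (d j i) (hst j i) _ _

/-- Case (I): bounded grids. -/
theorem bounded [Finite υ] [∀ i : C, Finite i.1.V] (hC : ∀ A ∈ C, A.IsOrderedGraph)
    (hρS : ∀ j i x y, ρ j i x y → U i (a j) x ∧ U i (a j) y)
    (hγT : ∀ j i x y, γ j i x y → U i (b j) x ∧ U i (b j) y)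
    (hMS : ∀ j i x y, M j i x y → U i (a j) x ∧ U i (b j) y)
    (hρ : ∀ j i, StrictLin (U i (a j)) (ρ j i)) (hγ : ∀ j i, StrictLin (U i (b j)) (γ j i))
    (hρd : ∀ j, (baseFam (fun i : C => i.1) U).Def2 (ρ j))
    (hγd : ∀ j, (baseFam (fun i : C => i.1) U).Def2 (γ j))
    (hMd : ∀ j, (baseFam (fun i : C => i.1) U).Def2 (M j))
    (hst : ∀ j i x y, Cn C U a b ρ γ M j i x y →
      (∀ y', Cn C U a b ρ γ M j i x y' → d j i y' = d j i y → y' = y) ∨
      (∀ x', Cn C U a b ρ γ M j i x' y → c j i x' = c j i x → x' = x))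
    (hE : (relFam C U M).Def2 (fun i => i.1.r 0)) :
    ∃ P : Set Str, IsPermClass P ∧ IsTransductionOf C P ∧ IsTransductionOf P C := by
  refine principle C hC (UE C U a b ρ γ M c d) (DD C U a b ρ γ M c d) (fun i => rfl) ?_ ?_ ?_ ?_ ?_
    ?_
  · intro i k x y y' h h'
    exact Fn_functional _ _ _ _ _ _ _ _ _ h h'
  · intro i l
    simp only [DD]
    split
    · exact hρ _ i
    · exact hγ _ i
  · intro k
    exact def2_Fn hρd hγd hMd _ _ _ _
  · intro l
    exact def1_U _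
  · intro l
    simp only [DD]
    by_cases hl : ((eQ N).symm l).2 = true
    · simp only [hl, if_true]
      exact up (hρd _)
    · simp only [hl, Bool.false_eq_true, if_false]
      exact up (hγd _)
  · exact Fam.comp (F := fF C U a b ρ γ M c d) (relFam C U M).R (relFam C U M).U
      (fun o => match o with
        | none => Fam.Def.bin (fF C U a b ρ γ M c d) none 0 1
        | some j => f2_M hρS hγT hMS hρ hγ hst j)
      (fun u => f1_un (Sum.inl u)) hE

end Asm

/-- The theorem for families of relations. -/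
theorem main_fam (C : Set Str) (hC : ∀ A ∈ C, A.IsOrderedGraph) {υ : Type} [Finite υ] {N : ℕ}
    (U : (i : C) → υ → i.1.V → Prop) (a b : Fin N → υ)
    (ρ γ M : Fin N → (i : C) → i.1.V → i.1.V → Prop)
    (hρS : ∀ j i x y, ρ j i x y → U i (a j) x ∧ U i (a j) y)
    (hγT : ∀ j i x y, γ j i x y → U i (b j) x ∧ U i (b j) y)
    (hMS : ∀ j i x y, M j i x y → U i (a j) x ∧ U i (b j) y)
    (hρ : ∀ j i, StrictLin (U i (a j)) (ρ j i)) (hγ : ∀ j i, StrictLin (U i (b j)) (γ j i))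
    (hρd : ∀ j, (baseFam (fun i : C => i.1) U).Def2 (ρ j))
    (hγd : ∀ j, (baseFam (fun i : C => i.1) U).Def2 (γ j))
    (hMd : ∀ j, (baseFam (fun i : C => i.1) U).Def2 (M j)) (t : ℕ)
    (hfree : ∀ j i, BicliqueFree t (Corner (U i (a j)) (ρ j i) (U i (b j)) (γ j i) (M j i)))
    (hE : (Asm.relFam C U M).Def2 (fun i => i.1.r 0)) :
    ∃ P : Set Str, IsPermClass P ∧ IsTransductionOf C P ∧ IsTransductionOf P C := by
  classical
  have : ∀ i : C, Finite i.1.V := fun i => i.1.fin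
  by_cases hbig : ∃ j, ∀ K, ∃ i, GridR K (U i (a j)) (ρ j i) (U i (b j)) (γ j i)
      (Corner (U i (a j)) (ρ j i) (U i (b j)) (γ j i) (M j i))
  · obtain ⟨j, hj⟩ := hbig
    refine ⟨_, isPermClass_all, trans_all_perm C hC, ?_⟩
    refine unb C U (fun i => U i (a j)) (fun i => U i (b j)) (ρ j) (γ j)
      (fun i => Corner (U i (a j)) (ρ j i) (U i (b j)) (γ j i) (M j i)) (hρ j) (hγ j) (hρd j) (hγd j)
      ?_ t (hfree j) hj
    exact def2_corner (Fam.Def.un _ (a j) 0) (Fam.Def.un _ (b j) 0) (hρd j) (hγd j) (hMd j)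
  · push Not at hbig
    choose k hk using hbig
    let k0 := Finset.univ.sup k
    obtain ⟨K, hK⟩ := star' k0
    have hst := fun j (i : C) => hK i.1.V (U i (a j)) (U i (b j)) (ρ j i) (γ j i)
      (Corner (U i (a j)) (ρ j i) (U i (b j)) (γ j i) (M j i)) (hρ j i) (hγ j i)
      (fun h => hk j i (h.le (Finset.le_sup (f := k) (Finset.mem_univ j))))
    choose c d hcd using hst
    refine Asm.bounded (c := c) (d := d) hC hρS hγT hMS hρ hγ hρd hγd hMd ?_ hE
    intro j i x y hxy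
    have hS : U i (a j) x := by
      obtain ⟨x', y', h1, h2, _⟩ := hxy
      exact h1.1
    have hT : U i (b j) y := by
      obtain ⟨x', y', h1, h2, _⟩ := hxy
      exact h2.1
    rcases hcd j i x y hS hT hxy with h | h
    · left
      intro y' hy' he
      refine h y' ?_ hy' he
      obtain ⟨_, _, _, h2, _⟩ := hy'
      exact h2.1
    · right
      intro x' hx' he
      refine h x' ?_ hx' he
      obtain ⟨_, _, h1, _⟩ := hx'
      exact h1.1

end P1346e8
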