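import Pool.Agent.Lib.P1346e8.Defs

/-!
# MODULE Read: a 0-1 matrix is determined by its corners (about 1.8 h)

Rows `S` ordered by `ρ`, columns `T` ordered by `γ`.  A column gap is named by its left column `z`, a
corner by its upper row and left column.

STATEMENT (`read`). `M x y` is read as follows.  For a row `x` and a column `z` let `u` be the last
corner above `x` in the gap `z` (`LastC`: the `ρ`-largest `u` with `C u z` and `ρ u x`).  `DD x z` says
that the entries `M x z` and `M x z'` differ (`z'` next after `z`); it is read from the datum `CD u z` of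
the last corner, or, if there is none, from the first row (`FD z`); in the same way `VV x z` gives the
value `M x z` (if `DD x z`).  Then `M x y` is the value `VV x z` for the first `z ≥ y` with `DD x z`, and,
if there is none, the value `LV x` in the last column.

PROOF.  Claim A: for `x ∈ S`, `z ∈ T` with next column `z'`: `DD x z ↔ ¬ (M x z ↔ M x z')`, and
`DD x z → (VV x z ↔ M x z)`.  Induction on the number of rows above `x`.  If `x` is the first row then
`LastC ρ C x z u` never holds (a corner `u` is in `S`) and the claim is `hFD`, `hFV`.  Otherwise `x` is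
next after a row `w` (`V` is finite), and for `u ∈ S`: `ρ u x ↔ ρ u w ∨ u = w`.  If `C w z` then
`LastC ρ C x z u ↔ u = w` and the claim is `hCD`, `hCV` (at `w`, `z` with `x' = x`).  If `¬ C w z` then
`LastC ρ C x z u ↔ LastC ρ C w z u`, so `DD x z ↔ DD w z`, `VV x z ↔ VV w z`; as `(w, z)` is not a corner,
either the two rows agree (`M w z ↔ M x z`, `M w z' ↔ M x z'`) and the claim follows from the claim for
`w`, or the two columns agree (`M w z ↔ M w z'` and `M x z ↔ M x z'`), so `DD w z` is false, hence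
`DD x z` is false, as it should.
Claim B: if `z ∈ T` is the last column then `DD x z` is false (no corner `C u z`: it needs a next
column; `FD z` needs a next column).
Main claim, for `x ∈ S`, `y ∈ T`.  If `y ≤ w` and no `z` with `y ≤ z < w` satisfies `DD x z` then
`M x y ↔ M x w` (induction along the columns from `y` to `w`, by Claim A).  If there is `z ≥ y` with
`DD x z`, take the least: `M x y ↔ M x z ↔ VV x z`.  (In `Rd` the `z` with the given properties is unique,
by linearity.)  If there is none, take for `w` the last column: `M x y ↔ M x w ↔ LV x`.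
-/

set_option autoImplicit false

namespace P1346e8

/-- `u` is the last corner above row `x` in the column gap `z`. -/
def LastC {V : Type} (ρ C : V → V → Prop) (x z u : V) : Prop :=
  C u z ∧ ρ u x ∧ ∀ u', C u' z → ρ u' x → ¬ ρ u u'

/-- The datum of the last corner above `x` in the gap `z`, or the datum `FD z` of the first row. -/
def Dat {V : Type} (ρ C CD : V → V → Prop) (FD : V → Prop) (x z : V) : Prop :=
  (∃ u, LastC ρ C x z u ∧ CD u z) ∨ ((∀ u, ¬ LastC ρ C x z u) ∧ FD z)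

/-- The entry read from the corners. -/
def Rd {V : Type} (T : V → Prop) (ρ γ C CD CV : V → V → Prop) (FD FV LV : V → Prop) (x y : V) :
    Prop :=
  (∃ z, T z ∧ (y = z ∨ γ y z) ∧ Dat ρ C CD FD x z ∧
      (∀ w, T w → (y = w ∨ γ y w) → γ w z → ¬ Dat ρ C CD FD x w) ∧ Dat ρ C CV FV x z) ∨
    ((∀ z, T z → (y = z ∨ γ y z) → ¬ Dat ρ C CD FD x z) ∧ LV x)

namespace ReadAux

theorem nxt_unique {V : Type} {S : V → Prop} {r : V → V → Prop} (h : StrictLin S r) {x a b : V}
    (ha : Nxt S r x a) (hb : Nxt S r x b) : a = b := by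
  by_contra hne
  rcases h.2.2 a b ha.2.1 hb.2.1 hne with hab | hba
  · exact hb.2.2.2 a ha.2.1 ⟨ha.2.2.1, hab⟩
  · exact ha.2.2.2 b hb.2.1 ⟨hb.2.2.1, hba⟩

theorem first_unique {V : Type} {S : V → Prop} {r : V → V → Prop} (h : StrictLin S r) {a b : V}
    (ha : S a ∧ ∀ z, S z → ¬ r z a) (hb : S b ∧ ∀ z, S z → ¬ r z b) : a = b := by
  by_contra hne
  rcases h.2.2 a b ha.1 hb.1 hne with hab | hba
  · exact hb.2 a ha.1 hab
  · exact ha.2 b hb.1 hba

theorem wf {V : Type} [Finite V] {S : V → Prop} {r : V → V → Prop} (h : StrictLin S r) :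
    WellFounded (fun a b : V => S a ∧ S b ∧ r a b) := by
  have h1 : IsTrans V (fun a b : V => S a ∧ S b ∧ r a b) :=
    ⟨fun a b c hab hbc => ⟨hab.1, hbc.2.1, h.2.1 a b c hab.1 hab.2.1 hbc.2.1 hab.2.2 hbc.2.2⟩⟩
  have h2 : Std.Irrefl (fun a b : V => S a ∧ S b ∧ r a b) :=
    ⟨fun a ha => h.1 a ha.1 ha.2.2⟩
  exact Finite.wellFounded_of_trans_of_irrefl _

theorem wf' {V : Type} [Finite V] {S : V → Prop} {r : V → V → Prop} (h : StrictLin S r) :
    WellFounded (fun a b : V => S a ∧ S b ∧ r b a) := by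
  have h1 : IsTrans V (fun a b : V => S a ∧ S b ∧ r b a) :=
    ⟨fun a b c hab hbc => ⟨hab.1, hbc.2.1, h.2.1 c b a hbc.2.1 hab.2.1 hab.1 hbc.2.2 hab.2.2⟩⟩
  have h2 : Std.Irrefl (fun a b : V => S a ∧ S b ∧ r b a) :=
    ⟨fun a ha => h.1 a ha.1 ha.2.2⟩
  exact Finite.wellFounded_of_trans_of_irrefl _

/-- An element of `S` that is not the last one has a next one. -/
theorem exists_nxt {V : Type} [Finite V] {S : V → Prop} {r : V → V → Prop} (h : StrictLin S r)
    {x z : V} (hx : S x) (hz : S z) (hxz : r x z) : ∃ x', Nxt S r x x' := by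
  obtain ⟨m, hm, hmin⟩ := (wf h).has_min {a : V | S a ∧ r x a} ⟨z, hz, hxz⟩
  exact ⟨m, hx, hm.1, hm.2, fun a ha hh => hmin a ⟨ha, hh.1⟩ ⟨ha, hm.1, hh.2⟩⟩

/-- An element of `S` that is not the first one is next after some element. -/
theorem exists_prev {V : Type} [Finite V] {S : V → Prop} {r : V → V → Prop} (h : StrictLin S r)
    {x z : V} (hx : S x) (hz : S z) (hzx : r z x) : ∃ w, Nxt S r w x := by
  obtain ⟨m, hm, hmin⟩ := (wf' h).has_min {a : V | S a ∧ r a x} ⟨z, hz, hzx⟩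
  exact ⟨m, hm.1, hx, hm.2, fun a ha hh => hmin a ⟨ha, hh.2⟩ ⟨ha, hm.1, hh.1⟩⟩

theorem lt_iff {V : Type} {S : V → Prop} {r : V → V → Prop} (h : StrictLin S r) {w x u : V}
    (hwx : Nxt S r w x) (hu : S u) : r u x ↔ r u w ∨ u = w := by
  constructor
  · intro hux
    by_cases he : u = w
    · exact Or.inr he
    · rcases h.2.2 u w hu hwx.1 he with h1 | h1
      · exact Or.inl h1
      · exact absurd ⟨h1, hux⟩ (hwx.2.2.2 u hu)
  · rintro (h1 | h1)
    · exact h.2.1 u w x hu hwx.1 hwx.2.1 h1 hwx.2.2.1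
    · rw [h1]; exact hwx.2.2.1

theorem ge_iff {V : Type} {S : V → Prop} {r : V → V → Prop} (h : StrictLin S r) {y y' z : V}
    (hy : Nxt S r y y') (hz : S z) : r y z ↔ y' = z ∨ r y' z := by
  constructor
  · intro hyz
    by_cases he : y' = z
    · exact Or.inl he
    · rcases h.2.2 y' z hy.2.1 hz he with h1 | h1
      · exact Or.inr h1
      · exact absurd ⟨hyz, h1⟩ (hy.2.2.2 z hz)
  · rintro (h1 | h1)
    · rw [← h1]; exact hy.2.2.1
    · exact h.2.1 y y' z hy.1 hy.2.1 hz hy.2.2.1 h1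

section

variable {V : Type} {S T : V → Prop} {ρ γ M C : V → V → Prop}

theorem corner_row (hC : ∀ x y, C x y ↔ Corner S ρ T γ M x y) {u z : V} (h : C u z) : S u := by
  obtain ⟨x', y', h1, _⟩ := (hC u z).1 h
  exact h1.1

/-- If `C w z` and `x` is next after `w`, then the last corner above `x` is `w`. -/
theorem lastC_corner (hρ : StrictLin S ρ) (hC : ∀ x y, C x y ↔ Corner S ρ T γ M x y) {w x z : V}
    (hwx : Nxt S ρ w x) (hc : C w z) (u : V) : LastC ρ C x z u ↔ u = w := by
  constructor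
  · rintro ⟨h1, h2, h3⟩
    rcases (lt_iff hρ hwx (corner_row hC h1)).1 h2 with h4 | h4
    · exact absurd h4 (h3 w hc hwx.2.2.1)
    · exact h4
  · rintro rfl
    exact ⟨hc, hwx.2.2.1, fun u' hu' h1 h2 => hwx.2.2.2 u' (corner_row hC hu') ⟨h2, h1⟩⟩

/-- If `¬ C w z` and `x` is next after `w`, then `x` and `w` have the same last corners. -/
theorem lastC_step (hρ : StrictLin S ρ) (hC : ∀ x y, C x y ↔ Corner S ρ T γ M x y) {w x z : V}
    (hwx : Nxt S ρ w x) (hc : ¬ C w z) (u : V) : LastC ρ C x z u ↔ LastC ρ C w z u := by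
  have key : ∀ u, C u z → (ρ u x ↔ ρ u w) := by
    intro u hu
    rw [lt_iff hρ hwx (corner_row hC hu)]
    constructor
    · rintro (h | h)
      · exact h
      · exact absurd (h ▸ hu) hc
    · exact Or.inl
  constructor
  · rintro ⟨h1, h2, h3⟩
    exact ⟨h1, (key u h1).1 h2, fun u' hu' h4 => h3 u' hu' ((key u' hu').2 h4)⟩
  · rintro ⟨h1, h2, h3⟩
    exact ⟨h1, (key u h1).2 h2, fun u' hu' h4 => h3 u' hu' ((key u' hu').1 h4)⟩

theorem dat_corner (hρ : StrictLin S ρ) (hC : ∀ x y, C x y ↔ Corner S ρ T γ M x y) {w x z : V}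
    (hwx : Nxt S ρ w x) (hc : C w z) (CD : V → V → Prop) (FD : V → Prop) :
    Dat ρ C CD FD x z ↔ CD w z := by
  unfold Dat
  simp only [lastC_corner hρ hC hwx hc]
  constructor
  · rintro (⟨u, rfl, h⟩ | ⟨h, _⟩)
    · exact h
    · exact absurd rfl (h w)
  · intro h
    exact Or.inl ⟨w, rfl, h⟩

theorem dat_step (hρ : StrictLin S ρ) (hC : ∀ x y, C x y ↔ Corner S ρ T γ M x y) {w x z : V}
    (hwx : Nxt S ρ w x) (hc : ¬ C w z) (CD : V → V → Prop) (FD : V → Prop) :
    Dat ρ C CD FD x z ↔ Dat ρ C CD FD w z := by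
  unfold Dat
  simp only [lastC_step hρ hC hwx hc]

theorem dat_first (hC : ∀ x y, C x y ↔ Corner S ρ T γ M x y) {x z : V}
    (hx : S x ∧ ∀ z, S z → ¬ ρ z x) (CD : V → V → Prop) (FD : V → Prop) :
    Dat ρ C CD FD x z ↔ FD z := by
  have h0 : ∀ u, ¬ LastC ρ C x z u := fun u hu => hx.2 u (corner_row hC hu.1) hu.2.1
  unfold Dat
  constructor
  · rintro (⟨u, hu, _⟩ | ⟨_, h⟩)
    · exact absurd hu (h0 u)
    · exact h
  · intro h
    exact Or.inr ⟨h0, h⟩

variable {CD CV : V → V → Prop} {FD FV : V → Prop}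

theorem claimA [Finite V] (hρ : StrictLin S ρ) (hγ : StrictLin T γ)
    (hC : ∀ x y, C x y ↔ Corner S ρ T γ M x y)
    (hCD : ∀ x y x' y', C x y → Nxt S ρ x x' → Nxt T γ y y' → (CD x y ↔ ¬ (M x' y ↔ M x' y')))
    (hCV : ∀ x y x' y', C x y → Nxt S ρ x x' → Nxt T γ y y' → (CV x y ↔ M x' y))
    (hFD : ∀ y, FD y ↔ ∃ x y', (S x ∧ ∀ z, S z → ¬ ρ z x) ∧ Nxt T γ y y' ∧ ¬ (M x y ↔ M x y'))
    (hFV : ∀ x y, (S x ∧ ∀ z, S z → ¬ ρ z x) → T y → (FV y ↔ M x y)) {z z' : V}
    (hz : Nxt T γ z z') : ∀ x, S x →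
      ((Dat ρ C CD FD x z ↔ ¬ (M x z ↔ M x z')) ∧
        (Dat ρ C CD FD x z → (Dat ρ C CV FV x z ↔ M x z))) := by
  intro x
  induction x using (wf hρ).induction with
  | _ x ih =>
    intro hx
    by_cases hfirst : ∀ z, S z → ¬ ρ z x
    · rw [dat_first hC ⟨hx, hfirst⟩, dat_first hC ⟨hx, hfirst⟩]
      refine ⟨?_, fun _ => hFV x z ⟨hx, hfirst⟩ hz.1⟩
      rw [hFD]
      constructor
      · rintro ⟨x0, y', h0, h1, h2⟩
        rw [first_unique hρ h0 ⟨hx, hfirst⟩, nxt_unique hγ h1 hz] at h2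
        exact h2
      · intro h
        exact ⟨x, z', ⟨hx, hfirst⟩, hz, h⟩
    · push Not at hfirst
      obtain ⟨v, hv, hvx⟩ := hfirst
      obtain ⟨w, hw⟩ := exists_prev hρ hx hv hvx
      by_cases hc : C w z
      · rw [dat_corner hρ hC hw hc, dat_corner hρ hC hw hc]
        exact ⟨hCD w z x z' hc hw hz, fun _ => hCV w z x z' hc hw hz⟩
      · rw [dat_step hρ hC hw hc, dat_step hρ hC hw hc]
        obtain ⟨ih1, ih2⟩ := ih w ⟨hw.1, hw.2.1, hw.2.2.1⟩ hw.1
        have hnc : ¬ Corner S ρ T γ M w z := fun h => hc ((hC w z).2 h)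
        have hor : ((M w z ↔ M x z) ∧ (M w z' ↔ M x z')) ∨
            ((M w z ↔ M w z') ∧ (M x z ↔ M x z')) := by
          by_contra hcon
          rw [not_or] at hcon
          exact hnc ⟨x, z', hw, hz, hcon.1, hcon.2⟩
        rcases hor with ⟨h1, h2⟩ | ⟨h1, h2⟩
        · rw [← h1, ← h2]
          exact ⟨ih1, ih2⟩
        · have hnd : ¬ Dat ρ C CD FD w z := by
            rw [ih1]
            exact fun h => h h1
          exact ⟨⟨fun h => absurd h hnd, fun h => absurd h2 h⟩, fun h => absurd h hnd⟩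

theorem claimB (hC : ∀ x y, C x y ↔ Corner S ρ T γ M x y)
    (hFD : ∀ y, FD y ↔ ∃ x y', (S x ∧ ∀ z, S z → ¬ ρ z x) ∧ Nxt T γ y y' ∧ ¬ (M x y ↔ M x y'))
    {x z : V} (hz : ∀ z', T z' → ¬ γ z z') : ¬ Dat ρ C CD FD x z := by
  rintro (⟨u, hu, _⟩ | ⟨_, h⟩)
  · obtain ⟨x', y', _, h2, _⟩ := (hC u z).1 hu.1
    exact hz y' h2.2.1 h2.2.2.1
  · obtain ⟨x0, y', _, h2, _⟩ := (hFD z).1 h
    exact hz y' h2.2.1 h2.2.2.1

end

end ReadAux

theorem read {V : Type} [Finite V] (S T : V → Prop) (ρ γ M : V → V → Prop) (hρ : StrictLin S ρ)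
    (hγ : StrictLin T γ) (C CD CV : V → V → Prop) (FD FV LV : V → Prop)
    (hC : ∀ x y, C x y ↔ Corner S ρ T γ M x y)
    (hCD : ∀ x y x' y', C x y → Nxt S ρ x x' → Nxt T γ y y' → (CD x y ↔ ¬ (M x' y ↔ M x' y')))
    (hCV : ∀ x y x' y', C x y → Nxt S ρ x x' → Nxt T γ y y' → (CV x y ↔ M x' y))
    (hFD : ∀ y, FD y ↔ ∃ x y', (S x ∧ ∀ z, S z → ¬ ρ z x) ∧ Nxt T γ y y' ∧ ¬ (M x y ↔ M x y'))
    (hFV : ∀ x y, (S x ∧ ∀ z, S z → ¬ ρ z x) → T y → (FV y ↔ M x y))
    (hLV : ∀ x y, S x → (T y ∧ ∀ z, T z → ¬ γ y z) → (LV x ↔ M x y)) :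
    ∀ x y, S x → T y → (M x y ↔ Rd T ρ γ C CD CV FD FV LV x y) := by
  intro x y hx
  induction y using (ReadAux.wf' hγ).induction with
  | _ y ih =>
    intro hy
    by_cases hlast : ∀ z, T z → ¬ γ y z
    · have hB : ¬ Dat ρ C CD FD x y := ReadAux.claimB hC hFD hlast
      have hall : ∀ z, T z → (y = z ∨ γ y z) → ¬ Dat ρ C CD FD x z := by
        rintro z hz (rfl | h)
        · exact hB
        · exact absurd h (hlast z hz)
      rw [← hLV x y hx ⟨hy, hlast⟩]
      constructor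
      · intro h
        exact Or.inr ⟨hall, h⟩
      · rintro (⟨z, hz, hyz, hd, _⟩ | ⟨_, h⟩)
        · exact absurd hd (hall z hz hyz)
        · exact h
    · push Not at hlast
      obtain ⟨v, hv, hyv⟩ := hlast
      obtain ⟨y', hy'⟩ := ReadAux.exists_nxt hγ hy hv hyv
      obtain ⟨hA1, hA2⟩ := ReadAux.claimA hρ hγ hC hCD hCV hFD hFV hy' x hx
      by_cases hd : Dat ρ C CD FD x y
      · rw [← hA2 hd]
        constructor
        · intro h
          refine Or.inl ⟨y, hy, Or.inl rfl, hd, ?_, h⟩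
          rintro w hw (rfl | h1) h2
          · exact absurd h2 (hγ.1 y hy)
          · exact absurd (hγ.2.1 y w y hy hw hy h1 h2) (hγ.1 y hy)
        · rintro (⟨z, hz, hyz, _, hmin, h⟩ | ⟨h, _⟩)
          · rcases hyz with rfl | hyz
            · exact h
            · exact absurd hd (hmin y hy (Or.inl rfl) hyz)
          · exact absurd hd (h y hy (Or.inl rfl))
      · have hM : M x y ↔ M x y' := by
          by_contra hcon
          exact hd (hA1.2 hcon)
        rw [hM, ih y' ⟨hy'.2.1, hy, hy'.2.2.1⟩ hy'.2.1]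
        have hge : ∀ z, T z → Dat ρ C CD FD x z →
            ((y = z ∨ γ y z) ↔ (y' = z ∨ γ y' z)) := by
          intro z hz hdz
          rw [← ReadAux.ge_iff hγ hy' hz]
          constructor
          · rintro (rfl | h)
            · exact absurd hdz hd
            · exact h
          · exact Or.inr
        unfold Rd
        refine or_congr (exists_congr fun z => ?_) (and_congr_left fun _ => ?_)
        · constructor
          · rintro ⟨hz, h1, h2, h3, h4⟩
            exact ⟨hz, (hge z hz h2).2 h1, h2,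
              fun w hw h5 h6 h7 => h3 w hw ((hge w hw h7).1 h5) h6 h7, h4⟩
          · rintro ⟨hz, h1, h2, h3, h4⟩
            exact ⟨hz, (hge z hz h2).1 h1, h2,
              fun w hw h5 h6 h7 => h3 w hw ((hge w hw h7).2 h5) h6 h7, h4⟩
        · constructor
          · intro h z hz h1 h2
            exact h z hz ((hge z hz h2).1 h1) h2
          · intro h z hz h1 h2
            exact h z hz ((hge z hz h2).2 h1) h2

end P1346e8
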