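import Pool.Agent.Lib.P1346e8.Lib
import Pool.Agent.Lib.P1346e8.Read

/-!
# MODULE ReadDef: definability lemmas for corners and the reading formula (about 0.8 h)

STATEMENT. If the ingredients are uniformly definable in a family `F`, then so are `Nxt`, `Corner`,
`LastC`, `Dat` and `Rd`.

PROOF. Closure properties: `Fam.Def.and`, `or`, `imp`, `not`, `iff`, `ex`, `all`, `eq` and
`Fam.Def1.at`, `Fam.Def2.at`, `Fam.Def3.at`; the variables of `Def2 Q` are `v 0`, `v 1`, a variable under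
`∃`/`∀` is `v (Fin.last _)` and the earlier ones become `v (Fin.castSucc _)`.
-/

set_option autoImplicit false

namespace P1346e8

universe u

variable {ι : Type u} {β υ : Type} {F : Fam ι β υ}

private theorem def_nxt_at {S : (i : ι) → F.X i → Prop} {r : (i : ι) → F.X i → F.X i → Prop}
    (hS : F.Def1 S) (hr : F.Def2 r) {n : ℕ} (j k : Fin n) :
    F.Def (fun i (v : Fin n → F.X i) => Nxt (S i) (r i) (v j) (v k)) :=
  (hS.at j).and ((hS.at k).and ((hr.at j k).and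
    (Fam.Def.all (Q := fun i v z => S i z → ¬ (r i (v j) z ∧ r i z (v k)))
      ((hS.at (Fin.last n)).imp
        ((hr.at j.castSucc (Fin.last n)).and (hr.at (Fin.last n) k.castSucc)).not))))

theorem def2_nxt {S : (i : ι) → F.X i → Prop} {r : (i : ι) → F.X i → F.X i → Prop}
    (hS : F.Def1 S) (hr : F.Def2 r) : F.Def2 (fun i x y => Nxt (S i) (r i) x y) :=
  def_nxt_at hS hr 0 1

theorem def2_corner {S T : (i : ι) → F.X i → Prop} {ρ γ M : (i : ι) → F.X i → F.X i → Prop}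
    (hS : F.Def1 S) (hT : F.Def1 T) (hρ : F.Def2 ρ) (hγ : F.Def2 γ) (hM : F.Def2 M) :
    F.Def2 (fun i x y => Corner (S i) (ρ i) (T i) (γ i) (M i) x y) := by
  unfold Fam.Def2
  refine Fam.Def.ex (Q := fun i v x' => ∃ y', Nxt (S i) (ρ i) (v 0) x' ∧ Nxt (T i) (γ i) (v 1) y' ∧
    ¬ ((M i (v 0) (v 1) ↔ M i x' (v 1)) ∧ (M i (v 0) y' ↔ M i x' y')) ∧
    ¬ ((M i (v 0) (v 1) ↔ M i (v 0) y') ∧ (M i x' (v 1) ↔ M i x' y'))) ?_
  refine Fam.Def.ex (n := 3) (Q := fun i v y' => Nxt (S i) (ρ i) (v 0) (v 2) ∧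
    Nxt (T i) (γ i) (v 1) y' ∧
    ¬ ((M i (v 0) (v 1) ↔ M i (v 2) (v 1)) ∧ (M i (v 0) y' ↔ M i (v 2) y')) ∧
    ¬ ((M i (v 0) (v 1) ↔ M i (v 0) y') ∧ (M i (v 2) (v 1) ↔ M i (v 2) y'))) ?_
  exact (def_nxt_at hS hρ (n := 4) 0 2).and ((def_nxt_at hT hγ (n := 4) 1 3).and
    ((((hM.at (n := 4) 0 1).iff (hM.at 2 1)).and ((hM.at 0 3).iff (hM.at 2 3))).not.and
      (((hM.at (n := 4) 0 1).iff (hM.at 0 3)).and ((hM.at 2 1).iff (hM.at 2 3))).not))

private theorem def_lastC_at {ρ C : (i : ι) → F.X i → F.X i → Prop}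
    (hρ : F.Def2 ρ) (hC : F.Def2 C) {n : ℕ} (j k l : Fin n) :
    F.Def (fun i (v : Fin n → F.X i) => LastC (ρ i) (C i) (v j) (v k) (v l)) :=
  (hC.at l k).and ((hρ.at l j).and
    (Fam.Def.all (Q := fun i v u' => C i u' (v k) → ρ i u' (v j) → ¬ ρ i (v l) u')
      ((hC.at (Fin.last n) k.castSucc).imp
        ((hρ.at (Fin.last n) j.castSucc).imp (hρ.at l.castSucc (Fin.last n)).not))))

private theorem def_dat_at {ρ C CD : (i : ι) → F.X i → F.X i → Prop} {FD : (i : ι) → F.X i → Prop}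
    (hρ : F.Def2 ρ) (hC : F.Def2 C) (hCD : F.Def2 CD) (hFD : F.Def1 FD) {n : ℕ} (j k : Fin n) :
    F.Def (fun i (v : Fin n → F.X i) => Dat (ρ i) (C i) (CD i) (FD i) (v j) (v k)) :=
  (Fam.Def.ex (Q := fun i v u => LastC (ρ i) (C i) (v j) (v k) u ∧ CD i u (v k))
    ((def_lastC_at hρ hC j.castSucc k.castSucc (Fin.last n)).and
      (hCD.at (Fin.last n) k.castSucc))).or
  ((Fam.Def.all (Q := fun i v u => ¬ LastC (ρ i) (C i) (v j) (v k) u)
    (def_lastC_at hρ hC j.castSucc k.castSucc (Fin.last n)).not).and (hFD.at k))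

theorem def2_rd {T FD FV LV : (i : ι) → F.X i → Prop}
    {ρ γ C CD CV : (i : ι) → F.X i → F.X i → Prop}
    (hT : F.Def1 T) (hρ : F.Def2 ρ) (hγ : F.Def2 γ) (hC : F.Def2 C) (hCD : F.Def2 CD)
    (hCV : F.Def2 CV) (hFD : F.Def1 FD) (hFV : F.Def1 FV) (hLV : F.Def1 LV) :
    F.Def2 (fun i x y => Rd (T i) (ρ i) (γ i) (C i) (CD i) (CV i) (FD i) (FV i) (LV i) x y) := by
  unfold Fam.Def2
  refine Fam.Def.or ?_ ?_
  · refine Fam.Def.ex (Q := fun i v z => T i z ∧ (v 1 = z ∨ γ i (v 1) z) ∧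
      Dat (ρ i) (C i) (CD i) (FD i) (v 0) z ∧
      (∀ w, T i w → (v 1 = w ∨ γ i (v 1) w) → γ i w z →
        ¬ Dat (ρ i) (C i) (CD i) (FD i) (v 0) w) ∧ Dat (ρ i) (C i) (CV i) (FV i) (v 0) z) ?_
    refine (hT.at (n := 3) 2).and (((Fam.Def.eq F (n := 3) 1 2).or (hγ.at 1 2)).and
      ((def_dat_at hρ hC hCD hFD (n := 3) 0 2).and (Fam.Def.and ?_
        (def_dat_at hρ hC hCV hFV (n := 3) 0 2))))
    refine Fam.Def.all (n := 3) (Q := fun i v w => T i w → (v 1 = w ∨ γ i (v 1) w) →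
      γ i w (v 2) → ¬ Dat (ρ i) (C i) (CD i) (FD i) (v 0) w) ?_
    exact (hT.at (n := 4) 3).imp (((Fam.Def.eq F (n := 4) 1 3).or (hγ.at 1 3)).imp
      ((hγ.at (n := 4) 3 2).imp (def_dat_at hρ hC hCD hFD (n := 4) 0 3).not))
  · refine Fam.Def.and ?_ (hLV.at 0)
    refine Fam.Def.all (Q := fun i v z => T i z → (v 1 = z ∨ γ i (v 1) z) →
      ¬ Dat (ρ i) (C i) (CD i) (FD i) (v 0) z) ?_
    exact (hT.at (n := 3) 2).imp (((Fam.Def.eq F (n := 3) 1 2).or (hγ.at 1 2)).imp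
      (def_dat_at hρ hC hCD hFD (n := 3) 0 2).not)

end P1346e8
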