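import Pool.Agent.Lib.P1346e8.Enc
import Pool.Agent.Lib.P1346e8.ReadDef

/-!
# Composition of definability on one universe; the data of one block
-/

set_option autoImplicit false

namespace P1346e8

universe u

/-- If the basic relations of `G` (on the same sets) are definable in `F`, then so are all definable
relations of `G`. -/
theorem Fam.comp {ι : Type u} {β υ β' υ' : Type} {F : Fam ι β υ}
    (R' : (i : ι) → β' → F.X i → F.X i → Prop) (U' : (i : ι) → υ' → F.X i → Prop)
    (hR : ∀ b, F.Def2 (fun i => R' i b)) (hU : ∀ b, F.Def1 (fun i => U' i b)) {n : ℕ}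
    {Q : (i : ι) → (Fin n → F.X i) → Prop} (h : (Fam.mk F.X R' U').Def Q) : F.Def Q := by
  obtain ⟨Q', h1, h2⟩ := Fam.interp (F := F) (G := Fam.mk F.X R' U') (g := fun i a => a)
    (fun i a b hab => hab) ((Fam.Def.const F True one_pos).congr fun i v => by simp)
    (fun b => ⟨_, hR b, fun i x y => Iff.rfl⟩) (fun b => ⟨_, hU b, fun i x => Iff.rfl⟩) h
  exact h1.congr fun i v => (h2 i v).symm

section Block

variable {V : Type} {K : ℕ}

/-- The first element of `S`. -/
def IsFst (S : V → Prop) (r : V → V → Prop) (x : V) : Prop := S x ∧ ∀ z, S z → ¬ r z x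

/-- The last element of `T`. -/
def IsLst (T : V → Prop) (r : V → V → Prop) (y : V) : Prop := T y ∧ ∀ z, T z → ¬ r y z

/-- The corner `(x, y)` is the only one in its row with column colour `β` (`s = true`), or the only one
in its column with row colour `α` (`s = false`). -/
def FG (Cn : V → V → Prop) (c d : V → Fin K) (s : Bool) (α β : Fin K) (x y : V) : Prop :=
  Cn x y ∧ c x = α ∧ d y = β ∧
    ∀ z, if s then (Cn x z → d z = β → z = y) else (Cn z y → c z = α → z = x)

/-- The partial functions: `(row ↦ column)` for `s = true`, `(column ↦ row)` for `s = false`. -/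
def Fn (Cn : V → V → Prop) (c d : V → Fin K) (s : Bool) (α β : Fin K) (u v : V) : Prop :=
  if s then FG Cn c d true α β u v else FG Cn c d false α β v u

theorem fn_true (Cn : V → V → Prop) (c d : V → Fin K) (α β : Fin K) (x y : V) :
    Fn Cn c d true α β x y ↔ Cn x y ∧ c x = α ∧ d y = β ∧ ∀ z, Cn x z → d z = β → z = y := by
  simp [Fn, FG]

theorem fn_false (Cn : V → V → Prop) (c d : V → Fin K) (α β : Fin K) (x y : V) :
    Fn Cn c d false α β y x ↔ Cn x y ∧ c x = α ∧ d y = β ∧ ∀ z, Cn z y → c z = α → z = x := by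
  simp [Fn, FG]

theorem Fn_functional (Cn : V → V → Prop) (c d : V → Fin K) (s : Bool) (α β : Fin K) (u v v' : V)
    (h : Fn Cn c d s α β u v) (h' : Fn Cn c d s α β u v') : v = v' := by
  cases s
  · rw [fn_false] at h h'
    exact h'.2.2.2 v h.1 h.2.1
  · rw [fn_true] at h h'
    exact h'.2.2.2 v h.1 h.2.2.1

/-- The data of a corner: `b = true`: the entries in the next row differ; `b = false`: the value of the
left entry in the next row. -/
def Zd (S : V → Prop) (ρ : V → V → Prop) (T : V → Prop) (γ M : V → V → Prop) (b : Bool) (x y : V) :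
    Prop :=
  if b then ∃ x', Nxt S ρ x x' ∧ ∃ y', Nxt T γ y y' ∧ ¬ (M x' y ↔ M x' y')
  else ∃ x', Nxt S ρ x x' ∧ M x' y

/-- The data stored as unary predicates. -/
def Zu (Cn : V → V → Prop) (c d : V → Fin K) (Z : V → V → Prop) (s : Bool) (α β : Fin K) (u : V) :
    Prop :=
  ∃ v, Fn Cn c d s α β u v ∧ if s then Z u v else Z v u

/-- The data read from the unary predicates. -/
def Zr (Cn : V → V → Prop) (c d : V → Fin K) (Z : V → V → Prop) (x y : V) : Prop :=
  ∃ α β, (Fn Cn c d true α β x y ∧ Zu Cn c d Z true α β x) ∨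
    (Fn Cn c d false α β y x ∧ Zu Cn c d Z false α β y)

theorem Zr_iff (Cn : V → V → Prop) (c d : V → Fin K) (Z : V → V → Prop)
    (hst : ∀ x y, Cn x y → (∀ y', Cn x y' → d y' = d y → y' = y) ∨
      (∀ x', Cn x' y → c x' = c x → x' = x)) (x y : V) (h : Cn x y) :
    Zr Cn c d Z x y ↔ Z x y := by
  constructor
  · rintro ⟨α, β, ⟨h1, v, hv, hz⟩ | ⟨h1, v, hv, hz⟩⟩
    · have := Fn_functional _ _ _ _ _ _ _ _ _ h1 hv
      subst this
      simpa using hz
    · have := Fn_functional _ _ _ _ _ _ _ _ _ h1 hv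
      subst this
      simpa using hz
  · intro hz
    refine ⟨c x, d y, ?_⟩
    rcases hst x y h with h1 | h1
    · left
      have : Fn Cn c d true (c x) (d y) x y :=
        (fn_true _ _ _ _ _ _ _).2 ⟨h, rfl, rfl, fun z hz hz' => h1 z hz hz'⟩
      exact ⟨this, y, this, by simpa using hz⟩
    · right
      have : Fn Cn c d false (c x) (d y) y x :=
        (fn_false _ _ _ _ _ _ _).2 ⟨h, rfl, rfl, fun z hz hz' => h1 z hz hz'⟩
      exact ⟨this, x, this, by simpa using hz⟩

/-- The corners read from the functions. -/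
def Cr (Cn : V → V → Prop) (c d : V → Fin K) (x y : V) : Prop :=
  ∃ α β, Fn Cn c d true α β x y ∨ Fn Cn c d false α β y x

theorem Cr_iff (Cn : V → V → Prop) (c d : V → Fin K)
    (hst : ∀ x y, Cn x y → (∀ y', Cn x y' → d y' = d y → y' = y) ∨
      (∀ x', Cn x' y → c x' = c x → x' = x)) (x y : V) :
    Cr Cn c d x y ↔ Cn x y := by
  constructor
  · rintro ⟨α, β, h1 | h1⟩
    · exact ((fn_true _ _ _ _ _ _ _).1 h1).1
    · exact ((fn_false _ _ _ _ _ _ _).1 h1).1
  · intro h
    refine ⟨c x, d y, ?_⟩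
    rcases hst x y h with h1 | h1
    · left
      exact (fn_true _ _ _ _ _ _ _).2 ⟨h, rfl, rfl, fun z hz hz' => h1 z hz hz'⟩
    · right
      exact (fn_false _ _ _ _ _ _ _).2 ⟨h, rfl, rfl, fun z hz hz' => h1 z hz hz'⟩

/-- Data of the first row and of the last column. -/
def Fst3 (S : V → Prop) (ρ : V → V → Prop) (T : V → Prop) (γ M : V → V → Prop) (e : Fin 3) (y : V) :
    Prop :=
  if e = 0 then ∃ x, IsFst S ρ x ∧ ∃ y', Nxt T γ y y' ∧ ¬ (M x y ↔ M x y')
  else if e = 1 then ∃ x, IsFst S ρ x ∧ M x y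
  else ∃ z, IsLst T γ z ∧ M y z

theorem StrictLin.irrefl {S : V → Prop} {r : V → V → Prop} (h : StrictLin S r) {x : V} (hx : S x) :
    ¬ r x x := h.1 x hx

theorem StrictLin.trans' {S : V → Prop} {r : V → V → Prop} (h : StrictLin S r) {x y z : V}
    (hx : S x) (hy : S y) (hz : S z) (h1 : r x y) (h2 : r y z) : r x z := h.2.1 x y z hx hy hz h1 h2

theorem nxt_unique {S : V → Prop} {r : V → V → Prop} (h : StrictLin S r) {x y z : V}
    (h1 : Nxt S r x y) (h2 : Nxt S r x z) : y = z := by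
  by_contra hne
  rcases h.2.2 y z h1.2.1 h2.2.1 hne with h3 | h3
  · exact h2.2.2.2 y h1.2.1 ⟨h1.2.2.1, h3⟩
  · exact h1.2.2.2 z h2.2.1 ⟨h2.2.2.1, h3⟩

theorem isFst_unique {S : V → Prop} {r : V → V → Prop} (h : StrictLin S r) {x y : V}
    (h1 : IsFst S r x) (h2 : IsFst S r y) : x = y := by
  by_contra hne
  rcases h.2.2 x y h1.1 h2.1 hne with h3 | h3
  · exact h2.2 x h1.1 h3
  · exact h1.2 y h2.1 h3

theorem isLst_unique {S : V → Prop} {r : V → V → Prop} (h : StrictLin S r) {x y : V}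
    (h1 : IsLst S r x) (h2 : IsLst S r y) : x = y := by
  by_contra hne
  rcases h.2.2 x y h1.1 h2.1 hne with h3 | h3
  · exact h1.2 y h2.1 h3
  · exact h2.2 x h1.1 h3

/-- The matrix is read from the functions, the unary data and the orders. -/
theorem read_block [Finite V] (S T : V → Prop) (ρ γ M : V → V → Prop) (hρ : StrictLin S ρ)
    (hγ : StrictLin T γ) (hM : ∀ x y, M x y → S x ∧ T y) (c d : V → Fin K)
    (hst : ∀ x y, Corner S ρ T γ M x y →
      (∀ y', Corner S ρ T γ M x y' → d y' = d y → y' = y) ∨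
      (∀ x', Corner S ρ T γ M x' y → c x' = c x → x' = x)) (x y : V) :
    M x y ↔ S x ∧ T y ∧ Rd T ρ γ (Cr (Corner S ρ T γ M) c d)
      (Zr (Corner S ρ T γ M) c d (Zd S ρ T γ M true))
      (Zr (Corner S ρ T γ M) c d (Zd S ρ T γ M false))
      (Fst3 S ρ T γ M 0) (Fst3 S ρ T γ M 1) (Fst3 S ρ T γ M 2) x y := by
  have key := read S T ρ γ M hρ hγ (Cr (Corner S ρ T γ M) c d)
    (Zr (Corner S ρ T γ M) c d (Zd S ρ T γ M true))
    (Zr (Corner S ρ T γ M) c d (Zd S ρ T γ M false))
    (Fst3 S ρ T γ M 0) (Fst3 S ρ T γ M 1) (Fst3 S ρ T γ M 2)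
    (fun x y => Cr_iff _ _ _ hst x y) ?_ ?_ ?_ ?_ ?_
  · constructor
    · intro h
      obtain ⟨h1, h2⟩ := hM x y h
      exact ⟨h1, h2, (key x y h1 h2).1 h⟩
    · rintro ⟨h1, h2, h3⟩
      exact (key x y h1 h2).2 h3
  · intro x y x' y' hc hx hy
    rw [Cr_iff _ _ _ hst] at hc
    rw [Zr_iff _ _ _ _ hst _ _ hc]
    simp only [Zd, if_true]
    constructor
    · rintro ⟨x'', hx'', y'', hy'', h⟩
      rw [nxt_unique hρ hx hx'', nxt_unique hγ hy hy'']
      exact h
    · intro h
      exact ⟨x', hx, y', hy, h⟩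
  · intro x y x' y' hc hx hy
    rw [Cr_iff _ _ _ hst] at hc
    rw [Zr_iff _ _ _ _ hst _ _ hc]
    simp only [Zd, Bool.false_eq_true, if_false]
    constructor
    · rintro ⟨x'', hx'', h⟩
      rw [nxt_unique hρ hx hx'']
      exact h
    · intro h
      exact ⟨x', hx, h⟩
  · intro y
    simp only [Fst3, if_true]
    constructor
    · rintro ⟨x, hx, y', hy, h⟩
      exact ⟨x, y', hx, hy, h⟩
    · rintro ⟨x, y', hx, hy, h⟩
      exact ⟨x, hx, y', hy, h⟩
  · intro x y hx hy
    simp only [Fst3, one_ne_zero, if_false, if_true]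
    constructor
    · rintro ⟨x', hx', h⟩
      rw [isFst_unique hρ (show IsFst S ρ x from hx) hx']
      exact h
    · intro h
      exact ⟨x, hx, h⟩
  · intro x y hx hy
    simp only [Fst3]
    constructor
    · intro h
      have h' : ∃ z, IsLst T γ z ∧ M x z := by simpa using h
      obtain ⟨z, hz, h'⟩ := h'
      rw [isLst_unique hγ (show IsLst T γ y from hy) hz]
      exact h'
    · intro h
      have : ∃ z, IsLst T γ z ∧ M x z := ⟨y, hy, h⟩
      simpa using this

end Block

end P1346e8
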