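import Pool.Agent.Lib.P1346e8.Lib

/-!
# Families of copies, and transductions from definable relations
-/

set_option autoImplicit false

namespace P1346e8

universe u

/-- The family of structures `A i` with unary predicates `U i`. -/
def baseFam {ι : Type u} {υ : Type} (A : ι → Str) (U : (i : ι) → υ → (A i).V → Prop) :
    Fam ι (Fin 2) υ :=
  ⟨fun i => (A i).V, fun i => (A i).r, U⟩

/-- The family of the copies of the structures `A i` with unary predicates `W i`. -/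
def copyFam {ι : Type u} {υ : Type} (A : ι → Str) (κ : Type) (W : (i : ι) → υ → (A i).V × κ → Prop) :
    Fam ι (Option (Fin 2)) (κ ⊕ υ) :=
  ⟨fun i => (A i).V × κ, fun i => copyRel (A i) κ, fun i => copyUn (A i) κ υ (W i)⟩

theorem lift1 {ι : Type u} {υ₀ υ κ : Type} [Nonempty κ] (A : ι → Str)
    (U : (i : ι) → υ₀ → (A i).V → Prop) (W : (i : ι) → υ → (A i).V × κ → Prop) (e : υ₀ → υ)
    (he : ∀ i u x, W i (e u) x ↔ U i u x.1) {Q : (i : ι) → (A i).V → Prop}
    (h : (baseFam A U).Def1 Q) : (copyFam A κ W).Def1 (fun i x => Q i x.1) := by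
  obtain ⟨c0⟩ := (inferInstance : Nonempty κ)
  let F := copyFam A κ W
  let G := baseFam A U
  have hran : F.Def1 (fun i x => ∃ a : G.X i, ((a, c0) : (A i).V × κ) = x) := by
    refine (Fam.Def.un F (Sum.inl c0) 0).congr fun i v => ?_
    constructor
    · rintro ⟨a, ha⟩
      exact (congrArg Prod.snd ha).symm
    · intro hv
      have hv' : (v 0 : (A i).V × κ).2 = c0 := hv
      exact ⟨(v 0 : (A i).V × κ).1, Prod.ext rfl hv'.symm⟩
  obtain ⟨Q', h1, h2⟩ := Fam.interp (F := F) (G := G) (g := fun i a => (a, c0))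
    (fun i a b hab => (Prod.mk.inj hab).1) hran
    (fun b => ⟨fun i x y => F.R i (some b) x y, Fam.Def.bin F (some b) 0 1, fun i x y => by
      change (c0 = c0 ∧ (A i).r b x y) ↔ (A i).r b x y
      simp⟩)
    (fun u => ⟨fun i x => F.U i (Sum.inr (e u)) x, Fam.Def.un F (Sum.inr (e u)) 0, fun i x => by
      change W i (e u) (x, c0) ↔ U i u x
      exact he i u _⟩) h
  have hD : F.Def (n := 1) (fun i v => ∃ a, F.U i (Sum.inl c0) a ∧ F.R i none a (v 0) ∧
      Q' i (fun _ => a)) := by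
    refine Fam.Def.ex ?_
    refine Fam.Def.and (Fam.Def.un F _ _) (Fam.Def.and (Fam.Def.bin F _ _ _) ?_)
    exact Fam.Def.subst h1 (fun _ => Fin.last 1)
  refine hD.congr fun i v => ?_
  constructor
  · intro hq
    refine ⟨((v 0 : (A i).V × κ).1, c0), rfl, rfl, ?_⟩
    exact (h2 i (fun _ => (v 0 : (A i).V × κ).1)).2 hq
  · rintro ⟨a, ha, hr, hq⟩
    have ha' : (a : (A i).V × κ).2 = c0 := ha
    have hr' : (a : (A i).V × κ).1 = (v 0 : (A i).V × κ).1 := hr
    have : a = ((v 0 : (A i).V × κ).1, c0) := Prod.ext hr' ha'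
    rw [this] at hq
    exact (h2 i (fun _ => (v 0 : (A i).V × κ).1)).1 hq

theorem lift2 {ι : Type u} {υ₀ υ κ : Type} [Nonempty κ] (A : ι → Str)
    (U : (i : ι) → υ₀ → (A i).V → Prop) (W : (i : ι) → υ → (A i).V × κ → Prop) (e : υ₀ → υ)
    (he : ∀ i u x, W i (e u) x ↔ U i u x.1) {Q : (i : ι) → (A i).V → (A i).V → Prop}
    (h : (baseFam A U).Def2 Q) : (copyFam A κ W).Def2 (fun i x y => Q i x.1 y.1) := by
  obtain ⟨c0⟩ := (inferInstance : Nonempty κ)
  let F := copyFam A κ W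
  let G := baseFam A U
  have hran : F.Def1 (fun i x => ∃ a : G.X i, ((a, c0) : (A i).V × κ) = x) := by
    refine (Fam.Def.un F (Sum.inl c0) 0).congr fun i v => ?_
    constructor
    · rintro ⟨a, ha⟩
      exact (congrArg Prod.snd ha).symm
    · intro hv
      have hv' : (v 0 : (A i).V × κ).2 = c0 := hv
      exact ⟨(v 0 : (A i).V × κ).1, Prod.ext rfl hv'.symm⟩
  obtain ⟨Q', h1, h2⟩ := Fam.interp (F := F) (G := G) (g := fun i a => (a, c0))
    (fun i a b hab => (Prod.mk.inj hab).1) hran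
    (fun b => ⟨fun i x y => F.R i (some b) x y, Fam.Def.bin F (some b) 0 1, fun i x y => by
      change (c0 = c0 ∧ (A i).r b x y) ↔ (A i).r b x y
      simp⟩)
    (fun u => ⟨fun i x => F.U i (Sum.inr (e u)) x, Fam.Def.un F (Sum.inr (e u)) 0, fun i x => by
      change W i (e u) (x, c0) ↔ U i u x
      exact he i u _⟩) h
  have hD : F.Def (n := 2) (fun i v => ∃ a, (F.U i (Sum.inl c0) a ∧ F.R i none a (v 0)) ∧
      ∃ b, (F.U i (Sum.inl c0) b ∧ F.R i none b (v 1)) ∧ Q' i ![a, b]) := by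
    refine Fam.Def.ex (Fam.Def.and (Fam.Def.and (Fam.Def.un F _ _) (Fam.Def.bin F _ _ _))
      (Fam.Def.ex (Fam.Def.and (Fam.Def.and (Fam.Def.un F _ _) (Fam.Def.bin F _ _ _)) ?_)))
    refine (Fam.Def.subst h1 ![(2 : Fin 4), 3]).congr fun i v => ?_
    refine iff_of_eq (congrArg _ ?_)
    funext j
    fin_cases j <;> rfl
  refine hD.congr fun i v => ?_
  have key : Q' i ![((v 0 : (A i).V × κ).1, c0), ((v 1 : (A i).V × κ).1, c0)] ↔
      Q i (v 0 : (A i).V × κ).1 (v 1 : (A i).V × κ).1 := by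
    refine Iff.trans (iff_of_eq (congrArg _ ?_)) (h2 i ![(v 0 : (A i).V × κ).1, (v 1 : (A i).V × κ).1])
    funext j
    fin_cases j <;> rfl
  constructor
  · intro hq
    exact ⟨((v 0 : (A i).V × κ).1, c0), ⟨rfl, rfl⟩, ((v 1 : (A i).V × κ).1, c0), ⟨rfl, rfl⟩,
      key.2 hq⟩
  · rintro ⟨a, ⟨ha, hr⟩, b, ⟨hb, hs⟩, hq⟩
    have ha' : (a : (A i).V × κ).2 = c0 := ha
    have hr' : (a : (A i).V × κ).1 = (v 0 : (A i).V × κ).1 := hr
    have hb' : (b : (A i).V × κ).2 = c0 := hb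
    have hs' : (b : (A i).V × κ).1 = (v 1 : (A i).V × κ).1 := hs
    have e1 : a = ((v 0 : (A i).V × κ).1, c0) := Prod.ext hr' ha'
    have e2 : b = ((v 1 : (A i).V × κ).1, c0) := Prod.ext hs' hb'
    rw [e1, e2] at hq
    exact key.1 hq

/-- A transduction from definable relations. -/
theorem trans_of_def {ι : Type u} (C D : Set Str) (A B : ι → Str) (hA : ∀ i, A i ∈ D)
    (hB : ∀ X ∈ C, ∃ i, B i = X) (κ υ : Type) [Finite κ] [Nonempty κ] [Finite υ]
    (W : (i : ι) → υ → (A i).V × κ → Prop) (f : (i : ι) → (B i).V → (A i).V × κ)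
    (hf : ∀ i, Function.Injective (f i))
    (hran : (copyFam A κ W).Def1 (fun i x => ∃ b, f i b = x))
    (hrel : ∀ j : Fin 2, ∃ Q : (i : ι) → (A i).V × κ → (A i).V × κ → Prop,
      (copyFam A κ W).Def2 Q ∧ ∀ i b b', Q i (f i b) (f i b') ↔ (B i).r j b b') :
    IsTransductionOf C D := by
  obtain ⟨φ, hφ⟩ := hran.fml
  choose Q hQ hQ' using hrel
  choose ψ hψ using fun j => (hQ j).fml
  refine ⟨⟨κ, υ, inferInstance, inferInstance, inferInstance, φ, ψ⟩, fun X hX => ?_⟩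
  obtain ⟨i, rfl⟩ := hB X hX
  exact ⟨A i, hA i, W i, f i, hf i, fun x => hφ i x, fun j b b' =>
    (hQ' j i b b').symm.trans (hψ j i _ _)⟩

end P1346e8
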