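import Mathlib

/-!
# MP_1346e8_lc: ordered graphs, permutations, first-order formulas, transductions

Definitions used by the hand-in.
-/

set_option autoImplicit false

namespace P1346e8

/-- A finite structure with two binary relations `r 0` and `r 1`. -/
structure Str where
  V : Type
  fin : Finite V
  r : Fin 2 → V → V → Prop

/-- `r` is a strict linear order on the set `S`. -/
def StrictLin {V : Type} (S : V → Prop) (r : V → V → Prop) : Prop :=
  (∀ x, S x → ¬ r x x) ∧ (∀ x y z, S x → S y → S z → r x y → r y z → r x z) ∧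
    ∀ x y, S x → S y → x ≠ y → r x y ∨ r y x

/-- An ordered graph: `r 0` is the adjacency relation of a simple graph, `r 1` is a linear order. -/
def Str.IsOrderedGraph (A : Str) : Prop :=
  (∀ x, ¬ A.r 0 x x) ∧ (∀ x y, A.r 0 x y → A.r 0 y x) ∧ StrictLin (fun _ => True) (A.r 1)

/-- A permutation: both relations are linear orders. -/
def Str.IsPerm (A : Str) : Prop := ∀ i, StrictLin (fun _ => True) (A.r i)

/-- `B` is isomorphic to an induced substructure of `A`. -/
def Str.Embeds (B A : Str) : Prop :=
  ∃ f : B.V → A.V, Function.Injective f ∧ ∀ i x y, B.r i x y ↔ A.r i (f x) (f y)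

/-- A permutation class: permutations, closed under isomorphism and induced substructures. -/
def IsPermClass (P : Set Str) : Prop :=
  (∀ A ∈ P, A.IsPerm) ∧ ∀ A ∈ P, ∀ B : Str, B.Embeds A → B ∈ P

/-- First-order formulas with equality, binary relation symbols `β`, unary relation symbols `υ`, and
`n` free variables. -/
inductive Fml (β υ : Type) : ℕ → Type
  | eq {n : ℕ} : Fin n → Fin n → Fml β υ n
  | bin {n : ℕ} : β → Fin n → Fin n → Fml β υ n
  | un {n : ℕ} : υ → Fin n → Fml β υ n
  | neg {n : ℕ} : Fml β υ n → Fml β υ n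
  | and {n : ℕ} : Fml β υ n → Fml β υ n → Fml β υ n
  | ex {n : ℕ} : Fml β υ (n + 1) → Fml β υ n

/-- Satisfaction of a formula in the structure on `X` with binary relations `R` and unary relations
`U`, under the assignment `v`. -/
def Fml.Sat {β υ X : Type} (R : β → X → X → Prop) (U : υ → X → Prop) :
    {n : ℕ} → Fml β υ n → (Fin n → X) → Prop
  | _, .eq i j, v => v i = v j
  | _, .bin b i j, v => R b (v i) (v j)
  | _, .un u i, v => U u (v i)
  | _, .neg φ, v => ¬ φ.Sat R U v
  | _, .and φ ψ, v => φ.Sat R U v ∧ ψ.Sat R U v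
  | _, .ex φ, v => ∃ a : X, φ.Sat R U (Fin.snoc v a)

/-- A transduction: copies indexed by the finite non-empty type `κ`, additional unary predicates
indexed by the finite type `υ`, a formula for the new domain and one for each target relation. The
binary symbol `none` links the copies of one element, `some i` is the relation `r i`; the unary
symbols are the names of the copies and the additional predicates. -/
structure Transd where
  κ : Type
  υ : Type
  finκ : Finite κ
  neκ : Nonempty κ
  finυ : Finite υ
  dom : Fml (Option (Fin 2)) (κ ⊕ υ) 1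
  rel : Fin 2 → Fml (Option (Fin 2)) (κ ⊕ υ) 2

/-- The binary relations of the disjoint copies of `A`. -/
def copyRel (A : Str) (κ : Type) : Option (Fin 2) → A.V × κ → A.V × κ → Prop
  | none, x, y => x.1 = y.1
  | some i, x, y => x.2 = y.2 ∧ A.r i x.1 y.1

/-- The unary relations on the disjoint copies of `A`: names of the copies and a given expansion. -/
def copyUn (A : Str) (κ υ : Type) (U : υ → A.V × κ → Prop) : κ ⊕ υ → A.V × κ → Prop
  | .inl c, x => x.2 = c
  | .inr u, x => U u x

/-- `B` belongs to `T(A)`. -/
def Transd.Out (T : Transd) (A B : Str) : Prop :=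
  ∃ U : T.υ → A.V × T.κ → Prop, ∃ f : B.V → A.V × T.κ, Function.Injective f ∧
    (∀ x, (∃ b, f b = x) ↔ T.dom.Sat (copyRel A T.κ) (copyUn A T.κ T.υ U) ![x]) ∧
    ∀ i b b', B.r i b b' ↔ (T.rel i).Sat (copyRel A T.κ) (copyUn A T.κ T.υ U) ![f b, f b']

/-- The class `C` is a transduction of the class `D`. -/
def IsTransductionOf (C D : Set Str) : Prop := ∃ T : Transd, ∀ B ∈ C, ∃ A ∈ D, T.Out A B

/-- `x'` is the element of `S` next after `x` in the order `r`. -/
def Nxt {V : Type} (S : V → Prop) (r : V → V → Prop) (x x' : V) : Prop :=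
  S x ∧ S x' ∧ r x x' ∧ ∀ z, S z → ¬ (r x z ∧ r z x')

/-- Rows `S` ordered by `ρ`, columns `T` ordered by `γ`: the contiguous `2 × 2` submatrix of `M` that
starts at row `x` and column `y` has two different rows and two different columns. -/
def Corner {V : Type} (S : V → Prop) (ρ : V → V → Prop) (T : V → Prop) (γ : V → V → Prop)
    (M : V → V → Prop) (x y : V) : Prop :=
  ∃ x' y', Nxt S ρ x x' ∧ Nxt T γ y y' ∧
    ¬ ((M x y ↔ M x' y) ∧ (M x y' ↔ M x' y')) ∧ ¬ ((M x y ↔ M x y') ∧ (M x' y ↔ M x' y'))

/-- The relation `P` contains no complete bipartite `K_{t,t}` (`t` left and `t` right elements, all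
pairs related). -/
def BicliqueFree {V : Type} (t : ℕ) (P : V → V → Prop) : Prop :=
  ¬ ∃ f g : Fin t → V, Function.Injective f ∧ Function.Injective g ∧ ∀ i j, P (f i) (g j)

end P1346e8
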