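import Pool.Agent.Lib.P1346e8.Copy

/-!
# Encoding of partial functions and linear orders in a permutation (definitions)

Data on a set `V` with a strict linear order `lt`: partial functions `f j` (as functional relations),
and strict linear orders `lam l` on subsets `S l`.  The encoding is the permutation on the elements
`(v, none)`, `(v, inl j)` for `f j v` defined, `(v, inr l)` for `v ∈ S l`, with `<₁` lexicographic by
`v`, and `<₂`: `(v, none)` at `v`, `(v, inl j)` immediately after `f j v`, and at the end one block for
each `l`, ordered by `lam l`.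
-/

set_option autoImplicit false

namespace P1346e8

universe u

/-- The kinds of elements of the encoding. -/
abbrev Kind (p q : ℕ) := Option (Fin p ⊕ Fin q)

/-- A strict linear order on the kinds; `none` is the least. -/
def kindLt {p q : ℕ} : Kind p q → Kind p q → Prop
  | none, none => False
  | none, some _ => True
  | some _, none => False
  | some (.inl j), some (.inl j') => j < j'
  | some (.inl _), some (.inr _) => True
  | some (.inr _), some (.inl _) => False
  | some (.inr l), some (.inr l') => l < l'

/-- A linear order, partial functions and linear orders on subsets. -/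
structure FDat (V : Type) (p q : ℕ) where
  lt : V → V → Prop
  f : Fin p → V → V → Prop
  S : Fin q → V → Prop
  lam : Fin q → V → V → Prop

structure FDat.Good {V : Type} {p q : ℕ} (D : FDat V p q) : Prop where
  lt : StrictLin (fun _ => True) D.lt
  f : ∀ j x y y', D.f j x y → D.f j x y' → y = y'
  lam : ∀ l, StrictLin (D.S l) (D.lam l)

variable {V : Type} {p q : ℕ}

/-- The elements of the encoding. -/
def FDat.dom (D : FDat V p q) : V × Kind p q → Prop
  | (_, none) => True
  | (v, some (.inl j)) => ∃ w, D.f j v w
  | (v, some (.inr l)) => D.S l v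

/-- The first order. -/
def FDat.lt1 (D : FDat V p q) (x y : V × Kind p q) : Prop :=
  D.lt x.1 y.1 ∨ (x.1 = y.1 ∧ kindLt x.2 y.2)

/-- The second order, by kinds. -/
def FDat.lt2k (D : FDat V p q) : Kind p q → Kind p q → V → V → Prop
  | none, none, v, w => D.lt v w
  | none, some (.inl j), v, w => ∃ b, D.f j w b ∧ (D.lt v b ∨ v = b)
  | none, some (.inr _), _, _ => True
  | some (.inl j), none, v, w => ∃ a, D.f j v a ∧ D.lt a w
  | some (.inl j), some (.inl j'), v, w => ∃ a, D.f j v a ∧ ∃ b, D.f j' w b ∧
      (D.lt a b ∨ (a = b ∧ (j < j' ∨ (j = j' ∧ D.lt v w))))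
  | some (.inl _), some (.inr _), _, _ => True
  | some (.inr _), none, _, _ => False
  | some (.inr _), some (.inl _), _, _ => False
  | some (.inr l), some (.inr l'), v, w => l < l' ∨ (l = l' ∧ D.lam l v w)

/-- The second order. -/
def FDat.lt2 (D : FDat V p q) (x y : V × Kind p q) : Prop := D.lt2k x.2 y.2 x.1 y.1

/-- The encoding. -/
def FDat.str (D : FDat V p q) (h : Finite V) : Str where
  V := {x : V × Kind p q // D.dom x}
  fin := inferInstance
  r := ![fun x y => D.lt1 x.1 y.1, fun x y => D.lt2 x.1 y.1]

/-- The base element of `v`. -/
def FDat.base (D : FDat V p q) (h : Finite V) (v : V) : (D.str h).V := ⟨(v, none), trivial⟩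

/-- The family of the structures `(V; lt, f j, lam l; U, S l)`. -/
def fdFam {ι : Type u} {υ : Type} (A : ι → Str) (U : (i : ι) → υ → (A i).V → Prop)
    (D : (i : ι) → FDat (A i).V p q) : Fam ι (Option (Fin p ⊕ Fin q)) (υ ⊕ Fin q) where
  X i := (A i).V
  R i b := match b with
    | none => (D i).lt
    | some (.inl j) => (D i).f j
    | some (.inr l) => fun x y => (D i).S l x ∧ (D i).S l y ∧ (D i).lam l x y
  U i b := match b with
    | .inl b => U i b
    | .inr l => (D i).S l

/-- The family of the encodings, with unary predicates for the kinds and for the predicates `U` of the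
base elements. -/
def encFam {ι : Type u} {υ : Type} (A : ι → Str) (U : (i : ι) → υ → (A i).V → Prop)
    (D : (i : ι) → FDat (A i).V p q) : Fam ι (Fin 2) (Kind p q ⊕ υ) :=
  baseFam (fun i => (D i).str (A i).fin) (fun i b x => match b with
    | .inl c => x.1.2 = c
    | .inr b => U i b x.1.1)

end P1346e8
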