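import Pool.Agent.Lib.P1346e8.Enc

/-!
# MODULE EncPerm: the encoding is a permutation (about 1.2 h)

STATEMENT. If `D` is good (lt is a strict linear order on `V`, the `f j` are functional, `lam l` is a
strict linear order on `S l`), then both orders of the encoding `D.str` are strict linear orders.

PROOF. `lt1` is the lexicographic product of `lt` and `kindLt` (a strict linear order on the finite set
of kinds).  `lt2`: give `(v, none)` the key `(v, bottom)`, `(v, inl j)` the key `(f j v, (j, v))`
(lexicographic; bottom below everything), in a first block, and `(v, inr l)` the key `(l, v)` in a second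
block (`l` first, then `lam l`).  Irreflexivity, transitivity (27 combinations of kinds, 3 for each
element) and totality (9 combinations) are direct; `f j` functional is needed (the value `a` with
`f j v a` is unique), and for the elements of kind `inr l` the membership `S l v` (from `dom`) is needed
to use `lam l`.  Either a case bash, or: show that each relation is `fun x y => key x < key y` with an
injective `key` into a linear order (for the lam-blocks use the rank: the number of elements of `S l`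
that are `lam l`-below `v`; `V` is finite).
-/

set_option autoImplicit false

namespace P1346e8

namespace EncPermAux

theorem kindLt_irrefl {p q : ℕ} : ∀ c : Kind p q, ¬ kindLt c c
  | none => fun h => h
  | some (.inl j) => fun h => lt_irrefl j h
  | some (.inr l) => fun h => lt_irrefl l h

theorem kindLt_trans {p q : ℕ} : ∀ c d e : Kind p q, kindLt c d → kindLt d e → kindLt c e
  | none, none, _ => fun h _ => h.elim
  | none, some _, none => fun _ h => h.elim
  | none, some _, some _ => fun _ _ => trivial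
  | some (.inl _), none, _ => fun h _ => h.elim
  | some (.inr _), none, _ => fun h _ => h.elim
  | some (.inl _), some (.inl _), none => fun _ h => h.elim
  | some (.inl _), some (.inl _), some (.inl _) => fun h h' => lt_trans (α := Fin p) h h'
  | some (.inl _), some (.inl _), some (.inr _) => fun _ _ => trivial
  | some (.inl _), some (.inr _), none => fun _ h => h.elim
  | some (.inl _), some (.inr _), some (.inl _) => fun _ h => h.elim
  | some (.inl _), some (.inr _), some (.inr _) => fun _ _ => trivial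
  | some (.inr _), some (.inl _), _ => fun h _ => h.elim
  | some (.inr _), some (.inr _), none => fun _ h => h.elim
  | some (.inr _), some (.inr _), some (.inl _) => fun _ h => h.elim
  | some (.inr _), some (.inr _), some (.inr _) => fun h h' => lt_trans (α := Fin q) h h'

theorem kindLt_total {p q : ℕ} : ∀ c d : Kind p q, c ≠ d → kindLt c d ∨ kindLt d c
  | none, none => fun h => (h rfl).elim
  | none, some _ => fun _ => Or.inl trivial
  | some _, none => fun _ => Or.inr trivial
  | some (.inl j), some (.inl j') => fun h => by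
      rcases lt_trichotomy j j' with h1 | h1 | h1
      · exact Or.inl h1
      · exact (h (by rw [h1])).elim
      · exact Or.inr h1
  | some (.inl _), some (.inr _) => fun _ => Or.inl trivial
  | some (.inr _), some (.inl _) => fun _ => Or.inr trivial
  | some (.inr l), some (.inr l') => fun h => by
      rcases lt_trichotomy l l' with h1 | h1 | h1
      · exact Or.inl h1
      · exact (h (by rw [h1])).elim
      · exact Or.inr h1

variable {V : Type} {p q : ℕ}

theorem lt1_lin (D : FDat V p q) (hD : D.Good) :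
    StrictLin (fun _ => True) (fun x y : {x : V × Kind p q // D.dom x} => D.lt1 x.1 y.1) := by
  obtain ⟨hir, htr, hto⟩ := hD.lt
  refine ⟨?_, ?_, ?_⟩
  · rintro x - (h | ⟨-, h⟩)
    · exact hir _ trivial h
    · exact kindLt_irrefl _ h
  · rintro x y z - - - (h | ⟨h, h'⟩) (k | ⟨k, k'⟩)
    · exact Or.inl (htr _ _ _ trivial trivial trivial h k)
    · exact Or.inl (k ▸ h)
    · exact Or.inl (h ▸ k)
    · exact Or.inr ⟨h.trans k, kindLt_trans _ _ _ h' k'⟩
  · rintro ⟨⟨v, c⟩, hx⟩ ⟨⟨w, d⟩, hy⟩ - - hne
    by_cases hvw : v = w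
    · subst hvw
      have hcd : c ≠ d := by
        rintro rfl
        exact hne rfl
      rcases kindLt_total c d hcd with h | h
      · exact Or.inl (Or.inr ⟨rfl, h⟩)
      · exact Or.inr (Or.inr ⟨rfl, h⟩)
    · rcases hto v w trivial trivial hvw with h | h
      · exact Or.inl (Or.inl h)
      · exact Or.inr (Or.inl h)

theorem lt2_irrefl (D : FDat V p q) (hD : D.Good) : ∀ x : V × Kind p q, D.dom x → ¬ D.lt2 x x
  | (v, none), _ => fun h => hD.lt.1 v trivial h
  | (v, some (.inl j)), _ => by
      rintro ⟨a, ha, b, hb, h | ⟨-, h | ⟨-, h⟩⟩⟩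
      · rw [hD.f j v a b ha hb] at h
        exact hD.lt.1 _ trivial h
      · exact lt_irrefl j h
      · exact hD.lt.1 _ trivial h
  | (v, some (.inr l)), hx => by
      rintro (h | ⟨-, h⟩)
      · exact lt_irrefl l h
      · exact (hD.lam l).1 v hx h

theorem lt2_trans (D : FDat V p q) (hD : D.Good) : ∀ x y z : V × Kind p q, D.dom x → D.dom y →
    D.dom z → D.lt2 x y → D.lt2 y z → D.lt2 x z := by
  obtain ⟨-, htr, -⟩ := hD.lt
  have tr : ∀ a b c, D.lt a b → D.lt b c → D.lt a c := fun a b c =>
    htr a b c trivial trivial trivial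
  rintro ⟨v, c⟩ ⟨w, d⟩ ⟨u, e⟩ hx hy hz
  rcases c with _ | j | l <;> rcases d with _ | j' | l' <;> rcases e with _ | j'' | l''
  · exact fun h k => tr _ _ _ h k
  · rintro h ⟨b, hb, k | rfl⟩
    · exact ⟨b, hb, Or.inl (tr _ _ _ h k)⟩
    · exact ⟨w, hb, Or.inl h⟩
  · exact fun _ _ => trivial
  · rintro ⟨b, hb, h⟩ ⟨a, ha, k⟩
    rw [hD.f _ _ _ _ ha hb] at k
    rcases h with h | h
    · exact tr _ _ _ h k
    · rw [← h] at k
      exact k
  · rintro ⟨b, hb, h⟩ ⟨a, ha, b', hb', k⟩
    rw [hD.f _ _ _ _ ha hb] at k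
    refine ⟨b', hb', ?_⟩
    rcases h with h | h <;> rcases k with k | ⟨k, -⟩
    · exact Or.inl (tr _ _ _ h k)
    · exact Or.inl (k ▸ h)
    · exact Or.inl (h.symm ▸ k)
    · exact Or.inr (h.trans k)
  · exact fun _ _ => trivial
  · exact fun _ k => k.elim
  · exact fun _ k => k.elim
  · exact fun _ _ => trivial
  · rintro ⟨a, ha, h⟩ k
    exact ⟨a, ha, tr _ _ _ h k⟩
  · rintro ⟨a, ha, h⟩ ⟨b, hb, k | rfl⟩
    · exact ⟨a, ha, b, hb, Or.inl (tr _ _ _ h k)⟩
    · exact ⟨a, ha, _, hb, Or.inl h⟩
  · exact fun _ _ => trivial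
  · rintro ⟨a, ha, b, hb, h⟩ ⟨b', hb', k⟩
    rw [hD.f _ _ _ _ hb' hb] at k
    refine ⟨a, ha, ?_⟩
    rcases h with h | ⟨h, -⟩
    · exact tr _ _ _ h k
    · exact h.symm ▸ k
  · rintro ⟨a, ha, b, hb, h⟩ ⟨b', hb', c, hc, k⟩
    rw [hD.f _ _ _ _ hb' hb] at k
    refine ⟨a, ha, c, hc, ?_⟩
    rcases h with h | ⟨h, h'⟩ <;> rcases k with k | ⟨k, k'⟩
    · exact Or.inl (tr _ _ _ h k)
    · exact Or.inl (k ▸ h)
    · exact Or.inl (h.symm ▸ k)
    · refine Or.inr ⟨h.trans k, ?_⟩
      rcases h' with h' | ⟨h', h''⟩ <;> rcases k' with k' | ⟨k', k''⟩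
      · exact Or.inl (lt_trans h' k')
      · exact Or.inl (k' ▸ h')
      · exact Or.inl (h'.symm ▸ k')
      · exact Or.inr ⟨h'.trans k', tr _ _ _ h'' k''⟩
  · exact fun _ _ => trivial
  · exact fun _ k => k.elim
  · exact fun _ k => k.elim
  · exact fun _ _ => trivial
  · exact fun h _ => h.elim
  · exact fun h _ => h.elim
  · exact fun h _ => h.elim
  · exact fun h _ => h.elim
  · exact fun h _ => h.elim
  · exact fun h _ => h.elim
  · exact fun _ k => k.elim
  · exact fun _ k => k.elim
  · rintro (h | ⟨rfl, h⟩) (k | ⟨rfl, k⟩)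
    · exact Or.inl (lt_trans h k)
    · exact Or.inl h
    · exact Or.inl k
    · exact Or.inr ⟨rfl, (hD.lam l).2.1 v w u hx hy hz h k⟩

theorem lt2_total (D : FDat V p q) (hD : D.Good) : ∀ x y : V × Kind p q, D.dom x → D.dom y →
    x ≠ y → D.lt2 x y ∨ D.lt2 y x := by
  obtain ⟨-, -, hto'⟩ := hD.lt
  have hto : ∀ a b, D.lt a b ∨ a = b ∨ D.lt b a := fun a b => by
    by_cases hab : a = b
    · exact Or.inr (Or.inl hab)
    · rcases hto' a b trivial trivial hab with h | h
      · exact Or.inl h
      · exact Or.inr (Or.inr h)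
  rintro ⟨v, c⟩ ⟨w, d⟩ hx hy hne
  rcases c with _ | j | l <;> rcases d with _ | j' | l'
  · rcases hto v w with h | h | h
    · exact Or.inl h
    · exact (hne (by rw [h])).elim
    · exact Or.inr h
  · obtain ⟨b, hb⟩ := hy
    rcases hto v b with h | h | h
    · exact Or.inl ⟨b, hb, Or.inl h⟩
    · exact Or.inl ⟨b, hb, Or.inr h⟩
    · exact Or.inr ⟨b, hb, h⟩
  · exact Or.inl trivial
  · obtain ⟨a, ha⟩ := hx
    rcases hto w a with h | h | h
    · exact Or.inr ⟨a, ha, Or.inl h⟩
    · exact Or.inr ⟨a, ha, Or.inr h⟩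
    · exact Or.inl ⟨a, ha, h⟩
  · obtain ⟨a, ha⟩ := hx
    obtain ⟨b, hb⟩ := hy
    rcases hto a b with h | h | h
    · exact Or.inl ⟨a, ha, b, hb, Or.inl h⟩
    · rcases lt_trichotomy j j' with k | k | k
      · exact Or.inl ⟨a, ha, b, hb, Or.inr ⟨h, Or.inl k⟩⟩
      · rcases hto v w with l | l | l
        · exact Or.inl ⟨a, ha, b, hb, Or.inr ⟨h, Or.inr ⟨k, l⟩⟩⟩
        · exact (hne (by rw [k, l])).elim
        · exact Or.inr ⟨b, hb, a, ha, Or.inr ⟨h.symm, Or.inr ⟨k.symm, l⟩⟩⟩
      · exact Or.inr ⟨b, hb, a, ha, Or.inr ⟨h.symm, Or.inl k⟩⟩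
    · exact Or.inr ⟨b, hb, a, ha, Or.inl h⟩
  · exact Or.inl trivial
  · exact Or.inr trivial
  · exact Or.inr trivial
  · rcases lt_trichotomy l l' with k | k | k
    · exact Or.inl (Or.inl k)
    · subst k
      by_cases hvw : v = w
      · exact (hne (by rw [hvw])).elim
      · rcases (hD.lam l).2.2 v w hx hy hvw with h | h
        · exact Or.inl (Or.inr ⟨rfl, h⟩)
        · exact Or.inr (Or.inr ⟨rfl, h⟩)
    · exact Or.inr (Or.inl k)

end EncPermAux

theorem FDat.str_isPerm {V : Type} {p q : ℕ} (D : FDat V p q) (h : Finite V) (hD : D.Good) :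
    (D.str h).IsPerm := by
  intro i
  fin_cases i
  · exact EncPermAux.lt1_lin D hD
  · refine ⟨?_, ?_, ?_⟩
    · rintro ⟨x, hx⟩ -
      exact EncPermAux.lt2_irrefl D hD x hx
    · rintro ⟨x, hx⟩ ⟨y, hy⟩ ⟨z, hz⟩ - - -
      exact EncPermAux.lt2_trans D hD x y z hx hy hz
    · rintro ⟨x, hx⟩ ⟨y, hy⟩ - - hne
      exact EncPermAux.lt2_total D hD x y hx hy fun e => hne (Subtype.ext e)

end P1346e8
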