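import Pool.Agent.Lib.P1346e8.Main

/-!
# The theorem in terms of formulas
-/

set_option autoImplicit false

namespace P1346e8

/-- The relations available to the formula `ε`: the order `r 1` of `A`, and for every `j` the relation
`R j` between the rows `U (a j)` and the columns `U (b j)`. -/
def blockRel {m N : ℕ} (A : Str) (U : Fin m → A.V → Prop) (a b : Fin N → Fin m)
    (R : Fin N → Fml (Fin 2) (Fin m) 2) : Option (Fin N) → A.V → A.V → Prop
  | none, x, y => A.r 1 x y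
  | some j, x, y => U (a j) x ∧ U (b j) y ∧ (R j).Sat A.r U ![x, y]

theorem strictLin_restrict {V : Type} {S : V → Prop} {r : V → V → Prop} (h : StrictLin S r) :
    StrictLin S (fun x y => S x ∧ S y ∧ r x y) := by
  refine ⟨fun x hx h' => h.1 x hx h'.2.2, ?_, ?_⟩
  · intro x y z hx hy hz h1 h2
    exact ⟨hx, hz, h.2.1 x y z hx hy hz h1.2.2 h2.2.2⟩
  · intro x y hx hy hne
    rcases h.2.2 x y hx hy hne with h1 | h1
    · exact Or.inl ⟨hx, hy, h1⟩
    · exact Or.inr ⟨hy, hx, h1⟩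

theorem nxt_restrict {V : Type} (S : V → Prop) (r : V → V → Prop) (x y : V) :
    Nxt S (fun x y => S x ∧ S y ∧ r x y) x y ↔ Nxt S r x y := by
  constructor
  · rintro ⟨h1, h2, h3, h4⟩
    exact ⟨h1, h2, h3.2.2, fun z hz h => h4 z hz ⟨⟨h1, hz, h.1⟩, ⟨hz, h2, h.2⟩⟩⟩
  · rintro ⟨h1, h2, h3, h4⟩
    exact ⟨h1, h2, ⟨h1, h2, h3⟩, fun z hz h => h4 z hz ⟨h.1.2.2, h.2.2.2⟩⟩

theorem corner_restrict {V : Type} (S T : V → Prop) (ρ γ M : V → V → Prop) (x y : V) :
    Corner S (fun x y => S x ∧ S y ∧ ρ x y) T (fun x y => T x ∧ T y ∧ γ x y)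
      (fun x y => S x ∧ T y ∧ M x y) x y ↔ Corner S ρ T γ M x y := by
  unfold Corner
  refine exists_congr fun x' => exists_congr fun y' => ?_
  rw [nxt_restrict, nxt_restrict]
  refine and_congr_right fun h1 => and_congr_right fun h2 => ?_
  have e1 : S x := h1.1
  have e2 : S x' := h1.2.1
  have e3 : T y := h2.1
  have e4 : T y' := h2.2.1
  simp only [e1, e2, e3, e4, true_and]

theorem final (C : Set Str) (hC : ∀ A ∈ C, A.IsOrderedGraph) (t m N : ℕ) (a b : Fin N → Fin m)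
    (ρ γ R : Fin N → Fml (Fin 2) (Fin m) 2) (ε : Fml (Option (Fin N)) (Fin m) 2)
    (h : ∀ A ∈ C, ∃ U : Fin m → A.V → Prop,
      (∀ j, StrictLin (U (a j)) (fun x y => (ρ j).Sat A.r U ![x, y]) ∧
        StrictLin (U (b j)) (fun x y => (γ j).Sat A.r U ![x, y]) ∧
        BicliqueFree t (Corner (U (a j)) (fun x y => (ρ j).Sat A.r U ![x, y])
          (U (b j)) (fun x y => (γ j).Sat A.r U ![x, y]) (fun x y => (R j).Sat A.r U ![x, y]))) ∧
      ∀ x y, A.r 0 x y ↔ ε.Sat (blockRel A U a b R) U ![x, y]) :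
    ∃ P : Set Str, IsPermClass P ∧ IsTransductionOf C P ∧ IsTransductionOf P C := by
  choose U hU using fun i : C => h i.1 i.2
  have hdef : ∀ φ : Fml (Fin 2) (Fin m) 2, (baseFam (fun i : C => i.1) U).Def2
      (fun i x y => φ.Sat i.1.r (U i) ![x, y]) := fun φ =>
    Fam.def2_of_fml (F := baseFam (fun i : C => i.1) U) φ
  have hun : ∀ u : Fin m, ∀ (k : Fin 2), (baseFam (fun i : C => i.1) U).Def
      (fun i (v : Fin 2 → i.1.V) => U i u (v k)) := fun u k =>
    Fam.Def.un (baseFam (fun i : C => i.1) U) u k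
  refine main_fam C hC (υ := Fin m) U a b
    (fun j i x y => U i (a j) x ∧ U i (a j) y ∧ (ρ j).Sat i.1.r (U i) ![x, y])
    (fun j i x y => U i (b j) x ∧ U i (b j) y ∧ (γ j).Sat i.1.r (U i) ![x, y])
    (fun j i x y => U i (a j) x ∧ U i (b j) y ∧ (R j).Sat i.1.r (U i) ![x, y])
    (fun j i x y h => ⟨h.1, h.2.1⟩) (fun j i x y h => ⟨h.1, h.2.1⟩) (fun j i x y h => ⟨h.1, h.2.1⟩)
    (fun j i => strictLin_restrict ((hU i).1 j).1)
    (fun j i => strictLin_restrict ((hU i).1 j).2.1) ?_ ?_ ?_ t ?_ ?_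
  · intro j
    exact Fam.Def.and (hun _ 0) (Fam.Def.and (hun _ 1) (Fam.Def2.at (hdef (ρ j)) 0 1))
  · intro j
    exact Fam.Def.and (hun _ 0) (Fam.Def.and (hun _ 1) (Fam.Def2.at (hdef (γ j)) 0 1))
  · intro j
    exact Fam.Def.and (hun _ 0) (Fam.Def.and (hun _ 1) (Fam.Def2.at (hdef (R j)) 0 1))
  · intro j i
    have := ((hU i).1 j).2.2
    rintro ⟨f, g, hf, hg, hfg⟩
    exact this ⟨f, g, hf, hg, fun k l => (corner_restrict _ _ _ _ _ _ _).1 (hfg k l)⟩
  · refine ⟨ε, fun i (v : Fin 2 → i.1.V) => ?_⟩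
    have h1 : ![v 0, v 1] = v := by
      funext k
      fin_cases k <;> rfl
    have h2 : (Asm.relFam C U fun j i x y =>
        U i (a j) x ∧ U i (b j) y ∧ (R j).Sat i.1.r (U i) ![x, y]).R i = blockRel i.1 (U i) a b R := by
      funext o x y
      cases o <;> rfl
    rw [h2]
    have := (hU i).2 (v 0) (v 1)
    rw [h1] at this
    exact this

end P1346e8
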