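import Pool.Agent.Lib.P1346e8.RamQ

/-!
# MODULE GridRam: Ramsey lemma for injective arrays in a linear order (about 1.5 h)

STATEMENT. In a large array `u` of pairwise different elements of a linear order there is a `k × k`
subarray in which either the rows are separated (increasing or decreasing) or the columns are.

PROOF. Let `L = 4 k + 4`, `K` from `ramsey_quad (Bool × Bool) L`, applied to the colouring
`f i j k' l := (decide (u i k' < u j l), decide (u i l < u j k'))` (for indices below `K`; `f` arbitrary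
outside).  We get `h`; write `w i j := u (h i) (h j)` for `i < 2 k + 2 ≤ j` (i in the first half, j in the
second half), and the two homogeneous truth values: for `i < j < M ≤ k' < l` (`M = 2 k + 2`):
`e1 = [w i k' < w j l]`, `e2 = [w i l < w j k']`; as the elements are different, `not <` means `>`.
Put `a s := h (2 s)`, `b t := h (M + 2 t)`.
* `e1 = e2 = true`: for `s < s'` and all `t, t'`: `w (2s) (M+2t) < w (2s+1) (M+1) < w (2s') (M+2t')`: the
  second index `M + 1` differs from `M+2t` and from `M+2t'`; each inequality is `e1` or `e2` according to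
  which second index is larger (note `2s < 2s+1 < 2s'`).
* `e1 = e2 = false`: the same with `>`.
* `e1 = true`, `e2 = false`: if `k' < l` then `w i k' < w j l` for all `i ≠ j` (for `i < j` by `e1`; for
  `i > j` by `e2 = false`).  So for `t < t'` and all `s, s'`:
  `w (2s) (M+2t) < w 1 (M+2t+1) < w (2s') (M+2t')`, since the first index `1` differs from `2s`, `2s'`.
* `e1 = false`, `e2 = true`: the same with `>`.
-/

set_option autoImplicit false

namespace P1346e8

namespace GridRamAux

/-- the index `i`, cut off -/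
def fi (k i : ℕ) : Fin (4 * k + 4) := ⟨min i (4 * k + 3), by omega⟩

theorem fi_lt {k i j : ℕ} (h : i < j) (hj : j < 4 * k + 4) : fi k i < fi k j := by
  rw [Fin.lt_def]
  simp only [fi]
  omega

theorem core {α : Type} [LinearOrder α] (k : ℕ) (w : Fin (4 * k + 4) → Fin (4 * k + 4) → α) (c1 c2 : Prop)
    (h1 : ∀ i j p q, i < j → j < p → p < q → (w i p < w j q ↔ c1))
    (h2 : ∀ i j p q, i < j → j < p → p < q → (w i q < w j p ↔ c2))
    (hne : ∀ i j p q, i ≠ j → w i p ≠ w j q) :
    (∀ s t s' t' : Fin k, s < s' →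
      w (fi k (2 * s)) (fi k (2 * k + 2 + 2 * t)) < w (fi k (2 * s')) (fi k (2 * k + 2 + 2 * t'))) ∨
    (∀ s t s' t' : Fin k, s < s' →
      w (fi k (2 * s')) (fi k (2 * k + 2 + 2 * t')) < w (fi k (2 * s)) (fi k (2 * k + 2 + 2 * t))) ∨
    (∀ s t s' t' : Fin k, t < t' →
      w (fi k (2 * s)) (fi k (2 * k + 2 + 2 * t)) < w (fi k (2 * s')) (fi k (2 * k + 2 + 2 * t'))) ∨
    (∀ s t s' t' : Fin k, t < t' →
      w (fi k (2 * s')) (fi k (2 * k + 2 + 2 * t')) < w (fi k (2 * s)) (fi k (2 * k + 2 + 2 * t))) := by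
  have f1 : ∀ i j p q : ℕ, i < j → j < p → p < q → q < 4 * k + 4 →
      (w (fi k i) (fi k p) < w (fi k j) (fi k q) ↔ c1) := fun i j p q hij hjp hpq hq =>
    h1 _ _ _ _ (fi_lt hij (by omega)) (fi_lt hjp (by omega)) (fi_lt hpq hq)
  have f2 : ∀ i j p q : ℕ, i < j → j < p → p < q → q < 4 * k + 4 →
      (w (fi k i) (fi k q) < w (fi k j) (fi k p) ↔ c2) := fun i j p q hij hjp hpq hq =>
    h2 _ _ _ _ (fi_lt hij (by omega)) (fi_lt hjp (by omega)) (fi_lt hpq hq)
  have f3 : ∀ (i j : ℕ) (p q : Fin (4 * k + 4)), i < j → j < 4 * k + 4 → w (fi k i) p ≠ w (fi k j) q := fun i j p q hij hj =>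
    hne _ _ _ _ (fi_lt hij hj).ne
  by_cases hc1 : c1
  · by_cases hc2 : c2
    · -- rows increasing
      left
      have A : ∀ i j p q : ℕ, i < j → j < p → j < q → p ≠ q → p < 4 * k + 4 → q < 4 * k + 4 →
          w (fi k i) (fi k p) < w (fi k j) (fi k q) := by
        intro i j p q hij hjp hjq hpq hp hq
        rcases lt_or_gt_of_ne hpq with h | h
        · exact (f1 i j p q hij hjp h hq).2 hc1
        · exact (f2 i j q p hij hjq h hp).2 hc2
      intro s t s' t' hs
      have e1 : (s : ℕ) < s' := hs
      have e2 := s.2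
      have e3 := s'.2
      have e4 := t.2
      have e5 := t'.2
      exact (A (2 * s) (2 * s + 1) (2 * k + 2 + 2 * t) (2 * k + 2 + 1) (by omega) (by omega) (by omega)
        (by omega) (by omega) (by omega)).trans
        (A (2 * s + 1) (2 * s') (2 * k + 2 + 1) (2 * k + 2 + 2 * t') (by omega) (by omega) (by omega)
        (by omega) (by omega) (by omega))
    · -- columns increasing
      right; right; left
      have A : ∀ i j p q : ℕ, i ≠ j → i < p → j < p → p < q → q < 4 * k + 4 →
          w (fi k i) (fi k p) < w (fi k j) (fi k q) := by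
        intro i j p q hij hip hjp hpq hq
        rcases lt_or_gt_of_ne hij with h | h
        · exact (f1 i j p q h hjp hpq hq).2 hc1
        · have g1 : ¬ w (fi k j) (fi k q) < w (fi k i) (fi k p) := fun g => hc2 ((f2 j i p q h hip hpq hq).1 g)
          exact lt_of_le_of_ne (not_lt.1 g1) (fun g => f3 j i _ _ h (by omega) g.symm)
      intro s t s' t' ht
      have e1 : (t : ℕ) < t' := ht
      have e2 := s.2
      have e3 := s'.2
      have e4 := t.2
      have e5 := t'.2
      exact (A (2 * s) 1 (2 * k + 2 + 2 * t) (2 * k + 2 + 2 * t + 1) (by omega) (by omega) (by omega)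
        (by omega) (by omega)).trans
        (A 1 (2 * s') (2 * k + 2 + 2 * t + 1) (2 * k + 2 + 2 * t') (by omega) (by omega) (by omega)
        (by omega) (by omega))
  · by_cases hc2 : c2
    · -- columns decreasing
      right; right; right
      have A : ∀ i j p q : ℕ, i ≠ j → i < p → j < p → p < q → q < 4 * k + 4 →
          w (fi k j) (fi k q) < w (fi k i) (fi k p) := by
        intro i j p q hij hip hjp hpq hq
        rcases lt_or_gt_of_ne hij with h | h
        · have g1 : ¬ w (fi k i) (fi k p) < w (fi k j) (fi k q) := fun g => hc1 ((f1 i j p q h hjp hpq hq).1 g)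
          exact lt_of_le_of_ne (not_lt.1 g1) (fun g => f3 i j _ _ h (by omega) g.symm)
        · exact (f2 j i p q h hip hpq hq).2 hc2
      intro s t s' t' ht
      have e1 : (t : ℕ) < t' := ht
      have e2 := s.2
      have e3 := s'.2
      have e4 := t.2
      have e5 := t'.2
      exact (A 1 (2 * s') (2 * k + 2 + 2 * t + 1) (2 * k + 2 + 2 * t') (by omega) (by omega) (by omega)
        (by omega) (by omega)).trans
        (A (2 * s) 1 (2 * k + 2 + 2 * t) (2 * k + 2 + 2 * t + 1) (by omega) (by omega) (by omega)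
        (by omega) (by omega))
    · -- rows decreasing
      right; left
      have A : ∀ i j p q : ℕ, i < j → j < p → j < q → p ≠ q → p < 4 * k + 4 → q < 4 * k + 4 →
          w (fi k j) (fi k q) < w (fi k i) (fi k p) := by
        intro i j p q hij hjp hjq hpq hp hq
        have g1 : ¬ w (fi k i) (fi k p) < w (fi k j) (fi k q) := by
          rcases lt_or_gt_of_ne hpq with h | h
          · exact fun g => hc1 ((f1 i j p q hij hjp h hq).1 g)
          · exact fun g => hc2 ((f2 i j q p hij hjq h hp).1 g)
        exact lt_of_le_of_ne (not_lt.1 g1) (fun g => f3 i j _ _ hij (by omega) g.symm)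
      intro s t s' t' hs
      have e1 : (s : ℕ) < s' := hs
      have e2 := s.2
      have e3 := s'.2
      have e4 := t.2
      have e5 := t'.2
      exact (A (2 * s + 1) (2 * s') (2 * k + 2 + 1) (2 * k + 2 + 2 * t') (by omega) (by omega) (by omega)
        (by omega) (by omega) (by omega)).trans
        (A (2 * s) (2 * s + 1) (2 * k + 2 + 2 * t) (2 * k + 2 + 1) (by omega) (by omega) (by omega)
        (by omega) (by omega) (by omega))

end GridRamAux

theorem gridRam (k : ℕ) : ∃ K : ℕ, ∀ (α : Type) [LinearOrder α] (u : Fin K → Fin K → α),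
    (∀ s t s' t', u s t = u s' t' → s = s' ∧ t = t') →
    ∃ a b : Fin k → Fin K, StrictMono a ∧ StrictMono b ∧
      ((∀ s t s' t', s < s' → u (a s) (b t) < u (a s') (b t')) ∨
       (∀ s t s' t', s < s' → u (a s') (b t') < u (a s) (b t)) ∨
       (∀ s t s' t', t < t' → u (a s) (b t) < u (a s') (b t')) ∨
       (∀ s t s' t', t < t' → u (a s') (b t') < u (a s) (b t))) := by
  obtain ⟨K, hK⟩ := ramsey_quad (Bool × Bool) (4 * k + 4)
  refine ⟨K, ?_⟩
  intro α _ u hu
  obtain ⟨h, hm, hlt, c, hc⟩ := hK fun i j p q =>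
    if H : i < K ∧ j < K ∧ p < K ∧ q < K then
      (decide (u ⟨i, H.1⟩ ⟨p, H.2.2.1⟩ < u ⟨j, H.2.1⟩ ⟨q, H.2.2.2⟩),
        decide (u ⟨i, H.1⟩ ⟨q, H.2.2.2⟩ < u ⟨j, H.2.1⟩ ⟨p, H.2.2.1⟩))
    else (false, false)
  set g : Fin (4 * k + 4) → Fin K := fun i => ⟨h i, hlt i⟩ with hg
  have hgm : StrictMono g := fun i j hij => hm hij
  have hc' : ∀ i j p q : Fin (4 * k + 4), i < j → j < p → p < q →
      (decide (u (g i) (g p) < u (g j) (g q)), decide (u (g i) (g q) < u (g j) (g p))) = c := by
    intro i j p q hij hjp hpq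
    have h1 := hc i j p q hij hjp hpq
    rw [dif_pos ⟨hlt i, hlt j, hlt p, hlt q⟩] at h1
    exact h1
  have h1 : ∀ i j p q : Fin (4 * k + 4), i < j → j < p → p < q →
      (u (g i) (g p) < u (g j) (g q) ↔ c.1 = true) := by
    intro i j p q hij hjp hpq
    have h2 := congrArg Prod.fst (hc' i j p q hij hjp hpq)
    simp only at h2
    rw [← h2, decide_eq_true_iff]
  have h2 : ∀ i j p q : Fin (4 * k + 4), i < j → j < p → p < q →
      (u (g i) (g q) < u (g j) (g p) ↔ c.2 = true) := by
    intro i j p q hij hjp hpq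
    have h2 := congrArg Prod.snd (hc' i j p q hij hjp hpq)
    simp only at h2
    rw [← h2, decide_eq_true_iff]
  have h3 := GridRamAux.core k (fun i j => u (g i) (g j)) (c.1 = true) (c.2 = true) h1 h2
    (fun i j p q hij he => hij (hgm.injective (hu _ _ _ _ he).1))
  refine ⟨fun s => g (GridRamAux.fi k (2 * s)), fun t => g (GridRamAux.fi k (2 * k + 2 + 2 * t)), ?_, ?_, h3⟩
  · intro s s' hs
    have e1 : (s : ℕ) < s' := hs
    have e3 := s'.2
    exact hgm (GridRamAux.fi_lt (by omega) (by omega))
  · intro t t' ht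
    have e1 : (t : ℕ) < t' := ht
    have e3 := t'.2
    exact hgm (GridRamAux.fi_lt (by omega) (by omega))

end P1346e8
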