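import Pool.Agent.Lib.P1346e8.MTGen
import Pool.Agent.Lib.P1346e8.GridRam

/-!
# MODULE Frat: few fraternal pairs (about 1.8 h)

STATEMENT. `P` without `k`-grid, `O ⊆ P` with out-degrees at most `d` (`O x y`: the edge `(x, y)` is
oriented from the row `x` to the column `y`).  Then for every finite set `W` of columns there are at most
`C |W|` pairs `y < y'` of elements of `W` with a common in-neighbour `x` (`O x y`, `O x y'`), where `C`
depends only on `k` and `d`.

PROOF. Let `K` be from `gridRam k`, `c` from `mt_general K`, `C = d ^ 2 * (2 * c)`.  Choose for every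
`e ∈ F` a common in-neighbour `w e`.  For a given `x` at most `d ^ 2` elements `e ∈ F` have `w e = x`
(`e.1`, `e.2` are in the set of out-neighbours of `x` in `W`, of size at most `d`).  So, choosing one
element of every non-empty fibre of `w`, there is `F' ⊆ F` on which `w` is injective, with
`|F| ≤ d ^ 2 |F'|` (`Finset.card_le_mul_card_image` and `exists_subset_injOn_image_eq...`, or
`Finset.exists_subset_injOn_image_eq`-like lemmas / choice on the image).  If `F'`, as a relation on
`β × β`, has no `K`-grid then `|F'| ≤ c (|W| + |W|)`, done.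
Otherwise let `(p s t, q s t) ∈ F'` be a `K`-grid, `u s t := w (p s t, q s t)`; the pairs are different
for different `(s, t)` (`p` increases with `s`, `q` increases with `t`), so the `u s t` are different.
`gridRam` gives `a, b` and four cases; each gives a `k`-grid of `P`, a contradiction:
1. rows increase with `s`: `x s t := u (a s) (b t)`, `y s t := q (a s) (b t)`;
2. decrease with `s`: `x s t := u (a s.rev) (b t)`, `y s t := q (a s.rev) (b t)`;
3. increase with `t`: `x s t := u (a t) (b s)`, `y s t := p (a t) (b s)`;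
4. decrease with `t`: `x s t := u (a t) (b s.rev)`, `y s t := p (a t) (b s.rev)`.
-/

set_option autoImplicit false

namespace P1346e8

theorem frat_density (k d : ℕ) : ∃ C : ℕ, ∀ (α β : Type) [LinearOrder α] [LinearOrder β]
    (P O : α → β → Prop), (∀ x y, O x y → P x y) → ¬ Grid k P →
    (∀ x, ∀ s : Finset β, (∀ y ∈ s, O x y) → s.card ≤ d) →
    ∀ (W : Finset β) (F : Finset (β × β)),
      (∀ e ∈ F, e.1 ∈ W ∧ e.2 ∈ W ∧ e.1 < e.2 ∧ ∃ x, O x e.1 ∧ O x e.2) → F.card ≤ C * W.card := by
  classical
  obtain ⟨K, hK⟩ := gridRam k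
  obtain ⟨c, hc⟩ := mt_general K
  refine ⟨d ^ 2 * (2 * c), ?_⟩
  intro α β _ _ P O hOP hP hd W F hF
  rcases F.eq_empty_or_nonempty with hF0 | ⟨e0, he0⟩
  · rw [hF0, Finset.card_empty]
    exact Nat.zero_le _
  have hne : Nonempty α := by
    obtain ⟨_, _, _, x, _⟩ := hF e0 he0
    exact ⟨x⟩
  have hex : ∀ e ∈ F, ∃ x, O x e.1 ∧ O x e.2 := fun e he => (hF e he).2.2.2
  choose! w hw using hex
  -- the fibres of `w`
  have h1 : F.card ≤ d ^ 2 * (F.image w).card := by
    refine Finset.card_le_mul_card_image F (d ^ 2) ?_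
    intro x _
    have hN : (W.filter fun y => O x y).card ≤ d :=
      hd x _ fun y hy => (Finset.mem_filter.1 hy).2
    calc (F.filter fun e => w e = x).card ≤
        ((W.filter fun y => O x y) ×ˢ (W.filter fun y => O x y)).card := by
          apply Finset.card_le_card
          intro e he
          obtain ⟨he1, he2⟩ := Finset.mem_filter.1 he
          obtain ⟨a1, a2, _, _⟩ := hF e he1
          obtain ⟨b1, b2⟩ := hw e he1
          rw [he2] at b1 b2
          exact Finset.mem_product.2 ⟨Finset.mem_filter.2 ⟨a1, b1⟩, Finset.mem_filter.2 ⟨a2, b2⟩⟩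
      _ = (W.filter fun y => O x y).card * (W.filter fun y => O x y).card := Finset.card_product _ _
      _ ≤ d * d := Nat.mul_le_mul hN hN
      _ = d ^ 2 := (sq d).symm
  -- a section of `w`
  have hne2 : Nonempty (β × β) := ⟨e0⟩
  have hsec : ∀ x ∈ F.image w, ∃ e, e ∈ F ∧ w e = x := fun x hx => Finset.mem_image.1 hx
  choose! g hg using hsec
  set F' := (F.image w).image g with hF'
  have hsub : ∀ e ∈ F', e ∈ F := by
    intro e he
    obtain ⟨x, hx, rfl⟩ := Finset.mem_image.1 he
    exact (hg x hx).1
  have hinj : ∀ e ∈ F', ∀ e' ∈ F', w e = w e' → e = e' := by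
    intro e he e' he' h
    obtain ⟨x, hx, rfl⟩ := Finset.mem_image.1 he
    obtain ⟨x', hx', rfl⟩ := Finset.mem_image.1 he'
    rw [(hg x hx).2, (hg x' hx').2] at h
    rw [h]
  have hcard : (F.image w).card = F'.card := by
    refine (Finset.card_image_of_injOn ?_).symm
    intro x hx x' hx' h
    have h2 : w (g x) = w (g x') := by
      have h3 : g x = g x' := h
      rw [h3]
    rwa [(hg x hx).2, (hg x' hx').2] at h2
  by_cases hG : Grid K (fun x y => (x, y) ∈ F')
  · exfalso
    obtain ⟨p, q, hpq, hp, hq⟩ := hG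
    have hO : ∀ s t, O (w (p s t, q s t)) (p s t) ∧ O (w (p s t, q s t)) (q s t) := fun s t =>
      hw _ (hsub _ (hpq s t))
    obtain ⟨a, b, ha, hb, hcase⟩ := hK α (fun s t => w (p s t, q s t)) (by
      intro s t s' t' h
      have h2 := hinj _ (hpq s t) _ (hpq s' t') h
      rw [Prod.mk.injEq] at h2
      constructor
      · rcases lt_trichotomy s s' with h3 | h3 | h3
        · exact absurd h2.1 (hp _ _ _ _ h3).ne
        · exact h3
        · exact absurd h2.1 (hp _ _ _ _ h3).ne'
      · rcases lt_trichotomy t t' with h3 | h3 | h3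
        · exact absurd h2.2 (hq _ _ _ _ h3).ne
        · exact h3
        · exact absurd h2.2 (hq _ _ _ _ h3).ne')
    apply hP
    rcases hcase with h | h | h | h
    · exact ⟨fun s t => w (p (a s) (b t), q (a s) (b t)), fun s t => q (a s) (b t),
        fun s t => hOP _ _ (hO _ _).2, fun s t s' t' h2 => h s t s' t' h2,
        fun s t s' t' h2 => hq _ _ _ _ (hb h2)⟩
    · exact ⟨fun s t => w (p (a s.rev) (b t), q (a s.rev) (b t)), fun s t => q (a s.rev) (b t),
        fun s t => hOP _ _ (hO _ _).2,
        fun s t s' t' h2 => h s'.rev t' s.rev t (Fin.rev_lt_rev.2 h2),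
        fun s t s' t' h2 => hq _ _ _ _ (hb h2)⟩
    · exact ⟨fun s t => w (p (a t) (b s), q (a t) (b s)), fun s t => p (a t) (b s),
        fun s t => hOP _ _ (hO _ _).1, fun s t s' t' h2 => h t s t' s' h2,
        fun s t s' t' h2 => hp _ _ _ _ (ha h2)⟩
    · exact ⟨fun s t => w (p (a t) (b s.rev), q (a t) (b s.rev)), fun s t => p (a t) (b s.rev),
        fun s t => hOP _ _ (hO _ _).1,
        fun s t s' t' h2 => h t' s'.rev t s.rev (Fin.rev_lt_rev.2 h2),
        fun s t s' t' h2 => hp _ _ _ _ (ha h2)⟩
  · have h2 := hc β β F' hG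
    have h3 : (F'.image Prod.fst).card ≤ W.card := by
      apply Finset.card_le_card
      intro y hy
      obtain ⟨e, he, rfl⟩ := Finset.mem_image.1 hy
      exact (hF e (hsub e he)).1
    have h4 : (F'.image Prod.snd).card ≤ W.card := by
      apply Finset.card_le_card
      intro y hy
      obtain ⟨e, he, rfl⟩ := Finset.mem_image.1 hy
      exact (hF e (hsub e he)).2.1
    calc F.card ≤ d ^ 2 * F'.card := by rw [← hcard]; exact h1
      _ ≤ d ^ 2 * (c * (W.card + W.card)) := by
          apply Nat.mul_le_mul_left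
          exact h2.trans (Nat.mul_le_mul_left _ (Nat.add_le_add h3 h4))
      _ = d ^ 2 * (2 * c) * W.card := by ring

end P1346e8
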