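import Mathlib

/-!
# k-grids (definition and trivial lemmas)
-/

set_option autoImplicit false

namespace P1346e8

/-- A `k`-grid of the relation `P` between two linear orders: elements `(x s t, y s t)` of `P` for
`s, t < k`, such that the rows `x s t` increase with `s` and the columns `y s t` increase with `t`. -/
def Grid {α β : Type} [LinearOrder α] [LinearOrder β] (k : ℕ) (P : α → β → Prop) : Prop :=
  ∃ (x : Fin k → Fin k → α) (y : Fin k → Fin k → β), (∀ s t, P (x s t) (y s t)) ∧
    (∀ s t s' t', s < s' → x s t < x s' t') ∧ ∀ s t s' t', t < t' → y s t < y s' t'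

theorem Grid.swap {α β : Type} [LinearOrder α] [LinearOrder β] {k : ℕ} {P : α → β → Prop}
    (h : Grid k P) : Grid k (fun y x => P x y) := by
  obtain ⟨x, y, h1, h2, h3⟩ := h
  exact ⟨fun s t => y t s, fun s t => x t s, fun s t => h1 t s, fun s t s' t' h => h3 _ _ _ _ h,
    fun s t s' t' h => h2 _ _ _ _ h⟩

theorem Grid.mono {α β : Type} [LinearOrder α] [LinearOrder β] {k : ℕ} {P Q : α → β → Prop}
    (h : Grid k P) (hPQ : ∀ x y, P x y → Q x y) : Grid k Q := by
  obtain ⟨x, y, h1, h2, h3⟩ := h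
  exact ⟨x, y, fun s t => hPQ _ _ (h1 s t), h2, h3⟩

theorem Grid.le {α β : Type} [LinearOrder α] [LinearOrder β] {k l : ℕ} {P : α → β → Prop}
    (h : Grid l P) (hkl : k ≤ l) : Grid k P := by
  obtain ⟨x, y, h1, h2, h3⟩ := h
  refine ⟨fun s t => x (Fin.castLE hkl s) (Fin.castLE hkl t),
    fun s t => y (Fin.castLE hkl s) (Fin.castLE hkl t), fun s t => h1 _ _, ?_, ?_⟩
  · intro s t s' t' h
    exact h2 _ _ _ _ h
  · intro s t s' t' h
    exact h3 _ _ _ _ h

end P1346e8
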