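import Pool.Agent.Lib.P1346e8.Grid

/-!
# MODULE MT: the Marcus-Tardos theorem for grids (about 2.5 h)

STATEMENT. For every `k` there is `c` such that a finite set `P` of points of `[n] × [n]` without
`k`-grid has at most `c n` elements.

PROOF. If `k ≤ 1` then `P` is empty (a `0`-grid always exists; an element is a `1`-grid): `c = 0`.
Let `k ≥ 2`, `s = k ^ 2`, `c₀ = 2 k (s choose k) s ^ 2 + 1`.  First for `n = s ^ m`, with the constant
`c₀`, by induction on `m`.  `m = 0`: at most one point.  Step: `P ⊆ [s ^ (m+1)]²`.  The block of a point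
`(x, y)` is `(x / s, y / s) ∈ [s ^ m]²`; let `B` be the set of blocks that contain a point of `P`.  `B` has
no `k`-grid: from a `k`-grid of `B` choose for every block a point of `P` in it; if `x / s < x' / s` then
`x < x'`.  So `|B| ≤ c₀ s ^ m` by induction.  A block is wide if its points of `P` have at least `k`
different second coordinates, tall if they have at least `k` different first coordinates.  A block that
is neither has at most `(k - 1) ^ 2` points; every block has at most `s ^ 2` points.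
Claim: for a fixed second block coordinate `J` there are fewer than `k (s choose k)` wide blocks
`(I, J)`.  Otherwise (each wide block contains `k` second coordinates from the `s` values
`J s, ..., J s + s - 1`, so choose a `k`-subset `Y` of these for every wide block) by pigeonhole `k` wide
blocks `(I_1, J), ..., (I_k, J)`, `I_1 < ... < I_k`, have the same `Y = {y_1 < ... < y_k}`; for all `i, j`
the block `(I_i, J)` contains a point `(x_ij, y_j)` of `P`: a `k`-grid (rows `x_ij` increase with `i`,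
columns `y_j` increase with `j`).  So there are at most `s ^ m * k (s choose k)` wide blocks, and the same
for tall blocks by symmetry.  Hence
`|P| ≤ (k - 1) ^ 2 c₀ s ^ m + 2 s ^ m k (s choose k) s ^ 2 ≤ c₀ s ^ (m + 1)`,
as `s - (k - 1) ^ 2 = 2 k - 1 ≥ 1`.  Finally for general `n ≥ 1` choose `m` with `n ≤ s ^ m ≤ s n`:
`c = c₀ s`.
-/

set_option autoImplicit false

namespace P1346e8

namespace MTAux

open Finset

/-- the points of `P` in a block -/
def blk (P : Finset (ℕ × ℕ)) (s I J : ℕ) : Finset (ℕ × ℕ) := P.filter fun a => a.1 / s = I ∧ a.2 / s = J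

theorem lt_of_div {s a b : ℕ} (h : a / s < b / s) : a < b := by
  by_contra hc
  have := Nat.div_le_div_right (c := s) (not_lt.1 hc)
  omega

theorem blocks_noGrid {k s : ℕ} {P : Finset (ℕ × ℕ)} (h : ¬ Grid k (fun x y => (x, y) ∈ P)) :
    ¬ Grid k (fun x y => (x, y) ∈ P.image fun a => (a.1 / s, a.2 / s)) := by
  rintro ⟨x, y, h1, h2, h3⟩
  apply h
  have hc : ∀ i j, ∃ a ∈ P, a.1 / s = x i j ∧ a.2 / s = y i j := by
    intro i j
    have hij : (x i j, y i j) ∈ P.image fun a => (a.1 / s, a.2 / s) := h1 i j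
    rw [mem_image] at hij
    obtain ⟨a, ha, he⟩ := hij
    rw [Prod.mk.injEq] at he
    exact ⟨a, ha, he.1, he.2⟩
  choose a ha hx hy using hc
  refine ⟨fun i j => (a i j).1, fun i j => (a i j).2, fun i j => ha i j, ?_, ?_⟩
  · intro i j i' j' hi
    apply lt_of_div (s := s)
    rw [hx, hx]
    exact h2 _ _ _ _ hi
  · intro i j i' j' hj
    apply lt_of_div (s := s)
    rw [hy, hy]
    exact h3 _ _ _ _ hj

theorem div_mem {s a I : ℕ} (hs : 0 < s) (h : a / s = I) : a ∈ Ico (I * s) (I * s + s) := by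
  rw [mem_Ico]
  subst h
  refine ⟨Nat.div_mul_le_self a s, ?_⟩
  have h2 := Nat.div_add_mod a s
  have h3 := Nat.mod_lt a hs
  have h4 := Nat.mul_comm s (a / s)
  omega

theorem wide_count {k s J : ℕ} (hs : 0 < s) {P : Finset (ℕ × ℕ)} (h : ¬ Grid k (fun x y => (x, y) ∈ P))
    (T : Finset ℕ) (hT : ∀ I ∈ T, k ≤ ((blk P s I J).image Prod.snd).card) :
    T.card ≤ k * s.choose k := by
  classical
  by_contra hcon
  push Not at hcon
  have hc : ∀ I : ℕ, ∃ Y : Finset ℕ, I ∈ T → Y ⊆ (blk P s I J).image Prod.snd ∧ Y.card = k := by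
    intro I
    by_cases hI : I ∈ T
    · obtain ⟨Y, hY, hYc⟩ := exists_subset_card_eq (hT I hI)
      exact ⟨Y, fun _ => ⟨hY, hYc⟩⟩
    · exact ⟨∅, fun h => absurd h hI⟩
  choose Y hY using hc
  have hmaps : ∀ I ∈ T, Y I ∈ powersetCard k (Ico (J * s) (J * s + s)) := by
    intro I hI
    rw [mem_powersetCard]
    refine ⟨fun y hy => ?_, (hY I hI).2⟩
    have h1 := (hY I hI).1 hy
    rw [mem_image] at h1
    obtain ⟨a, ha, rfl⟩ := h1
    unfold blk at ha
    rw [mem_filter] at ha
    exact div_mem hs ha.2.2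
  have hcard : (powersetCard k (Ico (J * s) (J * s + s))).card * k < T.card := by
    rw [card_powersetCard, Nat.card_Ico, Nat.add_sub_cancel_left, mul_comm]
    exact hcon
  obtain ⟨Y0, hY0, hfib⟩ := exists_lt_card_fiber_of_mul_lt_card_of_maps_to hmaps hcard
  rw [mem_powersetCard] at hY0
  set F := T.filter fun I => Y I = Y0 with hF
  have hFk : k ≤ F.card := hfib.le
  let I : Fin k ↪o ℕ := F.orderEmbOfCardLe hFk
  have hIm : ∀ i, I i ∈ F := fun i => F.orderEmbOfCardLe_mem hFk i
  let y : Fin k ↪o ℕ := Y0.orderEmbOfFin hY0.2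
  have hym : ∀ j, y j ∈ Y0 := fun j => Y0.orderEmbOfFin_mem hY0.2 j
  have hpt : ∀ i j, ∃ a ∈ P, a.1 / s = I i ∧ a.2 = y j := by
    intro i j
    have h1 := hIm i
    rw [hF, mem_filter] at h1
    have h2 := (hY (I i) h1.1).1
    rw [h1.2] at h2
    have h3 := h2 (hym j)
    rw [mem_image] at h3
    obtain ⟨a, ha, he⟩ := h3
    unfold blk at ha
    rw [mem_filter] at ha
    exact ⟨a, ha.1, ha.2.1, he⟩
  choose a haP ha1 ha2 using hpt
  apply h
  refine ⟨fun i j => (a i j).1, fun _ j => y j, fun i j => ?_, ?_, ?_⟩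
  · have hij : ((a i j).1, (a i j).2) ∈ P := haP i j
    rw [ha2 i j] at hij
    exact hij
  · intro i j i' j' hi
    apply lt_of_div (s := s)
    rw [ha1, ha1]
    exact I.strictMono hi
  · intro i j i' j' hj
    exact y.strictMono hj

theorem noGrid_swap {k : ℕ} {P : Finset (ℕ × ℕ)} (h : ¬ Grid k (fun x y => (x, y) ∈ P)) :
    ¬ Grid k (fun x y => (x, y) ∈ P.image Prod.swap) := by
  intro hg
  apply h
  refine (hg.swap).mono ?_
  intro x y hxy0
  have hxy : (y, x) ∈ P.image Prod.swap := hxy0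
  rw [mem_image] at hxy
  obtain ⟨a, ha, he⟩ := hxy
  have : a = (x, y) := by
    rw [← Prod.swap_swap a, he]
    rfl
  rw [← this]
  exact ha

theorem blk_swap (P : Finset (ℕ × ℕ)) (s I J : ℕ) :
    (blk (P.image Prod.swap) s J I).image Prod.snd = (blk P s I J).image Prod.fst := by
  ext z
  unfold blk
  simp only [mem_image, mem_filter]
  constructor
  · rintro ⟨a, ⟨⟨b, hb, rfl⟩, h1, h2⟩, rfl⟩
    exact ⟨b, ⟨hb, h2, h1⟩, rfl⟩
  · rintro ⟨b, ⟨hb, h1, h2⟩, rfl⟩
    exact ⟨b.swap, ⟨⟨b, hb, rfl⟩, h2, h1⟩, rfl⟩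

theorem tall_count {k s I : ℕ} (hs : 0 < s) {P : Finset (ℕ × ℕ)} (h : ¬ Grid k (fun x y => (x, y) ∈ P))
    (T : Finset ℕ) (hT : ∀ J ∈ T, k ≤ ((blk P s I J).image Prod.fst).card) :
    T.card ≤ k * s.choose k := by
  refine wide_count (J := I) hs (noGrid_swap h) T ?_
  intro J hJ
  rw [blk_swap]
  exact hT J hJ

theorem blk_card_le (P : Finset (ℕ × ℕ)) (s I J : ℕ) :
    (blk P s I J).card ≤ ((blk P s I J).image Prod.fst).card * ((blk P s I J).image Prod.snd).card := by
  rw [← card_product]
  apply card_le_card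
  intro a ha
  rw [mem_product]
  exact ⟨mem_image_of_mem _ ha, mem_image_of_mem _ ha⟩

theorem fst_card_le {P : Finset (ℕ × ℕ)} {s I J : ℕ} (hs : 0 < s) : ((blk P s I J).image Prod.fst).card ≤ s := by
  have h1 : (blk P s I J).image Prod.fst ⊆ Ico (I * s) (I * s + s) := by
    intro z hz
    rw [mem_image] at hz
    obtain ⟨a, ha, rfl⟩ := hz
    unfold blk at ha
    rw [mem_filter] at ha
    exact div_mem hs ha.2.1
  have h2 := card_le_card h1
  rwa [Nat.card_Ico, Nat.add_sub_cancel_left] at h2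

theorem snd_card_le {P : Finset (ℕ × ℕ)} {s I J : ℕ} (hs : 0 < s) : ((blk P s I J).image Prod.snd).card ≤ s := by
  have h1 : (blk P s I J).image Prod.snd ⊆ Ico (J * s) (J * s + s) := by
    intro z hz
    rw [mem_image] at hz
    obtain ⟨a, ha, rfl⟩ := hz
    unfold blk at ha
    rw [mem_filter] at ha
    exact div_mem hs ha.2.2
  have h2 := card_le_card h1
  rwa [Nat.card_Ico, Nat.add_sub_cancel_left] at h2

/-- the constant for powers of `k ^ 2` -/
def c0 (k : ℕ) : ℕ := 2 * (k * (k ^ 2).choose k) * (k ^ 2) ^ 2 + 1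

theorem step {k N : ℕ} (hk : 2 ≤ k) {P : Finset (ℕ × ℕ)} (hP : ∀ a ∈ P, a.1 < N * k ^ 2 ∧ a.2 < N * k ^ 2)
    (h : ¬ Grid k (fun x y => (x, y) ∈ P))
    (hB : (P.image fun a => (a.1 / k ^ 2, a.2 / k ^ 2)).card ≤ c0 k * N) :
    P.card ≤ c0 k * (N * k ^ 2) := by
  classical
  set s := k ^ 2 with hs
  have hs0 : 0 < s := by positivity
  set B := P.image fun a => (a.1 / s, a.2 / s) with hBd
  set M := k * s.choose k with hM
  have hBN : ∀ b ∈ B, b.1 < N ∧ b.2 < N := by
    intro b hb
    rw [hBd, mem_image] at hb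
    obtain ⟨a, ha, rfl⟩ := hb
    exact ⟨Nat.div_lt_of_lt_mul (by rw [mul_comm]; exact (hP a ha).1),
      Nat.div_lt_of_lt_mul (by rw [mul_comm]; exact (hP a ha).2)⟩
  set Wd := B.filter fun b => k ≤ ((blk P s b.1 b.2).image Prod.snd).card with hW
  set Tl := B.filter fun b => k ≤ ((blk P s b.1 b.2).image Prod.fst).card with hTl
  have hWc : Wd.card ≤ N * M := by
    have h1 : Wd.card = ∑ J ∈ range N, (Wd.filter fun b => b.2 = J).card := by
      apply card_eq_sum_card_fiberwise
      intro b hb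
      have hb' : b ∈ Wd := hb
      rw [hW, mem_filter] at hb'
      exact mem_coe.2 (mem_range.2 (hBN b hb'.1).2)
    rw [h1]
    have h2 : ∀ J ∈ range N, (Wd.filter fun b => b.2 = J).card ≤ M := by
      intro J _
      have h3 : ((Wd.filter fun b => b.2 = J).image Prod.fst).card = (Wd.filter fun b => b.2 = J).card := by
        apply card_image_of_injOn
        intro b hb b' hb' he
        have hb1 := (mem_filter.1 (mem_coe.1 hb)).2
        have hb2 := (mem_filter.1 (mem_coe.1 hb')).2
        exact Prod.ext he (hb1.trans hb2.symm)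
      rw [← h3]
      apply wide_count (J := J) hs0 h
      intro I hI
      rw [mem_image] at hI
      obtain ⟨b, hb, rfl⟩ := hI
      rw [mem_filter] at hb
      have hb1 := hb.1
      rw [hW, mem_filter] at hb1
      rw [← hb.2]
      exact hb1.2
    calc ∑ J ∈ range N, (Wd.filter fun b => b.2 = J).card ≤ ∑ J ∈ range N, M := sum_le_sum h2
      _ = N * M := by rw [sum_const, card_range, smul_eq_mul]
  have hTc : Tl.card ≤ N * M := by
    have h1 : Tl.card = ∑ I ∈ range N, (Tl.filter fun b => b.1 = I).card := by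
      apply card_eq_sum_card_fiberwise
      intro b hb
      have hb' : b ∈ Tl := hb
      rw [hTl, mem_filter] at hb'
      exact mem_coe.2 (mem_range.2 (hBN b hb'.1).1)
    rw [h1]
    have h2 : ∀ I ∈ range N, (Tl.filter fun b => b.1 = I).card ≤ M := by
      intro I _
      have h3 : ((Tl.filter fun b => b.1 = I).image Prod.snd).card = (Tl.filter fun b => b.1 = I).card := by
        apply card_image_of_injOn
        intro b hb b' hb' he
        have hb1 := (mem_filter.1 (mem_coe.1 hb)).2
        have hb2 := (mem_filter.1 (mem_coe.1 hb')).2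
        exact Prod.ext (hb1.trans hb2.symm) he
      rw [← h3]
      apply tall_count (I := I) hs0 h
      intro J hJ
      rw [mem_image] at hJ
      obtain ⟨b, hb, rfl⟩ := hJ
      rw [mem_filter] at hb
      have hb1 := hb.1
      rw [hTl, mem_filter] at hb1
      rw [← hb.2]
      exact hb1.2
    calc ∑ I ∈ range N, (Tl.filter fun b => b.1 = I).card ≤ ∑ I ∈ range N, M := sum_le_sum h2
      _ = N * M := by rw [sum_const, card_range, smul_eq_mul]
  have hcard : P.card = ∑ b ∈ B, (blk P s b.1 b.2).card := by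
    rw [card_eq_sum_card_image (fun a : ℕ × ℕ => (a.1 / s, a.2 / s)) P]
    refine sum_congr rfl fun b _ => ?_
    congr 1
    unfold blk
    ext a
    rw [mem_filter, mem_filter, Prod.ext_iff]
  have hb : ∀ b ∈ B, (blk P s b.1 b.2).card ≤ (k - 1) * (k - 1) +
      ((if k ≤ ((blk P s b.1 b.2).image Prod.snd).card then s ^ 2 else 0) +
        (if k ≤ ((blk P s b.1 b.2).image Prod.fst).card then s ^ 2 else 0)) := by
    intro b _
    have h1 := blk_card_le P s b.1 b.2
    have h2 := fst_card_le (P := P) (s := s) (I := b.1) (J := b.2) hs0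
    have h3 := snd_card_le (P := P) (s := s) (I := b.1) (J := b.2) hs0
    have h4 : (blk P s b.1 b.2).card ≤ s ^ 2 := by
      rw [sq]
      exact h1.trans (Nat.mul_le_mul h2 h3)
    by_cases hw : k ≤ ((blk P s b.1 b.2).image Prod.snd).card
    · rw [if_pos hw]
      omega
    · by_cases ht : k ≤ ((blk P s b.1 b.2).image Prod.fst).card
      · rw [if_pos ht]
        omega
      · have h5 : (blk P s b.1 b.2).card ≤ (k - 1) * (k - 1) :=
          h1.trans (Nat.mul_le_mul (by omega) (by omega))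
        omega
  have htot : P.card ≤ B.card * ((k - 1) * (k - 1)) + (N * M * s ^ 2 + N * M * s ^ 2) := by
    rw [hcard]
    refine (sum_le_sum hb).trans ?_
    rw [sum_add_distrib, sum_add_distrib, sum_const, smul_eq_mul, ← sum_filter, ← sum_filter, sum_const,
      sum_const, smul_eq_mul, smul_eq_mul]
    have h6 : Wd.card * s ^ 2 ≤ N * M * s ^ 2 := Nat.mul_le_mul_right _ hWc
    have h7 : Tl.card * s ^ 2 ≤ N * M * s ^ 2 := Nat.mul_le_mul_right _ hTc
    exact Nat.add_le_add_left (Nat.add_le_add h6 h7) _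
  have hc0 : 2 * M * s ^ 2 + 1 = c0 k := by
    unfold c0
    rw [hM, hs]
  have hkk : (k - 1) * (k - 1) + 1 ≤ s := by
    obtain ⟨m, rfl⟩ : ∃ m, k = m + 1 := ⟨k - 1, by omega⟩
    rw [hs, Nat.add_sub_cancel]
    nlinarith
  calc P.card ≤ B.card * ((k - 1) * (k - 1)) + (N * M * s ^ 2 + N * M * s ^ 2) := htot
    _ ≤ c0 k * N * ((k - 1) * (k - 1)) + N * (2 * M * s ^ 2 + 1) := by
        have h8 : B.card * ((k - 1) * (k - 1)) ≤ c0 k * N * ((k - 1) * (k - 1)) := Nat.mul_le_mul_right _ hB
        have h9 : N * M * s ^ 2 + N * M * s ^ 2 ≤ N * (2 * M * s ^ 2 + 1) := by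
          have : N * (2 * M * s ^ 2 + 1) = N * M * s ^ 2 + N * M * s ^ 2 + N := by ring
          omega
        exact Nat.add_le_add h8 h9
    _ = c0 k * N * ((k - 1) * (k - 1) + 1) := by rw [hc0]; ring
    _ ≤ c0 k * N * s := Nat.mul_le_mul_left _ hkk
    _ = c0 k * (N * s) := by ring

theorem pow_case {k : ℕ} (hk : 2 ≤ k) (m : ℕ) : ∀ P : Finset (ℕ × ℕ),
    (∀ a ∈ P, a.1 < (k ^ 2) ^ m ∧ a.2 < (k ^ 2) ^ m) → ¬ Grid k (fun x y => (x, y) ∈ P) →
    P.card ≤ c0 k * (k ^ 2) ^ m := by
  induction m with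
  | zero =>
    intro P hP _
    have h1 : P ⊆ {(0, 0)} := by
      intro a ha
      have := hP a ha
      rw [pow_zero] at this
      rw [mem_singleton]
      exact Prod.ext (by show a.1 = 0; omega) (by show a.2 = 0; omega)
    have h2 := card_le_card h1
    rw [card_singleton] at h2
    have h3 : 1 ≤ c0 k := by unfold c0; omega
    rw [pow_zero, mul_one]
    omega
  | succ m ih =>
    intro P hP h
    have hs0 : 0 < k ^ 2 := by positivity
    rw [pow_succ]
    refine step hk (fun a ha => ?_) h ?_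
    · have := hP a ha
      rw [pow_succ] at this
      exact this
    · apply ih _ _ (blocks_noGrid h)
      intro b hb
      rw [mem_image] at hb
      obtain ⟨a, ha, rfl⟩ := hb
      have := hP a ha
      rw [pow_succ, mul_comm] at this
      exact ⟨Nat.div_lt_of_lt_mul this.1, Nat.div_lt_of_lt_mul this.2⟩

end MTAux

open MTAux in
theorem marcusTardos (k : ℕ) : ∃ c : ℕ, ∀ (P : Finset (ℕ × ℕ)) (n : ℕ),
    (∀ a ∈ P, a.1 < n ∧ a.2 < n) → ¬ Grid k (fun x y => (x, y) ∈ P) → P.card ≤ c * n := by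
  rcases Nat.lt_or_ge k 2 with hk | hk
  · refine ⟨0, fun P n _ h => ?_⟩
    have hP : P = ∅ := by
      rw [Finset.eq_empty_iff_forall_notMem]
      intro a ha
      apply h
      refine ⟨fun _ _ => a.1, fun _ _ => a.2, fun _ _ => ha, ?_, ?_⟩
      · intro i j i' j' hi
        have := i'.isLt
        have h2 : i.val < i'.val := hi
        omega
      · intro i j i' j' hi
        have := j'.isLt
        have h2 : j.val < j'.val := hi
        omega
    rw [hP, Finset.card_empty]
    exact Nat.zero_le _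
  · have hs1 : 1 < k ^ 2 := by nlinarith
    refine ⟨c0 k * k ^ 2, fun P n hP h => ?_⟩
    rcases Nat.eq_zero_or_pos n with hn | hn
    · have hP0 : P = ∅ := by
        rw [Finset.eq_empty_iff_forall_notMem]
        intro a ha
        have := (hP a ha).1
        omega
      rw [hP0, Finset.card_empty]
      exact Nat.zero_le _
    · obtain ⟨m, hm1, hm2⟩ : ∃ m, n ≤ (k ^ 2) ^ m ∧ (k ^ 2) ^ m ≤ k ^ 2 * n := by
        refine ⟨Nat.clog (k ^ 2) n, Nat.le_pow_clog hs1 n, ?_⟩
        rcases Nat.lt_or_ge 1 n with h1 | h1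
        · have h2 := Nat.pow_pred_clog_lt_self hs1 h1
          have h3 : 0 < Nat.clog (k ^ 2) n := Nat.clog_pos hs1 h1
          obtain ⟨r, hr⟩ : ∃ r, Nat.clog (k ^ 2) n = r + 1 := ⟨Nat.clog (k ^ 2) n - 1, by omega⟩
          rw [hr] at h2 ⊢
          rw [Nat.pred_succ] at h2
          rw [pow_succ, mul_comm]
          exact Nat.mul_le_mul_left _ h2.le
        · have h2 : n = 1 := by omega
          subst h2
          rw [Nat.clog_one_right, pow_zero]
          omega
      have h1 := pow_case hk m P (fun a ha => ⟨(hP a ha).1.trans_le hm1, (hP a ha).2.trans_le hm1⟩) h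
      calc P.card ≤ c0 k * (k ^ 2) ^ m := h1
        _ ≤ c0 k * (k ^ 2 * n) := Nat.mul_le_mul_left _ hm2
        _ = c0 k * k ^ 2 * n := by ring

end P1346e8
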