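import Pool.Agent.Lib.P1346e8.MT

/-!
# MODULE MTGen: Marcus-Tardos for finite subsets of a product of linear orders (about 0.8 h)

STATEMENT. As in the title, with the numbers of non-empty rows and columns.

PROOF. Let `X = P.image fst`, `Y = P.image snd`, and `rk x = (X.filter (· < x)).card`,
`rk' y = (Y.filter (· < y)).card`: strictly increasing on `X` resp. `Y`, with values `< |X|` (`< |Y|`) on
`X` (`Y`).  Apply `marcusTardos` to the image of `P` under `rk × rk'` with `n = |X| + |Y|`; the map is
injective on `P`; a `k`-grid of the image gives a `k`-grid of `P` (choose preimages; if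
`rk x < rk x'` then `x < x'`, because `rk` is monotone).
-/

set_option autoImplicit false

namespace P1346e8

namespace MTGenAux

/-- the rank in a finite set -/
def rk {α : Type} [LinearOrder α] (X : Finset α) (x : α) : ℕ := (X.filter (· < x)).card

theorem rk_mono {α : Type} [LinearOrder α] (X : Finset α) {x x' : α} (h : x ≤ x') :
    rk X x ≤ rk X x' := by
  refine Finset.card_le_card fun z hz => ?_
  rw [Finset.mem_filter] at hz ⊢
  exact ⟨hz.1, hz.2.trans_le h⟩

theorem lt_of_rk_lt {α : Type} [LinearOrder α] (X : Finset α) {x x' : α}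
    (h : rk X x < rk X x') : x < x' := by
  by_contra hcon
  exact absurd (rk_mono X (not_lt.1 hcon)) (not_le.2 h)

theorem rk_lt {α : Type} [LinearOrder α] {X : Finset α} {x x' : α} (hx : x ∈ X) (h : x < x') :
    rk X x < rk X x' := by
  refine Finset.card_lt_card ?_
  rw [Finset.ssubset_iff_of_subset]
  · refine ⟨x, Finset.mem_filter.2 ⟨hx, h⟩, fun h' => ?_⟩
    exact lt_irrefl _ (Finset.mem_filter.1 h').2
  · intro z hz
    rw [Finset.mem_filter] at hz ⊢
    exact ⟨hz.1, hz.2.trans h⟩

theorem rk_lt_card {α : Type} [LinearOrder α] {X : Finset α} {x : α} (hx : x ∈ X) :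
    rk X x < X.card := by
  refine Finset.card_lt_card ?_
  rw [Finset.ssubset_iff_of_subset (Finset.filter_subset _ _)]
  exact ⟨x, hx, fun h' => lt_irrefl _ (Finset.mem_filter.1 h').2⟩

theorem rk_inj {α : Type} [LinearOrder α] {X : Finset α} {x x' : α} (hx : x ∈ X) (hx' : x' ∈ X)
    (h : rk X x = rk X x') : x = x' := by
  rcases lt_trichotomy x x' with h1 | h1 | h1
  · exact absurd h (rk_lt hx h1).ne
  · exact h1
  · exact absurd h (rk_lt hx' h1).ne'

end MTGenAux

open MTGenAux

theorem mt_general (k : ℕ) : ∃ c : ℕ, ∀ (α β : Type) [LinearOrder α] [LinearOrder β]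
    (P : Finset (α × β)), ¬ Grid k (fun x y => (x, y) ∈ P) →
      P.card ≤ c * ((P.image Prod.fst).card + (P.image Prod.snd).card) := by
  obtain ⟨c, hc⟩ := marcusTardos k
  refine ⟨c, fun α β _ _ P hP => ?_⟩
  set X := P.image Prod.fst with hX
  set Y := P.image Prod.snd with hY
  have hfst : ∀ p ∈ P, p.1 ∈ X := fun p hp => Finset.mem_image_of_mem _ hp
  have hsnd : ∀ p ∈ P, p.2 ∈ Y := fun p hp => Finset.mem_image_of_mem _ hp
  have hinj : Set.InjOn (fun p : α × β => (rk X p.1, rk Y p.2)) (P : Set (α × β)) := by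
    intro p hp q hq h
    have h1 := Prod.ext_iff.1 h
    exact Prod.ext (rk_inj (hfst p hp) (hfst q hq) h1.1) (rk_inj (hsnd p hp) (hsnd q hq) h1.2)
  have hcard := Finset.card_image_of_injOn hinj
  rw [← hcard]
  refine hc _ (X.card + Y.card) ?_ ?_
  · intro a ha
    obtain ⟨p, hp, rfl⟩ := Finset.mem_image.1 ha
    have h1 := rk_lt_card (hfst p hp)
    have h2 := rk_lt_card (hsnd p hp)
    exact ⟨by simp only; omega, by simp only; omega⟩
  · rintro ⟨x, y, h1, h2, h3⟩
    have h4 : ∀ s t, ∃ p ∈ P, (rk X p.1, rk Y p.2) = (x s t, y s t) := by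
      intro s t
      exact Finset.mem_image.1 (h1 s t)
    choose p hp hpe using h4
    have hx : ∀ s t, rk X (p s t).1 = x s t := fun s t => congrArg Prod.fst (hpe s t)
    have hy : ∀ s t, rk Y (p s t).2 = y s t := fun s t => congrArg Prod.snd (hpe s t)
    refine hP ⟨fun s t => (p s t).1, fun s t => (p s t).2, fun s t => hp s t, ?_, ?_⟩
    · intro s t s' t' h
      refine lt_of_rk_lt X ?_
      rw [hx, hx]
      exact h2 _ _ _ _ h
    · intro s t s' t' h
      refine lt_of_rk_lt Y ?_
      rw [hy, hy]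
      exact h3 _ _ _ _ h

end P1346e8
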